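import Pool.Agent.Helper11.QT.Defs

/-!
# Arcs in a metric tree
-/

set_option autoImplicit false

open Set Metric Filter Topology
open scoped unitInterval

namespace Pool.Agent.QT

/-- A system of arcs. -/
structure ArcSys (T : Type*) [MetricSpace T] where
  arc : T → T → Set T
  self : ∀ x, arc x x = {x}
  symm : ∀ x y, arc x y = arc y x
  left : ∀ x y, x ∈ arc x y
  compact : ∀ x y, IsCompact (arc x y)
  conn : ∀ x y, IsPreconnected (arc x y)
  union : ∀ {x y z}, z ∈ arc x y → arc x z ∪ arc z y = arc x y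
  inter : ∀ {x y z}, z ∈ arc x y → arc x z ∩ arc z y = {z}
  tri : ∀ x y z, arc x z ⊆ arc x y ∪ arc y z
  K : ℝ
  hK : 1 ≤ K
  turn : ∀ x y, diam (arc x y) ≤ K * dist x y

section

variable {T : Type*} [MetricSpace T]

/-- Real parametrisation of an arc. -/
def IsArcR (x y : T) (A : Set T) : Prop :=
  ∃ (f : ℝ → T) (a b : ℝ), a ≤ b ∧ ContinuousOn f (Icc a b) ∧ InjOn f (Icc a b) ∧ f a = x ∧
    f b = y ∧ f '' Icc a b = A

theorem IsArcR.isArc {x y : T} {A : Set T} (h : IsArcR x y A) : IsArc x y A := by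
  obtain ⟨f, a, b, hab, hc, hi, hx, hy, hA⟩ := h
  rcases hab.eq_or_lt with rfl | hab'
  · left
    refine ⟨hx.symm.trans hy, ?_⟩
    rw [← hA, Icc_self, image_singleton, hx]
  · right
    have hmem : ∀ t : I, a + t * (b - a) ∈ Icc a b := by
      intro t
      have h0 := t.2.1
      have h1 := t.2.2
      have h2 : 0 < b - a := by linarith
      constructor
      · nlinarith
      · nlinarith
    refine ⟨⟨fun t => f (a + t * (b - a)), ?_⟩, ?_, ?_, ?_, ?_⟩
    · exact hc.comp_continuous (by fun_prop) hmem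
    · intro s t hst
      have h3 := hi (hmem s) (hmem t) hst
      have h4 : ((s : ℝ) - t) * (b - a) = 0 := by linarith
      have h5 : (s : ℝ) - t = 0 := by
        rcases mul_eq_zero.1 h4 with h | h
        · exact h
        · exfalso; linarith
      exact Subtype.ext (by linarith)
    · simp [hx]
    · simp [hy]
    · rw [← hA]
      ext z
      constructor
      · rintro ⟨t, rfl⟩
        exact ⟨_, hmem t, rfl⟩
      · rintro ⟨u, hu, rfl⟩
        have h2 : 0 < b - a := by linarith
        refine ⟨⟨(u - a) / (b - a), ?_, ?_⟩, ?_⟩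
        · exact div_nonneg (by linarith [hu.1]) h2.le
        · rw [div_le_one h2]; linarith [hu.2]
        · simp only [ContinuousMap.coe_mk]
          congr 1
          field_simp
          ring

theorem IsArc.isArcR {x y : T} {A : Set T} (h : IsArc x y A) : IsArcR x y A := by
  rcases h with ⟨rfl, rfl⟩ | ⟨γ, hi, h0, h1, hA⟩
  · exact ⟨fun _ => x, 0, 0, le_rfl, continuousOn_const, by simp, rfl, rfl, by simp⟩
  · refine ⟨fun t => γ (projIcc 0 1 zero_le_one t), 0, 1, zero_le_one, ?_, ?_, ?_, ?_, ?_⟩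
    · exact (γ.continuous.comp continuous_projIcc).continuousOn
    · intro s hs t ht hst
      have h3 := hi hst
      rw [projIcc_of_mem zero_le_one hs, projIcc_of_mem zero_le_one ht] at h3
      exact congrArg Subtype.val h3
    · simp only [projIcc_left]
      exact h0
    · simp only [projIcc_right]
      exact h1
    · rw [← hA]
      ext z
      constructor
      · rintro ⟨t, _, rfl⟩
        exact ⟨_, rfl⟩
      · rintro ⟨t, rfl⟩
        exact ⟨t, t.2, by simp only [projIcc_val]⟩

theorem IsArcR.symm {x y : T} {A : Set T} (h : IsArcR x y A) : IsArcR y x A := by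
  obtain ⟨f, a, b, hab, hc, hi, hx, hy, hA⟩ := h
  have hm : MapsTo (fun t : ℝ => -t) (Icc (-b) (-a)) (Icc a b) := by
    intro t ht
    constructor
    · linarith [ht.2]
    · linarith [ht.1]
  refine ⟨fun t => f (-t), -b, -a, by linarith, ?_, ?_, by simpa using hy, by simpa using hx, ?_⟩
  · exact hc.comp continuous_neg.continuousOn hm
  · intro s hs t ht hst
    have := hi (hm hs) (hm ht) hst
    simpa using this
  · rw [← hA]
    ext z
    constructor
    · rintro ⟨t, ht, rfl⟩
      exact ⟨-t, hm ht, rfl⟩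
    · rintro ⟨t, ht, rfl⟩
      exact ⟨-t, ⟨by linarith [ht.2], by linarith [ht.1]⟩, by simp⟩

theorem IsArcR.concat {x p z : T} {A B : Set T} (hA : IsArcR x p A) (hB : IsArcR p z B)
    (hAB : A ∩ B = {p}) : IsArcR x z (A ∪ B) := by
  obtain ⟨f, a, b, hab, hfc, hfi, hfx, hfp, hfA⟩ := hA
  obtain ⟨g, c, d, hcd, hgc, hgi, hgp, hgz, hgB⟩ := hB
  classical
  let h : ℝ → T := fun t => if t ≤ b then f t else g (t - b + c)
  have h1 : ∀ t ∈ Icc a b, h t = f t := by
    intro t ht
    simp only [h, if_pos ht.2]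
  have h2 : ∀ t ∈ Icc b (b + (d - c)), h t = g (t - b + c) := by
    intro t ht
    by_cases htb : t ≤ b
    · have : t = b := le_antisymm htb ht.1
      subst this
      simp only [h, if_pos le_rfl, hfp, sub_self, zero_add, hgp]
    · simp only [h, if_neg htb]
  have hm2 : MapsTo (fun t : ℝ => t - b + c) (Icc b (b + (d - c))) (Icc c d) := by
    intro t ht
    constructor
    · linarith [ht.1]
    · linarith [ht.2]
  have hI1 : h '' Icc a b = A := by
    rw [← hfA]
    exact image_congr h1
  have hI2 : h '' Icc b (b + (d - c)) = B := by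
    rw [← hgB]
    ext w
    constructor
    · rintro ⟨t, ht, rfl⟩
      exact ⟨_, hm2 ht, (h2 t ht).symm⟩
    · rintro ⟨t, ht, rfl⟩
      refine ⟨t - c + b, ⟨by linarith [ht.1], by linarith [ht.2]⟩, ?_⟩
      rw [h2 _ ⟨by linarith [ht.1], by linarith [ht.2]⟩]
      congr 1
      ring
  have hU : Icc a b ∪ Icc b (b + (d - c)) = Icc a (b + (d - c)) :=
    Icc_union_Icc_eq_Icc hab (by linarith)
  refine ⟨h, a, b + (d - c), by linarith, ?_, ?_, ?_, ?_, ?_⟩
  · rw [← hU]
    refine ContinuousOn.union_of_isClosed ?_ ?_ isClosed_Icc isClosed_Icc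
    · exact hfc.congr h1
    · have : ContinuousOn (fun t => g (t - b + c)) (Icc b (b + (d - c))) :=
        hgc.comp (by fun_prop) hm2
      exact this.congr h2
  · have key : ∀ s ∈ Icc a b, ∀ t ∈ Icc b (b + (d - c)), h s = h t → s = t := by
      intro s hs t ht hst
      have hsA : h s ∈ A := hI1 ▸ mem_image_of_mem h hs
      have htB : h t ∈ B := hI2 ▸ mem_image_of_mem h ht
      have hp : h s = p := by
        have : h s ∈ A ∩ B := ⟨hsA, hst ▸ htB⟩
        rw [hAB] at this
        exact this
      have hp' : h t = p := hst ▸ hp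
      have e1 : s = b := by
        rw [h1 s hs] at hp
        exact hfi hs ⟨hab, le_rfl⟩ (hp.trans hfp.symm)
      have e2 : t - b + c = c := by
        rw [h2 t ht] at hp'
        exact hgi (hm2 ht) ⟨le_rfl, hcd⟩ (hp'.trans hgp.symm)
      linarith
    intro s hs t ht hst
    rw [← hU] at hs ht
    rcases hs with hs | hs <;> rcases ht with ht | ht
    · rw [h1 s hs, h1 t ht] at hst
      exact hfi hs ht hst
    · exact key s hs t ht hst
    · exact (key t ht s hs hst.symm).symm
    · rw [h2 s hs, h2 t ht] at hst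
      have := hgi (hm2 hs) (hm2 ht) hst
      linarith
  · rw [h1 a ⟨le_rfl, hab⟩, hfx]
  · rw [h2 _ ⟨by linarith, le_rfl⟩]
    have : b + (d - c) - b + c = d := by ring
    rw [this, hgz]
  · rw [← hU, image_union, hI1, hI2]

end

/-- The arc system of a metric tree of bounded turning. -/
theorem exists_arcSys {T : Type*} [MetricSpace T] (hT : IsMetricTree T)
    (hB : IsBoundedTurning T) : ∃ S : ArcSys T, ∀ x y, IsArc x y (S.arc x y) := by
  classical
  obtain ⟨K, hK, hturn⟩ := hB
  choose arc harc huniq using hT.arcs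
  have uniqR : ∀ {x y : T} {A : Set T}, IsArcR x y A → A = arc x y :=
    fun {x y A} h => huniq x y A h.isArc
  have hself : ∀ x, arc x x = {x} := fun x => (huniq x x {x} (Or.inl ⟨rfl, rfl⟩)).symm
  have hsymm : ∀ x y, arc x y = arc y x := by
    intro x y
    exact uniqR (harc x y).isArcR.symm
  have hleft : ∀ x y, x ∈ arc x y := by
    intro x y
    obtain ⟨f, a, b, hab, hc, hi, hx, hy, hA⟩ := (harc x y).isArcR
    rw [← hA]
    exact ⟨a, ⟨le_rfl, hab⟩, hx⟩
  have hcompact : ∀ x y, IsCompact (arc x y) := by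
    intro x y
    obtain ⟨f, a, b, hab, hc, hi, hx, hy, hA⟩ := (harc x y).isArcR
    rw [← hA]
    exact isCompact_Icc.image_of_continuousOn hc
  have hconn : ∀ x y, IsPreconnected (arc x y) := by
    intro x y
    obtain ⟨f, a, b, hab, hc, hi, hx, hy, hA⟩ := (harc x y).isArcR
    rw [← hA]
    exact isPreconnected_Icc.image f hc
  have hsplit : ∀ {x y z}, z ∈ arc x y →
      arc x z ∪ arc z y = arc x y ∧ arc x z ∩ arc z y = {z} := by
    intro x y z hz
    obtain ⟨f, a, b, hab, hc, hi, hx, hy, hA⟩ := (harc x y).isArcR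
    rw [← hA] at hz
    obtain ⟨t, ht, rfl⟩ := hz
    have s1 : Icc a t ⊆ Icc a b := Icc_subset_Icc_right ht.2
    have s2 : Icc t b ⊆ Icc a b := Icc_subset_Icc_left ht.1
    have e1 : f '' Icc a t = arc x (f t) :=
      uniqR ⟨f, a, t, ht.1, hc.mono s1, hi.mono s1, hx, rfl, rfl⟩
    have e2 : f '' Icc t b = arc (f t) y :=
      uniqR ⟨f, t, b, ht.2, hc.mono s2, hi.mono s2, rfl, hy, rfl⟩
    rw [← e1, ← e2, ← hA, ← image_union, Icc_union_Icc_eq_Icc ht.1 ht.2]
    refine ⟨rfl, ?_⟩
    rw [← hi.image_inter s1 s2, Icc_inter_Icc_eq_singleton ht.1 ht.2, image_singleton]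
  have htri : ∀ x y z, arc x z ⊆ arc x y ∪ arc y z := by
    intro x y z
    by_cases hxy : x ∈ arc y z
    · have h1 := (hsplit hxy).1
      intro w hw
      right
      rw [← h1]
      exact Or.inr hw
    obtain ⟨f, a, b, hab, hc, hi, hx, hy, hA⟩ := (harc x y).isArcR
    let S : Set ℝ := Icc a b ∩ f ⁻¹' (arc y z)
    have hScl : IsClosed S := hc.preimage_isClosed_of_isClosed isClosed_Icc
      (hcompact y z).isClosed
    have hSne : S.Nonempty := ⟨b, ⟨hab, le_rfl⟩, by
      simp only [mem_preimage, hy]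
      exact hleft y z⟩
    have hSbb : BddBelow S := ⟨a, fun t ht => ht.1.1⟩
    have ht0 : sInf S ∈ S := hScl.csInf_mem hSne hSbb
    set t0 := sInf S with ht0def
    have s1 : Icc a t0 ⊆ Icc a b := Icc_subset_Icc_right ht0.1.2
    have e1 : f '' Icc a t0 = arc x (f t0) :=
      uniqR ⟨f, a, t0, ht0.1.1, hc.mono s1, hi.mono s1, hx, rfl, rfl⟩
    have hp : f t0 ∈ arc y z := ht0.2
    have hpz : arc (f t0) z ⊆ arc y z := by
      intro w hw
      rw [← (hsplit hp).1]
      exact Or.inr hw
    have hint : arc x (f t0) ∩ arc (f t0) z = {f t0} := by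
      apply Subset.antisymm
      · rintro w ⟨hw1, hw2⟩
        rw [← e1] at hw1
        obtain ⟨t, ht, rfl⟩ := hw1
        have : t ∈ S := ⟨s1 ht, hpz hw2⟩
        have h5 := csInf_le hSbb this
        have : t = t0 := le_antisymm ht.2 h5
        rw [this]
        rfl
      · rintro w rfl
        refine ⟨?_, hleft _ _⟩
        rw [hsymm]
        exact hleft _ _
    have h6 := uniqR ((harc x (f t0)).isArcR.concat (harc (f t0) z).isArcR hint)
    rw [← h6]
    rintro w (hw | hw)
    · left
      rw [← e1] at hw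
      rw [← hA]
      exact image_mono s1 hw
    · right
      exact hpz hw
  exact ⟨⟨arc, hself, hsymm, hleft, hcompact, hconn, fun h => (hsplit h).1,
    fun h => (hsplit h).2, htri, K, hK, fun x y => hturn x y _ (harc x y)⟩, harc⟩

end Pool.Agent.QT
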