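import Pool.Agent.Helper11.QT.Defs

/-!
# Geometry of the model of `T_∞`
-/

set_option autoImplicit false

open Set Metric Filter Topology

namespace Pool.Agent.QT

/-- Weight of a letter: `len (k :: w) = len w / 2 ^ (wt k)`. -/
def wt : ℕ → ℕ
  | 0 => 1
  | 1 => 1
  | (k + 2) => k + 1

theorem one_le_wt (k : ℕ) : 1 ≤ wt k := by
  rcases k with _ | _ | k <;> simp [wt]

theorem len_cons (k : ℕ) (w : List ℕ) : len (k :: w) = len w / 2 ^ (wt k) := by
  rcases k with _ | _ | k <;> simp [len, wt]

theorem len_pos : ∀ w : List ℕ, 0 < len w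
  | [] => by simp [len]
  | k :: w => by rw [len_cons]; have := len_pos w; positivity

theorem len_cons_le (k : ℕ) (w : List ℕ) : len (k :: w) ≤ len w / 2 := by
  rw [len_cons]
  have h := len_pos w
  have h1 := one_le_wt k
  have h2 : (2 : ℝ) ^ 1 ≤ 2 ^ (wt k) := pow_le_pow_right₀ (by norm_num) h1
  rw [pow_one] at h2
  gcongr

/-- Midpoint of the segment `w`. -/
noncomputable def ctr (w : List ℕ) : EllOne := start w + (len w / 2) • unitVec (dir w)

/-- End point of the segment `w`. -/
noncomputable def stop (w : List ℕ) : EllOne := start w + (len w) • unitVec (dir w)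

theorem start_zero (w : List ℕ) : start (0 :: w) = start w := rfl
theorem start_one (w : List ℕ) : start (1 :: w) = ctr w := rfl
theorem start_side (k : ℕ) (w : List ℕ) : start ((k + 2) :: w) = ctr w := rfl

theorem stop_zero (w : List ℕ) : stop (0 :: w) = ctr w := rfl

theorem stop_one (w : List ℕ) : stop (1 :: w) = stop w := by
  have h : stop (1 :: w) = start w + (len w / 2) • unitVec (dir w) +
      (len w / 2) • unitVec (dir w) := rfl
  rw [h, stop, add_assoc, ← add_smul, add_halves]

theorem norm_unitVec (i : List ℕ) : ‖unitVec i‖ = 1 := by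
  simp [unitVec, lp.norm_single]

theorem norm_eq_tsum (f : EllOne) : ‖f‖ = ∑' i, |f i| := by
  have h := lp.norm_eq_tsum_rpow (p := 1) (by simp) f
  simpa using h

theorem summable_abs (f : EllOne) : Summable (fun i => |f i|) := by
  have h := (lp.memℓp f).summable (by simp)
  simpa using h

theorem unitVec_apply_self (i : List ℕ) : unitVec i i = 1 := by
  simp [unitVec]

theorem unitVec_apply_ne {i j : List ℕ} (h : j ≠ i) : unitVec i j = 0 := by
  unfold unitVec
  exact lp.single_apply_ne (E := fun _ : List ℕ => ℝ) 1 i (1 : ℝ) h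

theorem add_smul_apply (x : EllOne) (t : ℝ) (i j : List ℕ) :
    (x + t • unitVec i) j = x j + t * (unitVec i j) := by
  simp

theorem add_smul_apply_self (x : EllOne) (t : ℝ) (i : List ℕ) :
    (x + t • unitVec i) i = x i + t := by
  rw [add_smul_apply, unitVec_apply_self, mul_one]

theorem add_smul_apply_ne (x : EllOne) (t : ℝ) {i j : List ℕ} (h : j ≠ i) :
    (x + t • unitVec i) j = x j := by
  rw [add_smul_apply, unitVec_apply_ne h, mul_zero, add_zero]

theorem dir_suffix : ∀ w : List ℕ, dir w <:+ w
  | [] => by simp [dir]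
  | 0 :: w => (dir_suffix w).trans (List.suffix_cons _ _)
  | 1 :: w => (dir_suffix w).trans (List.suffix_cons _ _)
  | (k + 2) :: w => by simp [dir]

theorem dir_length_le (w : List ℕ) : (dir w).length ≤ w.length := (dir_suffix w).length_le

theorem not_cons_suffix_of_length_le {k : ℕ} {w i : List ℕ} (h : i.length ≤ w.length) :
    ¬ (k :: w) <:+ i := by
  intro hs
  have := hs.length_le
  simp at this
  omega

theorem suffix_cons_unique {k l : ℕ} {w i : List ℕ} (h1 : (k :: w) <:+ i) (h2 : (l :: w) <:+ i) :
    k = l := by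
  obtain ⟨u, hu⟩ := h1
  obtain ⟨v, hv⟩ := h2
  have h := hu.trans hv.symm
  have h3 := List.append_inj' h (by simp)
  have := h3.2
  simpa using this

/-- The box of `w`: a closed set containing everything attached to the segment `w`. -/
def box (w : List ℕ) : Set EllOne :=
  {y | (∀ i, i ≠ dir w → (w <:+ i → w = i) → y i = start w i) ∧
    start w (dir w) ≤ y (dir w) ∧ y (dir w) ≤ start w (dir w) + len w}

theorem continuous_apply (i : List ℕ) : Continuous (fun y : EllOne => y i) := by
  have h : LipschitzWith 1 (fun y : EllOne => y i) := by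
    refine LipschitzWith.of_dist_le_mul fun x y => ?_
    rw [dist_eq_norm, dist_eq_norm]
    have := lp.norm_apply_le_norm (p := 1) (by simp) (x - y) i
    simpa using this
  exact h.continuous

theorem isClosed_box (w : List ℕ) : IsClosed (box w) := by
  have : box w = (⋂ i, ⋂ (_ : i ≠ dir w), ⋂ (_ : w <:+ i → w = i), {y | y i = start w i}) ∩
      ({y | start w (dir w) ≤ y (dir w)} ∩ {y | y (dir w) ≤ start w (dir w) + len w}) := by
    ext y
    simp [box]
  rw [this]
  refine IsClosed.inter ?_ (IsClosed.inter ?_ ?_)
  · refine isClosed_iInter fun i => isClosed_iInter fun _ => isClosed_iInter fun _ => ?_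
    exact isClosed_eq (continuous_apply i) continuous_const
  · exact isClosed_le continuous_const (continuous_apply _)
  · exact isClosed_le (continuous_apply _) continuous_const

theorem box_zero_subset (w : List ℕ) : box (0 :: w) ⊆ box w := by
  rintro y ⟨h1, h2, h3⟩
  have hl := len_pos w
  refine ⟨fun i hi hw => ?_, h2, ?_⟩
  · refine h1 i hi (fun hs => ?_)
    exfalso
    have h4 := hw ((List.suffix_cons _ _).trans hs)
    subst h4
    exact not_cons_suffix_of_length_le le_rfl hs
  · have : len (0 :: w) = len w / 2 := rfl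
    rw [this] at h3
    have e : dir (0 :: w) = dir w := rfl
    have e2 : start (0 :: w) = start w := rfl
    rw [e, e2] at h3
    linarith

theorem box_one_subset (w : List ℕ) : box (1 :: w) ⊆ box w := by
  rintro y ⟨h1, h2, h3⟩
  have hl := len_pos w
  have e : dir (1 :: w) = dir w := rfl
  have e2 : start (1 :: w) = start w + (len w / 2) • unitVec (dir w) := rfl
  have e3 : len (1 :: w) = len w / 2 := rfl
  rw [e, e2, add_smul_apply_self] at h2
  rw [e, e2, e3, add_smul_apply_self] at h3
  refine ⟨fun i hi hw => ?_, by linarith, by linarith⟩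
  · have h5 := h1 i (by rwa [e]) (fun hs => ?_)
    · rw [h5, e2, add_smul_apply_ne _ _ hi]
    · exfalso
      have h4 := hw ((List.suffix_cons _ _).trans hs)
      subst h4
      exact not_cons_suffix_of_length_le le_rfl hs

theorem box_side_subset (k : ℕ) (w : List ℕ) : box ((k + 2) :: w) ⊆ box w := by
  rintro y ⟨h1, h2, h3⟩
  have hl := len_pos w
  have e : dir ((k + 2) :: w) = (k + 2) :: w := rfl
  have e2 : start ((k + 2) :: w) = start w + (len w / 2) • unitVec (dir w) := rfl
  have hd : y (dir w) = start w (dir w) + len w / 2 := by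
    have := h1 (dir w) (by
      rw [e]; intro h
      have := dir_length_le w
      rw [h] at this
      simp at this) (fun hs => by
        exfalso
        exact not_cons_suffix_of_length_le (dir_length_le w) hs)
    rw [this, e2, add_smul_apply_self]
  refine ⟨fun i hi hw => ?_, by rw [hd]; linarith, by rw [hd]; linarith⟩
  have hni : ¬ ((k + 2) :: w) <:+ i := by
    intro hs
    have h4 := hw ((List.suffix_cons _ _).trans hs)
    subst h4
    exact not_cons_suffix_of_length_le le_rfl hs
  have := h1 i (by rw [e]; intro h; exact hni (by rw [h])) (fun hs => absurd hs hni)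
  rw [this, e2, add_smul_apply_ne _ _ hi]

theorem box_cons_subset (k : ℕ) (w : List ℕ) : box (k :: w) ⊆ box w := by
  rcases k with _ | _ | k
  · exact box_zero_subset w
  · exact box_one_subset w
  · exact box_side_subset k w

theorem start_mem_box (w : List ℕ) : start w ∈ box w :=
  ⟨fun _ _ _ => rfl, le_rfl, by linarith [len_pos w]⟩

theorem stop_mem_box (w : List ℕ) : stop w ∈ box w := by
  have hl := len_pos w
  refine ⟨fun i hi _ => ?_, ?_, ?_⟩
  · rw [stop, add_smul_apply_ne _ _ hi]
  · rw [stop, add_smul_apply_self]; linarith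
  · rw [stop, add_smul_apply_self]

theorem ctr_mem_box (w : List ℕ) : ctr w ∈ box w := by
  have hl := len_pos w
  refine ⟨fun i hi _ => ?_, ?_, ?_⟩
  · rw [ctr, add_smul_apply_ne _ _ hi]
  · rw [ctr, add_smul_apply_self]; linarith
  · rw [ctr, add_smul_apply_self]; linarith

/-- The coordinates of a point of a child box agree with those of the midpoint outside of
the child region. -/
theorem box_coord {k : ℕ} {w : List ℕ} {y : EllOne} (hy : y ∈ box (k :: w)) {i : List ℕ}
    (hi : i ≠ dir w) (hs : ¬ (k :: w) <:+ i) : y i = ctr w i := by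
  have hc : ctr w i = start w i := by rw [ctr, add_smul_apply_ne _ _ hi]
  rcases k with _ | _ | k
  · rw [hc]; exact hy.1 i hi (fun h => absurd h hs)
  · exact hy.1 i hi (fun h => absurd h hs)
  · have e : dir ((k + 2) :: w) = (k + 2) :: w := rfl
    exact hy.1 i (by rw [e]; intro h; exact hs (by rw [h])) (fun h => absurd h hs)

theorem box_side_coord {k : ℕ} {w : List ℕ} {y : EllOne} (hy : y ∈ box ((k + 2) :: w)) :
    y (dir w) = ctr w (dir w) := by
  have e : dir ((k + 2) :: w) = (k + 2) :: w := rfl
  exact hy.1 (dir w) (by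
      rw [e]; intro h
      have := dir_length_le w
      rw [h] at this
      simp at this) (fun hs => by
        exfalso
        exact not_cons_suffix_of_length_le (dir_length_le w) hs)

theorem abs_split {a b c : ℝ} (h : (a ≤ c ∧ c ≤ b) ∨ (b ≤ c ∧ c ≤ a) ∨ a = c ∨ b = c) :
    |a - b| = |a - c| + |c - b| := by
  rcases h with ⟨h1, h2⟩ | ⟨h1, h2⟩ | h | h
  · rw [abs_of_nonpos (by linarith), abs_of_nonpos (by linarith), abs_of_nonpos (by linarith)]
    ring
  · rw [abs_of_nonneg (by linarith), abs_of_nonneg (by linarith), abs_of_nonneg (by linarith)]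
    ring
  · rw [h]; simp
  · rw [h]; simp

theorem box_dist {k l : ℕ} {w : List ℕ} {y y' : EllOne} (hkl : k ≠ l) (hy : y ∈ box (k :: w))
    (hy' : y' ∈ box (l :: w)) : dist y y' = dist y (ctr w) + dist (ctr w) y' := by
  rw [dist_eq_norm, dist_eq_norm, dist_eq_norm, norm_eq_tsum, norm_eq_tsum, norm_eq_tsum,
    ← (summable_abs (y - ctr w)).tsum_add (summable_abs (ctr w - y'))]
  refine tsum_congr fun i => ?_
  have e1 : (y - y') i = y i - y' i := rfl
  have e2 : (y - ctr w) i = y i - ctr w i := rfl
  have e3 : (ctr w - y') i = ctr w i - y' i := rfl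
  rw [e1, e2, e3]
  apply abs_split
  by_cases hi : i = dir w
  · subst hi
    have hc : ctr w (dir w) = start w (dir w) + len w / 2 := by rw [ctr, add_smul_apply_self]
    have lo : ∀ {z : EllOne}, z ∈ box (0 :: w) → z (dir w) ≤ ctr w (dir w) := by
      intro z hz
      have := hz.2.2
      have e : dir (0 :: w) = dir w := rfl
      have e2 : start (0 :: w) = start w := rfl
      have e3 : len (0 :: w) = len w / 2 := rfl
      rw [e, e2, e3] at this
      rw [hc]; exact this
    have hi' : ∀ {z : EllOne}, z ∈ box (1 :: w) → ctr w (dir w) ≤ z (dir w) := by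
      intro z hz
      exact hz.2.1
    rcases k with _ | _ | k
    · rcases l with _ | _ | l
      · exact absurd rfl hkl
      · exact Or.inl ⟨lo hy, hi' hy'⟩
      · exact Or.inr (Or.inr (Or.inr (box_side_coord hy')))
    · rcases l with _ | _ | l
      · exact Or.inr (Or.inl ⟨lo hy', hi' hy⟩)
      · exact absurd rfl hkl
      · exact Or.inr (Or.inr (Or.inr (box_side_coord hy')))
    · exact Or.inr (Or.inr (Or.inl (box_side_coord hy)))
  · by_cases hs : (k :: w) <:+ i
    · have hs' : ¬ (l :: w) <:+ i := fun h => hkl (suffix_cons_unique hs h)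
      exact Or.inr (Or.inr (Or.inr (box_coord hy' hi hs')))
    · exact Or.inr (Or.inr (Or.inl (box_coord hy hi hs)))

theorem dist_add_smul (x : EllOne) (s t : ℝ) (i : List ℕ) :
    dist (x + s • unitVec i) (x + t • unitVec i) = |s - t| := by
  rw [dist_add_left, dist_eq_norm, ← sub_smul, norm_smul, norm_unitVec, mul_one, Real.norm_eq_abs]

theorem dist_start_ctr (w : List ℕ) : dist (start w) (ctr w) = len w / 2 := by
  have h := dist_add_smul (start w) 0 (len w / 2) (dir w)
  rw [zero_smul, add_zero] at h
  rw [ctr, h, zero_sub, abs_neg, abs_of_pos (by linarith [len_pos w])]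

theorem dist_start_stop (w : List ℕ) : dist (start w) (stop w) = len w := by
  have h := dist_add_smul (start w) 0 (len w) (dir w)
  rw [zero_smul, add_zero] at h
  rw [stop, h, zero_sub, abs_neg, abs_of_pos (len_pos w)]

theorem dist_ctr_stop (w : List ℕ) : dist (ctr w) (stop w) = len w / 2 := by
  have h := dist_add_smul (start w) (len w / 2) (len w) (dir w)
  rw [ctr, stop, h, abs_of_neg (by linarith [len_pos w])]
  ring

/-- A point in a child box other than `0 :: w` is far from the start of `w`. -/
theorem far_start {k : ℕ} {w : List ℕ} {y : EllOne} (hk : k ≠ 0) (hy : y ∈ box (k :: w)) :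
    len w / 2 ≤ dist y (start w) := by
  have h : start w ∈ box (0 :: w) := by
    have := start_mem_box (0 :: w)
    rwa [start_zero] at this
  rw [box_dist hk hy h, dist_comm (ctr w), dist_start_ctr]
  linarith [dist_nonneg (x := y) (y := ctr w)]

/-- A point in a child box other than `1 :: w` is far from the end of `w`. -/
theorem far_stop {k : ℕ} {w : List ℕ} {y : EllOne} (hk : k ≠ 1) (hy : y ∈ box (k :: w)) :
    len w / 2 ≤ dist y (stop w) := by
  have h : stop w ∈ box (1 :: w) := by
    have := stop_mem_box (1 :: w)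
    rwa [stop_one] at this
  rw [box_dist hk hy h, dist_ctr_stop]
  linarith [dist_nonneg (x := y) (y := ctr w)]

theorem dist_start_cons (k : ℕ) (w : List ℕ) : dist (start w) (start (k :: w)) ≤ len w / 2 := by
  have hl := len_pos w
  rcases k with _ | _ | k
  · rw [start_zero, dist_self]; linarith
  · have : start ((0 + 1) :: w) = ctr w := rfl
    rw [this, dist_start_ctr]
  · have : start ((k + 1 + 1) :: w) = ctr w := rfl
    rw [this, dist_start_ctr]

/-- The word consisting of the first `n` letters of the sequence `a`. -/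
def pre (a : ℕ → ℕ) : ℕ → List ℕ
  | 0 => []
  | (n + 1) => a n :: pre a n

theorem pre_length (a : ℕ → ℕ) : ∀ n, (pre a n).length = n
  | 0 => rfl
  | (n + 1) => by simp [pre, pre_length a n]

theorem len_pre_le (a : ℕ → ℕ) (n m : ℕ) : len (pre a (n + m)) ≤ len (pre a n) / 2 ^ m := by
  induction m with
  | zero => simp
  | succ m ih =>
    have h := len_cons_le (a (n + m)) (pre a (n + m))
    have e : pre a (n + (m + 1)) = a (n + m) :: pre a (n + m) := rfl
    rw [e, pow_succ]
    refine h.trans ?_
    rw [← div_div]
    linarith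

theorem dist_start_pre (a : ℕ → ℕ) (n m : ℕ) :
    dist (start (pre a n)) (start (pre a (n + m))) ≤ len (pre a n) - len (pre a (n + m)) := by
  induction m with
  | zero => simp
  | succ m ih =>
    have e : pre a (n + (m + 1)) = a (n + m) :: pre a (n + m) := rfl
    have h1 := dist_start_cons (a (n + m)) (pre a (n + m))
    have h2 := len_cons_le (a (n + m)) (pre a (n + m))
    have h3 := dist_triangle (start (pre a n)) (start (pre a (n + m)))
      (start (pre a (n + (m + 1))))
    rw [e] at h3 ⊢
    linarith

theorem len_pre_tendsto (a : ℕ → ℕ) : Tendsto (fun n => len (pre a n)) atTop (𝓝 0) := by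
  have h1 : ∀ n, len (pre a n) ≤ 2 * (1 / 2 : ℝ) ^ n := by
    intro n
    have h := len_pre_le a 0 n
    have e : len (pre a 0) = 2 := rfl
    rw [zero_add, e] at h
    rw [one_div, inv_pow, ← div_eq_mul_inv]
    exact h
  have h2 : Tendsto (fun n : ℕ => 2 * (1 / 2 : ℝ) ^ n) atTop (𝓝 (2 * 0)) :=
    (tendsto_pow_atTop_nhds_zero_of_lt_one (by norm_num) (by norm_num)).const_mul 2
  rw [mul_zero] at h2
  exact squeeze_zero (fun n => (len_pos _).le) h1 h2

theorem cauchy_start_pre (a : ℕ → ℕ) : CauchySeq (fun n => start (pre a n)) := by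
  refine cauchySeq_of_le_tendsto_0 (fun n => 2 * len (pre a n)) ?_ ?_
  · intro n m N hn hm
    obtain ⟨n', rfl⟩ := Nat.exists_eq_add_of_le hn
    obtain ⟨m', rfl⟩ := Nat.exists_eq_add_of_le hm
    have h1 := dist_start_pre a N n'
    have h2 := dist_start_pre a N m'
    have h3 := dist_triangle_left (start (pre a (N + n'))) (start (pre a (N + m')))
      (start (pre a N))
    have h4 := len_pos (pre a (N + n'))
    have h5 := len_pos (pre a (N + m'))
    linarith
  · have := (len_pre_tendsto a).const_mul 2
    rwa [mul_zero] at this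

/-- The point of `T_∞` with address `a`. -/
noncomputable def pt (a : ℕ → ℕ) : EllOne :=
  Classical.choose (cauchySeq_tendsto_of_complete (cauchy_start_pre a))

theorem tendsto_pt (a : ℕ → ℕ) : Tendsto (fun n => start (pre a n)) atTop (𝓝 (pt a)) :=
  Classical.choose_spec (cauchySeq_tendsto_of_complete (cauchy_start_pre a))

theorem dist_start_pt (a : ℕ → ℕ) (n : ℕ) : dist (start (pre a n)) (pt a) ≤ len (pre a n) := by
  have h := (tendsto_const_nhds (x := start (pre a n))).dist
    ((tendsto_pt a).comp (tendsto_add_atTop_nat n))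
  refine le_of_tendsto h (Eventually.of_forall fun m => ?_)
  have h1 := dist_start_pre a n m
  have h2 := len_pos (pre a (n + m))
  simp only [Function.comp]
  rw [add_comm m n]
  linarith

theorem pt_mem_box (a : ℕ → ℕ) (n : ℕ) : pt a ∈ box (pre a n) := by
  have h1 : ∀ m, start (pre a (m + n)) ∈ box (pre a n) := by
    have : ∀ m, box (pre a (n + m)) ⊆ box (pre a n) := by
      intro m
      induction m with
      | zero => simp
      | succ m ih => exact (box_cons_subset _ _).trans ih
    intro m
    rw [add_comm]
    exact this m (start_mem_box _)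
  exact (isClosed_box _).mem_of_tendsto ((tendsto_pt a).comp (tendsto_add_atTop_nat n))
    (Eventually.of_forall h1)

theorem start_mem_J (w : List ℕ) : start w ∈ ⋃ n, J n := by
  refine mem_iUnion.2 ⟨w.length, ?_⟩
  refine mem_biUnion (x := w) (by simp) ?_
  exact ⟨0, le_rfl, (len_pos w).le, by simp⟩

theorem pt_mem_TInfty (a : ℕ → ℕ) : pt a ∈ TInfty :=
  mem_closure_of_tendsto (tendsto_pt a) (Eventually.of_forall fun _ => start_mem_J _)

end Pool.Agent.QT
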