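import Pool.Agent.Helper11.QT.Tree
import Pool.Agent.Helper11.QT.TInf

/-!
# Abstract cell systems
-/

set_option autoImplicit false

open Set Metric Filter Topology

namespace Pool.Agent.QT

/-- A cell system on a tree, indexed by words. -/
structure CellSys {T : Type*} [MetricSpace T] (S : ArcSys T) where
  θ : ℝ
  C : ℝ
  hθ0 : 0 < θ
  hθ1 : θ < 1
  hC : 1 ≤ C
  Good : List ℕ → Prop
  X : List ℕ → Set T
  cut : List ℕ → T
  r : List ℕ → ℝ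
  letter : List ℕ → T → ℕ
  bdS : List ℕ → T
  bdE : List ℕ → T
  HasE : List ℕ → Prop
  good_nil : Good []
  good_tail : ∀ {k w}, Good (k :: w) → Good w
  X_nil : ∀ x, x ∈ X []
  r_pos : ∀ {w}, Good w → 0 < r w
  cut_mem : ∀ {w}, Good w → cut w ∈ X w
  step : ∀ {w x}, Good w → x ∈ X w → Good (letter w x :: w) ∧ x ∈ X (letter w x :: w)
  sub : ∀ {k w}, Good (k :: w) → X (k :: w) ⊆ X w
  pairsep : ∀ {k l w x y}, Good (k :: w) → Good (l :: w) → k ≠ l → x ∈ X (k :: w) →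
    y ∈ X (l :: w) → cut w ∈ S.arc x y
  rho_le : ∀ {w x y}, Good w → x ∈ X w → y ∈ X w → S.rho x y ≤ C * r w
  bd0 : ∀ {w}, Good (0 :: w) → HasE (0 :: w) ∧ bdE (0 :: w) = cut w
  bd1 : ∀ {w}, Good (1 :: w) → bdS (1 :: w) = cut w
  bdk : ∀ {k w}, Good ((k + 2) :: w) → bdS ((k + 2) :: w) = cut w
  inhS : ∀ {w}, Good (0 :: w) → bdS (0 :: w) = bdS w
  inhE : ∀ {w}, Good (1 :: w) → HasE w → HasE (1 :: w) ∧ bdE (1 :: w) = bdE w
  memS : ∀ {w}, Good w → w ≠ [] → bdS w ∈ X w ∧ letter w (bdS w) = 0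
  memE : ∀ {w}, Good w → HasE w → bdE w ∈ X w ∧ letter w (bdE w) = 1
  farS : ∀ {w}, Good w → w ≠ [] → r w ≤ C * S.rho (cut w) (bdS w)
  farE : ∀ {w}, Good w → HasE w → r w ≤ C * S.rho (cut w) (bdE w)
  outside : ∀ {w x y}, Good w → x ∉ X w → y ∈ X w →
    (w ≠ [] ∧ bdS w ∈ S.arc x y) ∨ (HasE w ∧ bdE w ∈ S.arc x y)
  r_le : ∀ {k w}, Good (k :: w) → r (k :: w) ≤ C * θ ^ (wt k) * r w
  r_ge : ∀ {k w}, Good (k :: w) → θ ^ (wt k) * r w ≤ C * r (k :: w)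
  exactS : ∀ {w}, Good (0 :: 0 :: w) → r (0 :: 0 :: w) = θ * r (0 :: w)
  exactE : ∀ {w}, Good (1 :: 1 :: w) → HasE w → r (1 :: 1 :: w) = θ * r (1 :: w)
  spread : ∀ {w}, Good w → ∃ x ∈ X w, ∃ y ∈ X w, r w ≤ C * S.rho x y

end Pool.Agent.QT
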