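import Pool.Agent.Helper11.QT.Cells
import Pool.Agent.Helper11.QT.CellSys

/-!
# The cell system of a quasiconformal tree with separated branch points
-/

set_option autoImplicit false

open Set Metric Filter Topology

namespace Pool.Agent.QT

namespace Choices

variable {T : Type*} [MetricSpace T] [CompactSpace T] {S : Ctx T} (A : Choices S)

/-- The common constant. -/
noncomputable def CC (S : Ctx T) : ℝ := 2 * D1 S + 1 / S.lam' + 8

omit [CompactSpace T] in
theorem CC_ge8 : 8 ≤ CC S := by
  have h1 := D1_pos (S := S)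
  have h2 := S.lam'_pos
  have h3 : 0 < 1 / S.lam' := by positivity
  unfold CC
  linarith

omit [CompactSpace T] in
theorem CC_geD : 2 * D1 S ≤ CC S := by
  have h2 := S.lam'_pos
  have h3 : 0 < 1 / S.lam' := by positivity
  unfold CC
  linarith

omit [CompactSpace T] in
theorem CC_gel : 1 / S.lam' ≤ CC S := by
  have h1 := D1_pos (S := S)
  unfold CC
  linarith

omit [CompactSpace T] in
theorem D1_ge4 : 4 ≤ D1 S := by
  have h2 := S.lam_pos
  have h3 : 0 < 8 / S.lam := by positivity
  unfold D1
  linarith

theorem not_root_next {c : Cell T} {k : ℕ} (hk : A.Allowed c k) : ¬ IsRoot (A.next c k) := by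
  match c, k, hk with
  | .root, _, Or.inl rfl => exact id
  | .root, _, Or.inr rfl => exact id
  | .one _ _, _, Or.inl rfl => exact id
  | .one _ _, _, Or.inr rfl => exact id
  | .two _ _ _ b, 0, _ => cases b <;> exact id
  | .two _ _ _ b, 1, _ => cases b <;> exact id
  | .two _ _ _ b, (k + 2), _ => cases b <;> exact id

theorem lam'_g_le {o n : T} {g : ℝ} (h : S.Val2 o n g) : g ≤ CC S * S.rho n (A.z2 o n g) := by
  have hs := A.h2 h
  have hl := S.lam'_pos
  have h1 := hs.far_n
  have h2 : g ≤ 1 / S.lam' * S.rho n (A.z2 o n g) := by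
    rw [one_div, inv_mul_eq_div, le_div_iff₀ hl]
    linarith
  have h3 := CC_gel (S := S)
  have h4 := S.rho_nonneg n (A.z2 o n g)
  nlinarith

theorem far_o_le {o n : T} {g : ℝ} (h : S.Val2 o n g) : g ≤ CC S * S.rho o (A.z2 o n g) := by
  have hs := A.h2 h
  have h1 := hs.far_o
  have hθ := S.hθ
  have hg := h.g_pos
  have h2 : g ≤ 4 * S.rho o (A.z2 o n g) := by
    have : (1 / 4 : ℝ) ≤ S.θ ^ 2 := by nlinarith
    nlinarith
  have h3 := CC_ge8 (S := S)
  have h4 := S.rho_nonneg o (A.z2 o n g)
  nlinarith

theorem farS_C {c : Cell T} (hc : ValC S c) (hr : ¬ IsRoot c) :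
    rC S c ≤ CC S * S.rho (A.cutC c) (A.bdSC c) := by
  match c, hc, hr with
  | .root, _, hr => exact absurd trivial hr
  | .one o y, hc, _ =>
    have hs := A.h1 hc
    change diam (S.Br o y) ≤ CC S * S.rho (A.z1 o y) o
    rw [S.rho_comm]
    have h1 := hs.far
    have h2 := CC_ge8 (S := S)
    have h3 := S.rho_nonneg o (A.z1 o y)
    nlinarith
  | .two o n g false, hc, _ =>
    change g ≤ CC S * S.rho (A.z2 o n g) o
    rw [S.rho_comm]
    exact A.far_o_le hc
  | .two o n g true, hc, _ =>
    change g ≤ CC S * S.rho (A.z2 o n g) n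
    rw [S.rho_comm]
    exact A.lam'_g_le hc

theorem farE_C {c : Cell T} (hc : ValC S c) (hr : IsTwo c) :
    rC S c ≤ CC S * S.rho (A.cutC c) (A.bdEC c) := by
  match c, hc, hr with
  | .two o n g false, hc, _ =>
    change g ≤ CC S * S.rho (A.z2 o n g) n
    rw [S.rho_comm]
    exact A.lam'_g_le hc
  | .two o n g true, hc, _ =>
    change g ≤ CC S * S.rho (A.z2 o n g) o
    rw [S.rho_comm]
    exact A.far_o_le hc

omit [CompactSpace T] in
theorem rho_on_le {o n : T} {g : ℝ} [CompactSpace T] (h : S.Val2 o n g) : S.rho o n ≤ 2 * g := by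
  refine h.hi.trans ?_
  have hθ := S.hθ
  have hg := h.g_pos
  rw [div_le_iff₀ S.θ_pos]
  nlinarith

theorem r_le_C {c : Cell T} {k : ℕ} (hc : ValC S c) (hk : A.Allowed c k) :
    rC S (A.next c k) ≤ CC S * S.θ ^ (wt k) * rC S c := by
  have hθ := S.hθ
  have hθ1 := S.hθ1
  have hC8 := CC_ge8 (S := S)
  have gen : ∀ {a r : ℝ} (j : ℕ), j ≤ 2 → 0 ≤ r → a ≤ 2 * r → a ≤ CC S * S.θ ^ j * r := by
    intro a r j hj hr ha
    have h1 : (1 / 4 : ℝ) ≤ S.θ ^ j := by
      interval_cases j
      · norm_num
      · rw [pow_one]; linarith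
      · nlinarith
    have h2 : 2 ≤ CC S * S.θ ^ j := by nlinarith
    nlinarith
  match c, hc with
  | .root, _ =>
    rcases hk with rfl | rfl
    · exact gen 1 (by norm_num) diam_nonneg (by
        have := Ctx.diam_mono' (subset_univ (S.Br A.z₀ A.x₀))
        have h2 : 0 ≤ diam (univ : Set T) := diam_nonneg
        change diam (S.Br A.z₀ A.x₀) ≤ 2 * diam (univ : Set T)
        linarith)
    · exact gen 2 (by norm_num) diam_nonneg (by
        have := Ctx.diam_mono' (subset_univ (S.Br A.z₀ A.y₀))
        have h2 : 0 ≤ diam (univ : Set T) := diam_nonneg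
        change diam (S.Br A.z₀ A.y₀) ≤ 2 * diam (univ : Set T)
        linarith)
  | .one o y, hc =>
    have hs := A.h1 hc
    have hD : 0 ≤ diam (S.Br o y) := diam_nonneg
    rcases hk with rfl | rfl
    · refine gen 1 (by norm_num) hD ?_
      change S.rho o (A.z1 o y) ≤ 2 * diam (S.Br o y)
      have h1 : A.z1 o y ∈ S.Br o y := S.arc_sub_Br (S.base_mem_Br o y) hs.y₁_mem hs.mem
      have h2 := S.rho_le_diam_Br (S.base_mem_Br o y) h1
      linarith
    · refine gen 1 (by norm_num) hD ?_
      change diam (S.Br (A.z1 o y) (A.y1 o y)) ≤ 2 * diam (S.Br o y)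
      have h1 : S.Br (A.z1 o y) (A.y1 o y) ⊆ S.Br o y := by
        rw [← A.Br_y1 hc]
        exact S.Br_sub_Br hs.mem hs.ne_o
      have h2 := Ctx.diam_mono' h1
      linarith
  | .two o n g b, hc =>
    have hs := A.h2 hc
    have hg := hc.g_pos
    have e1 : S.θ * g ≤ 2 * g := by nlinarith
    have e2 : S.rho n (A.z2 o n g) ≤ 2 * g := by
      have h1 := S.rho_mono_right hs.mem
      rw [S.rho_comm] at h1
      exact h1.trans (rho_on_le hc)
    match k, hk with
    | 0, _ =>
      cases b
      · exact gen 1 (by norm_num) hg.le e1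
      · exact gen 1 (by norm_num) hg.le e2
    | 1, _ =>
      cases b
      · exact gen 1 (by norm_num) hg.le e2
      · exact gen 1 (by norm_num) hg.le e1
    | (k + 2), hk =>
      rw [next_two_side]
      have h1 := A.rep_spec hk
      have hD : 0 < D1 S * g := mul_pos D1_pos hg
      have h2 := (A.lab_bd _ hD _ h1.1.1 (A.side_diam hc h1.1).2).2
      rw [h1.2] at h2
      change diam (S.Br (A.z2 o n g) (A.rep o n g k)) ≤ CC S * S.θ ^ (k + 1) * g
      have h3 := CC_geD (S := S)
      have hp : 0 < S.θ ^ (k + 1) * g := mul_pos (pow_pos S.θ_pos _) hg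
      calc _ ≤ 2 * (D1 S * g) * S.θ ^ (k + 1) := h2
        _ = (2 * D1 S) * (S.θ ^ (k + 1) * g) := by ring
        _ ≤ CC S * (S.θ ^ (k + 1) * g) := by gcongr
        _ = _ := by ring

theorem r_ge_C {c : Cell T} {k : ℕ} (hc : ValC S c) (hk : A.Allowed c k) :
    S.θ ^ (wt k) * rC S c ≤ CC S * rC S (A.next c k) := by
  have hθ := S.hθ
  have hθ1 := S.hθ1
  have hθ0 := S.θ_pos
  have hC8 := CC_ge8 (S := S)
  have gen : ∀ {a r : ℝ} (j : ℕ), 0 ≤ r → r ≤ CC S * a → S.θ ^ j * r ≤ CC S * a := by
    intro a r j hr ha
    have h1 : S.θ ^ j ≤ 1 := pow_le_one₀ hθ0.le hθ1.le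
    nlinarith
  have gen8 : ∀ {a r : ℝ} (j : ℕ), 0 ≤ r → r / 8 ≤ a → S.θ ^ j * r ≤ CC S * a := by
    intro a r j hr ha
    apply gen j hr
    nlinarith
  match c, hc with
  | .root, _ =>
    rcases hk with rfl | rfl
    · exact gen8 1 diam_nonneg A.r_bx
    · exact gen8 2 diam_nonneg A.r_by
  | .one o y, hc =>
    have hs := A.h1 hc
    have hD : 0 ≤ diam (S.Br o y) := diam_nonneg
    rcases hk with rfl | rfl
    · exact gen8 1 hD hs.far
    · exact gen8 1 hD hs.big
  | .two o n g b, hc =>
    have hs := A.h2 hc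
    have hg := hc.g_pos
    have e1 : g ≤ CC S * (S.θ * g) := by
      have : 1 ≤ CC S * S.θ := by nlinarith
      nlinarith
    have e2 : g ≤ CC S * S.rho n (A.z2 o n g) := A.lam'_g_le hc
    match k, hk with
    | 0, _ =>
      cases b
      · exact gen 1 hg.le e1
      · exact gen 1 hg.le e2
    | 1, _ =>
      cases b
      · exact gen 1 hg.le e2
      · exact gen 1 hg.le e1
    | (k + 2), hk =>
      rw [next_two_side]
      have h1 := A.rep_spec hk
      have hD : 0 < D1 S * g := mul_pos D1_pos hg
      have h2 := (A.lab_bd _ hD _ h1.1.1 (A.side_diam hc h1.1).2).1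
      rw [h1.2] at h2
      change S.θ ^ (k + 1) * g ≤ CC S * diam (S.Br (A.z2 o n g) (A.rep o n g k))
      have h3 := D1_ge4 (S := S)
      have hp : 0 < S.θ ^ (k + 1) * g := mul_pos (pow_pos S.θ_pos _) hg
      have h4 : 4 * (S.θ ^ (k + 1) * g) ≤ D1 S * g * S.θ ^ (k + 1) := by
        calc 4 * (S.θ ^ (k + 1) * g) ≤ D1 S * (S.θ ^ (k + 1) * g) := by gcongr
          _ = _ := by ring
      have h5 : 0 ≤ diam (S.Br (A.z2 o n g) (A.rep o n g k)) := diam_nonneg
      nlinarith

/-- The cell of a word. -/
noncomputable def cellAt : List ℕ → Cell T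
  | [] => .root
  | k :: w => A.next (cellAt w) k

/-- Words that are used. -/
def Good : List ℕ → Prop
  | [] => True
  | k :: w => Good w ∧ A.Allowed (A.cellAt w) k

theorem valid {w : List ℕ} (h : A.Good w) : ValC S (A.cellAt w) := by
  induction w with
  | nil => exact trivial
  | cons k w ih => exact A.valid_next (ih h.1) h.2

theorem not_root {w : List ℕ} (h : A.Good w) (hw : w ≠ []) : ¬ IsRoot (A.cellAt w) := by
  match w, h with
  | [], _ => exact absurd rfl hw
  | k :: w, h => exact A.not_root_next h.2

theorem letter_memS {c : Cell T} (hr : ¬ IsRoot c) :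
    A.bdSC c ∈ XC S c ∧ A.letterC c (A.bdSC c) = 0 := by
  classical
  match c, hr with
  | .root, hr => exact absurd trivial hr
  | .one o y, _ =>
    refine ⟨S.base_mem_Br o y, ?_⟩
    have h : o ∈ S.X2 o (A.z1 o y) := S.left_mem_X2 _ _
    simp [letterC, bdSC, h]
  | .two o n g false, _ =>
    refine ⟨S.left_mem_X2 _ _, ?_⟩
    have h : o ∈ XC S (A.next (.two o n g false) 0) := S.left_mem_X2 _ _
    simp [letterC, bdSC, h]
  | .two o n g true, _ =>
    refine ⟨S.right_mem_X2 _ _, ?_⟩
    have h : n ∈ XC S (A.next (.two o n g true) 0) := S.left_mem_X2 _ _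
    simp [letterC, bdSC, h]

theorem letter_memE {c : Cell T} (hc : ValC S c) (hr : IsTwo c) :
    A.bdEC c ∈ XC S c ∧ A.letterC c (A.bdEC c) = 1 := by
  classical
  match c, hc, hr with
  | .two o n g false, hc, _ =>
    have hs := A.h2 hc
    refine ⟨S.right_mem_X2 _ _, ?_⟩
    have h1 : n ∈ XC S (A.next (.two o n g false) 1) := S.left_mem_X2 _ _
    have h0 : n ∉ XC S (A.next (.two o n g false) 0) := by
      rintro (h | h | ⟨_, h⟩)
      · exact hc.ne h.symm
      · exact hs.ne_n h.symm
      · exact h (S.swap hs.mem)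
    simp [letterC, bdEC, h1, h0]
  | .two o n g true, hc, _ =>
    have hs := A.h2 hc
    refine ⟨S.left_mem_X2 _ _, ?_⟩
    have h1 : o ∈ XC S (A.next (.two o n g true) 1) := S.left_mem_X2 _ _
    have h0 : o ∉ XC S (A.next (.two o n g true) 0) := by
      rintro (h | h | ⟨_, h⟩)
      · exact hc.ne h
      · exact hs.ne_o h.symm
      · exact h hs.mem
    simp [letterC, bdEC, h1, h0]

/-- The cell system. -/
noncomputable def toCellSys : CellSys S.toArcSys where
  θ := S.θ
  C := CC S
  hθ0 := S.θ_pos
  hθ1 := S.hθ1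
  hC := by linarith [CC_ge8 (S := S)]
  Good := A.Good
  X := fun w => XC S (A.cellAt w)
  cut := fun w => A.cutC (A.cellAt w)
  r := fun w => rC S (A.cellAt w)
  letter := fun w x => A.letterC (A.cellAt w) x
  bdS := fun w => A.bdSC (A.cellAt w)
  bdE := fun w => A.bdEC (A.cellAt w)
  HasE := fun w => IsTwo (A.cellAt w)
  good_nil := trivial
  good_tail := fun h => h.1
  X_nil := fun _ => trivial
  r_pos := by
    intro w hw
    have hv := A.valid hw
    revert hv
    cases A.cellAt w with
    | root => exact fun _ => A.rho_univ_pos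
    | one o y => exact fun hv => S.diam_Br_pos hv.ne
    | two o n g b => exact fun hv => hv.g_pos
  cut_mem := by
    intro w hw
    have hv := A.valid hw
    revert hv
    cases A.cellAt w with
    | root => exact fun _ => trivial
    | one o y =>
      intro hv
      have hs := A.h1 hv
      exact S.arc_sub_Br (S.base_mem_Br o y) hs.y₁_mem hs.mem
    | two o n g b =>
      intro hv
      exact S.arc_sub_X2 (A.h2 hv).mem
  step := by
    intro w x hw hx
    have := A.step_letter (A.valid hw) hx
    exact ⟨⟨hw, this.1⟩, this.2⟩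
  sub := fun h => A.sub_next (A.valid h.1) h.2
  pairsep := fun hk hl hkl hx hy => A.pairsep (A.valid hk.1) hk.2 hl.2 hkl hx hy
  rho_le := by
    intro w x y hw
    have hv := A.valid hw
    have hC := CC_ge8 (S := S)
    revert hv
    cases A.cellAt w with
    | root =>
      intro _ _ _
      have h1 := S.rho_le_diam_univ x y
      have h2 := A.rho_univ_pos
      change S.rho x y ≤ CC S * diam (univ : Set T)
      nlinarith
    | one o y' =>
      intro hv hx hy
      have h1 := S.rho_le_diam_Br hx hy
      have h2 := S.diam_Br_pos hv.ne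
      change S.rho x y ≤ CC S * diam (S.Br o y')
      nlinarith
    | two o n g b =>
      intro hv hx hy
      have h1 := rho_le_D1 hv hx
      have h2 := rho_le_D1 hv hy
      have h3 := S.rho_triangle x o y
      rw [S.rho_comm x o] at h3
      have h4 := CC_geD (S := S)
      have h5 := hv.g_pos
      have h6 := D1_pos (S := S)
      change S.rho x y ≤ CC S * g
      nlinarith
  bd0 := by
    intro w hw
    have hv := A.valid hw.1
    have ha := hw.2
    change IsTwo (A.next (A.cellAt w) 0) ∧ A.bdEC (A.next (A.cellAt w) 0) = A.cutC (A.cellAt w)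
    revert ha
    cases A.cellAt w with
    | root => intro ha; rcases ha with h | h <;> simp at h
    | one o y => exact fun _ => ⟨trivial, rfl⟩
    | two o n g b => cases b <;> exact fun _ => ⟨trivial, rfl⟩
  bd1 := by
    intro w hw
    have ha := hw.2
    change A.bdSC (A.next (A.cellAt w) 1) = A.cutC (A.cellAt w)
    revert ha
    cases A.cellAt w with
    | root => intro ha; rcases ha with h | h <;> simp at h
    | one o y => exact fun _ => rfl
    | two o n g b => cases b <;> exact fun _ => rfl
  bdk := by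
    intro k w hw
    have ha := hw.2
    change A.bdSC (A.next (A.cellAt w) (k + 2)) = A.cutC (A.cellAt w)
    revert ha
    cases A.cellAt w with
    | root =>
      intro ha
      rcases ha with h | h
      · obtain rfl : k = 0 := by omega
        rfl
      · obtain rfl : k = 1 := by omega
        rfl
    | one o y => intro ha; rcases ha with h | h <;> simp at h
    | two o n g b => cases b <;> exact fun _ => rfl
  inhS := by
    intro w hw
    have ha := hw.2
    change A.bdSC (A.next (A.cellAt w) 0) = A.bdSC (A.cellAt w)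
    revert ha
    cases A.cellAt w with
    | root => intro ha; rcases ha with h | h <;> simp at h
    | one o y => exact fun _ => rfl
    | two o n g b => cases b <;> exact fun _ => rfl
  inhE := by
    intro w _ hE
    change IsTwo (A.next (A.cellAt w) 1) ∧ A.bdEC (A.next (A.cellAt w) 1) = A.bdEC (A.cellAt w)
    revert hE
    cases A.cellAt w with
    | root => exact fun h => h.elim
    | one o y => exact fun h => h.elim
    | two o n g b => cases b <;> exact fun _ => ⟨trivial, rfl⟩
  memS := fun hw hne => A.letter_memS (A.not_root hw hne)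
  memE := fun hw hE => A.letter_memE (A.valid hw) hE
  farS := fun hw hne => A.farS_C (A.valid hw) (A.not_root hw hne)
  farE := fun hw hE => A.farE_C (A.valid hw) hE
  outside := by
    intro w x y hw hx hy
    have hne : w ≠ [] := by
      rintro rfl
      exact hx trivial
    revert hx hy
    cases h : A.cellAt w with
    | root => intro hx _; exact absurd (mem_univ x) hx
    | one o y' =>
      intro hx hy
      exact Or.inl ⟨hne, S.outside_Br hx hy⟩
    | two o n g b =>
      intro hx hy
      rcases S.outside_X2 hx hy with h1 | h1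
      · cases b
        · exact Or.inl ⟨hne, h1⟩
        · exact Or.inr ⟨trivial, h1⟩
      · cases b
        · exact Or.inr ⟨trivial, h1⟩
        · exact Or.inl ⟨hne, h1⟩
  r_le := fun h => A.r_le_C (A.valid h.1) h.2
  r_ge := fun h => A.r_ge_C (A.valid h.1) h.2
  exactS := by
    intro w hw
    have ha := hw.1.2
    change rC S (A.next (A.next (A.cellAt w) 0) 0) = S.θ * rC S (A.next (A.cellAt w) 0)
    revert ha
    cases A.cellAt w with
    | root => intro ha; rcases ha with h | h <;> simp at h
    | one o y => exact fun _ => rfl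
    | two o n g b => cases b <;> exact fun _ => rfl
  exactE := by
    intro w _ hE
    change rC S (A.next (A.next (A.cellAt w) 1) 1) = S.θ * rC S (A.next (A.cellAt w) 1)
    revert hE
    cases A.cellAt w with
    | root => exact fun h => h.elim
    | one o y => exact fun h => h.elim
    | two o n g b => cases b <;> exact fun _ => rfl
  spread := by
    intro w hw
    have hv := A.valid hw
    have hC := CC_ge8 (S := S)
    revert hv
    cases A.cellAt w with
    | root =>
      intro _
      refine ⟨A.x₀, trivial, A.y₀, trivial, ?_⟩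
      have h1 := A.r_far
      have h2 := A.rho_univ_pos
      have h3 := S.rho_nonneg A.x₀ A.y₀
      change diam (univ : Set T) ≤ CC S * S.rho A.x₀ A.y₀
      nlinarith
    | one o y =>
      intro hv
      have hs := A.h1 hv
      refine ⟨o, S.base_mem_Br o y, A.y1 o y, hs.y₁_mem, ?_⟩
      have h1 := hs.y₁_far
      have h3 := S.rho_nonneg o (A.y1 o y)
      change diam (S.Br o y) ≤ CC S * S.rho o (A.y1 o y)
      nlinarith
    | two o n g b =>
      intro hv
      refine ⟨o, S.left_mem_X2 _ _, n, S.right_mem_X2 _ _, ?_⟩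
      have h1 := hv.lo
      have h2 := S.hθ
      have h3 := hv.g_pos
      have h4 := S.rho_nonneg o n
      change g ≤ CC S * S.rho o n
      nlinarith

end Choices

end Pool.Agent.QT
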