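import Pool.Agent.Helper11.QT.Label
import Pool.Agent.Helper11.QT.TInf

/-!
# The recursive cell decomposition
-/

set_option autoImplicit false

open Set Metric Filter Topology

namespace Pool.Agent.QT

/-- Cells: the whole tree, a branch, or the part between two points. -/
inductive Cell (T : Type*) where
  | root : Cell T
  | one (o y : T) : Cell T
  | two (o n : T) (g : ℝ) (b : Bool) : Cell T

/-- Specification of the two-sided step. -/
structure Spec2 {T : Type*} [MetricSpace T] [CompactSpace T] (S : Ctx T) (o n : T) (g : ℝ)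
    (z : T) : Prop where
  mem : z ∈ S.arc o n
  ne_o : z ≠ o
  ne_n : z ≠ n
  far_o : S.θ ^ 2 * g ≤ S.rho o z
  far_n : S.lam' * g ≤ S.rho n z
  val_o : S.Val2 o z (S.θ * g)
  val_n : S.Val2 n z (S.rho n z)
  val_side : ∀ x, x ≠ z → z ∈ S.arc x o → z ∈ S.arc x n → S.Val1 z x

/-- Specification of the one-sided step. -/
structure Spec1 {T : Type*} [MetricSpace T] [CompactSpace T] (S : Ctx T) (o y y₁ z : T) : Prop where
  y₁_mem : y₁ ∈ S.Br o y
  y₁_far : diam (S.Br o y) / 3 < S.rho o y₁
  mem : z ∈ S.arc o y₁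
  ne_o : z ≠ o
  ne_y : z ≠ y₁
  nb : ¬ IsBranchPoint z
  far : diam (S.Br o y) / 8 ≤ S.rho o z
  big : diam (S.Br o y) / 8 ≤ diam (S.Br z y₁)
  val2 : S.Val2 o z (S.rho o z)
  val1 : S.Val1 z y₁

/-- All choices of the construction. -/
structure Choices {T : Type*} [MetricSpace T] [CompactSpace T] (S : Ctx T) where
  z2 : T → T → ℝ → T
  h2 : ∀ {o n g}, S.Val2 o n g → Spec2 S o n g (z2 o n g)
  y1 : T → T → T
  z1 : T → T → T
  h1 : ∀ {o y}, S.Val1 o y → Spec1 S o y (y1 o y) (z1 o y)
  x₀ : T
  y₀ : T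
  z₀ : T
  r_mem : z₀ ∈ S.arc x₀ y₀
  r_nx : z₀ ≠ x₀
  r_ny : z₀ ≠ y₀
  r_nb : ¬ IsBranchPoint z₀
  r_far : diam (univ : Set T) / 3 < S.rho x₀ y₀
  r_bx : diam (univ : Set T) / 8 ≤ diam (S.Br z₀ x₀)
  r_by : diam (univ : Set T) / 8 ≤ diam (S.Br z₀ y₀)
  r_vx : S.Val1 z₀ x₀
  r_vy : S.Val1 z₀ y₀
  lab : T → ℝ → Set T → ℕ
  lab_inj : ∀ (z : T) {D : ℝ}, 0 < D → ∀ x x', x ≠ z → x' ≠ z → diam (S.Br z x) ≤ D →
    diam (S.Br z x') ≤ D → lab z D (S.Br z x) = lab z D (S.Br z x') → S.Br z x = S.Br z x'
  lab_bd : ∀ (z : T) {D : ℝ}, 0 < D → ∀ x, x ≠ z → diam (S.Br z x) ≤ D →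
    D * S.θ ^ (lab z D (S.Br z x) + 1) ≤ 2 * diam (S.Br z x) ∧
    diam (S.Br z x) ≤ 2 * D * S.θ ^ (lab z D (S.Br z x) + 1)

namespace Choices

variable {T : Type*} [MetricSpace T] [CompactSpace T] {S : Ctx T} (A : Choices S)

/-- Bound for the diameter of a two-sided cell of scale `1`. -/
noncomputable def D1 (S : Ctx T) : ℝ := 4 * (1 + 8 / S.lam)

omit [CompactSpace T] in
theorem D1_pos : 0 < D1 S := by
  have := S.lam_pos; unfold D1; positivity

theorem rho_le_D1 {o n x : T} {g : ℝ} (h : S.Val2 o n g) (hx : x ∈ S.X2 o n) :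
    S.rho o x ≤ D1 S / 2 * g := by
  have hl := S.lam_pos
  have hθ0 := S.θ_pos
  have hθ := S.hθ
  have h1 := S.rho_le_of_X2 (c₂ := 1 / 8) (D := diam (S.X2 o n)) (by norm_num) (by norm_num) hl
    h.outo h.outn le_rfl h.old hx
  have h2 : S.rho o n ≤ 2 * g := by
    refine h.hi.trans ?_
    rw [div_le_iff₀ hθ0]
    have := h.g_pos
    nlinarith
  have h3 : 1 / (S.lam * (1 / 8)) = 8 / S.lam := by field_simp
  rw [h3] at h1
  have h4 : 0 < 1 + 8 / S.lam := by positivity
  unfold D1
  nlinarith

theorem diam_X2_le {o n : T} {g : ℝ} (h : S.Val2 o n g) : diam (S.X2 o n) ≤ D1 S * g := by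
  have hg := h.g_pos
  have hD := D1_pos (S := S)
  refine diam_le_of_forall_dist_le (by positivity) fun x hx y hy => ?_
  have h1 := rho_le_D1 h hx
  have h2 := rho_le_D1 h hy
  have h3 := S.rho_triangle x o y
  have h4 := S.dist_le_rho x y
  rw [S.rho_comm x o] at h3
  linarith

/-- `x` is a side point at the cut point of the cell `(o, n, g)`. -/
def Side (o n : T) (g : ℝ) (x : T) : Prop :=
  x ≠ A.z2 o n g ∧ A.z2 o n g ∈ S.arc x o ∧ A.z2 o n g ∈ S.arc x n

/-- Representative of the side branch with label `k`. -/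
noncomputable def rep (o n : T) (g : ℝ) (k : ℕ) : T :=
  open Classical in
  if h : ∃ x, A.Side o n g x ∧ A.lab (A.z2 o n g) (D1 S * g) (S.Br (A.z2 o n g) x) = k then
    Classical.choose h else A.z2 o n g

theorem rep_spec {o n : T} {g : ℝ} {k : ℕ}
    (h : ∃ x, A.Side o n g x ∧ A.lab (A.z2 o n g) (D1 S * g) (S.Br (A.z2 o n g) x) = k) :
    A.Side o n g (A.rep o n g k) ∧
      A.lab (A.z2 o n g) (D1 S * g) (S.Br (A.z2 o n g) (A.rep o n g k)) = k := by
  rw [rep, dif_pos h]
  exact Classical.choose_spec h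

/-- The cut point of a cell. -/
def cutC : Cell T → T
  | .root => A.z₀
  | .one o y => A.z1 o y
  | .two o n g _ => A.z2 o n g

/-- The child cells. -/
noncomputable def next : Cell T → ℕ → Cell T
  | .root, 2 => .one A.z₀ A.x₀
  | .root, 3 => .one A.z₀ A.y₀
  | .root, _ => .root
  | .one o y, 0 => .two o (A.z1 o y) (S.rho o (A.z1 o y)) false
  | .one o y, 1 => .one (A.z1 o y) (A.y1 o y)
  | .one _ _, _ => .root
  | .two o n g false, 0 => .two o (A.z2 o n g) (S.θ * g) false
  | .two o n g true, 0 => .two n (A.z2 o n g) (S.rho n (A.z2 o n g)) false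
  | .two o n g false, 1 => .two n (A.z2 o n g) (S.rho n (A.z2 o n g)) true
  | .two o n g true, 1 => .two o (A.z2 o n g) (S.θ * g) true
  | .two o n g _, (k + 2) => .one (A.z2 o n g) (A.rep o n g k)

/-- The point set of a cell. -/
def XC (S : Ctx T) : Cell T → Set T
  | .root => univ
  | .one o y => S.Br o y
  | .two o n _ _ => S.X2 o n

/-- The radius of a cell. -/
noncomputable def rC (S : Ctx T) : Cell T → ℝ
  | .root => diam (univ : Set T)
  | .one o y => diam (S.Br o y)
  | .two _ _ g _ => g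

/-- Validity of a cell. -/
def ValC (S : Ctx T) : Cell T → Prop
  | .root => True
  | .one o y => S.Val1 o y
  | .two o n g _ => S.Val2 o n g

/-- Which letters are used. -/
def Allowed : Cell T → ℕ → Prop
  | .root, k => k = 2 ∨ k = 3
  | .one _ _, k => k = 0 ∨ k = 1
  | .two _ _ _ _, 0 => True
  | .two _ _ _ _, 1 => True
  | .two o n g _, (k + 2) => ∃ x, A.Side o n g x ∧
      A.lab (A.z2 o n g) (D1 S * g) (S.Br (A.z2 o n g) x) = k

/-- Start boundary point. -/
def bdSC : Cell T → T
  | .root => A.z₀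
  | .one o _ => o
  | .two o n _ b => if b then n else o

/-- End boundary point. -/
def bdEC : Cell T → T
  | .root => A.z₀
  | .one o _ => o
  | .two o n _ b => if b then o else n

/-- Two-sided cells. -/
def IsTwo : Cell T → Prop
  | .two _ _ _ _ => True
  | _ => False

/-- Root cell. -/
def IsRoot : Cell T → Prop
  | .root => True
  | _ => False

open Classical in
/-- The letter of the child containing a point. -/
noncomputable def letterC (c : Cell T) (x : T) : ℕ :=
  match c with
  | .root => if x ∈ S.Br A.z₀ A.x₀ then 2 else 3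
  | .one o y => if x ∈ S.X2 o (A.z1 o y) then 0 else 1
  | .two o n g b =>
    if x ∈ XC S (A.next (.two o n g b) 0) then 0
    else if x ∈ XC S (A.next (.two o n g b) 1) then 1
    else A.lab (A.z2 o n g) (D1 S * g) (S.Br (A.z2 o n g) x) + 2

/-! ### Properties -/

theorem side_diam {o n : T} {g : ℝ} (h : S.Val2 o n g) {x : T} (hx : A.Side o n g x) :
    S.Br (A.z2 o n g) x ⊆ S.X2 o n ∧ diam (S.Br (A.z2 o n g) x) ≤ D1 S * g := by
  have hs := A.h2 h
  have h1 := S.side_sub hs.mem hs.ne_o hs.ne_n hx.2.1 hx.2.2 hx.1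
  exact ⟨h1, (Ctx.diam_mono' h1).trans (diam_X2_le h)⟩

include A in
theorem rho_univ_pos : 0 < diam (univ : Set T) := by
  have h1 := S.rho_le_diam_univ A.x₀ A.y₀
  have h2 := A.r_far
  have h3 : 0 ≤ diam (univ : Set T) := diam_nonneg
  rcases h3.eq_or_lt with h | h
  · rw [← h] at h1 h2
    linarith
  · exact h

theorem valid_next {c : Cell T} {k : ℕ} (hc : ValC S c) (hk : A.Allowed c k) :
    ValC S (A.next c k) := by
  match c, hc with
  | .root, _ =>
    rcases hk with rfl | rfl
    · exact A.r_vx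
    · exact A.r_vy
  | .one o y, hc =>
    have hs := A.h1 hc
    rcases hk with rfl | rfl
    · exact hs.val2
    · exact hs.val1
  | .two o n g b, hc =>
    have hs := A.h2 hc
    match k, hk with
    | 0, _ => cases b <;> first | exact hs.val_o | exact hs.val_n
    | 1, _ => cases b <;> first | exact hs.val_n | exact hs.val_o
    | (k + 2), hk =>
      have h1 := (A.rep_spec hk).1
      cases b <;> exact hs.val_side _ h1.1 h1.2.1 h1.2.2

theorem step_letter {c : Cell T} {x : T} (hc : ValC S c) (hx : x ∈ XC S c) :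
    A.Allowed c (A.letterC c x) ∧ x ∈ XC S (A.next c (A.letterC c x)) := by
  classical
  match c, hc with
  | .root, _ =>
    by_cases h : x ∈ S.Br A.z₀ A.x₀
    · have e : A.letterC .root x = 2 := by simp [letterC, h]
      rw [e]
      exact ⟨Or.inl rfl, h⟩
    · have e : A.letterC .root x = 3 := by simp [letterC, h]
      rw [e]
      refine ⟨Or.inr rfl, ?_⟩
      change x ∈ S.Br A.z₀ A.y₀
      have hxz : x ≠ A.z₀ := fun e => h (e ▸ S.base_mem_Br _ _)
      have h1 : A.z₀ ∈ S.arc A.x₀ x := by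
        by_contra h2; exact h (Or.inr h2)
      right
      intro h2
      exact A.r_nb (S.branchPoint_of (fun e => A.r_nx e.symm) (fun e => A.r_ny e.symm) hxz
        A.r_mem h1 h2)
  | .one o y, hc =>
    have hs := A.h1 hc
    by_cases h : x ∈ S.X2 o (A.z1 o y)
    · have e : A.letterC (.one o y) x = 0 := by simp [letterC, h]
      rw [e]
      exact ⟨Or.inl rfl, h⟩
    · have e : A.letterC (.one o y) x = 1 := by simp [letterC, h]
      rw [e]
      refine ⟨Or.inr rfl, ?_⟩
      change x ∈ S.Br (A.z1 o y) (A.y1 o y)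
      have hy₁ : A.y1 o y ≠ o := by
        intro e
        have := hs.y₁_far
        rw [e, S.rho_self] at this
        have : 0 ≤ diam (S.Br o y) := diam_nonneg
        linarith
      have hxBr : x ∈ S.Br o (A.y1 o y) := by
        rw [S.Br_eq hs.y₁_mem hc.ne hy₁]; exact hx
      have h1 : A.z1 o y ∈ S.arc x o := by
        by_contra h2
        exact h (S.mem_X2_of_Br hs.mem hs.ne_o hxBr h2)
      have hxz : x ≠ A.z1 o y := fun e => h (e ▸ S.right_mem_X2 _ _)
      right
      intro h2
      exact hs.nb (S.branchPoint_of (fun e => hs.ne_o e.symm) (fun e => hs.ne_y e.symm) hxz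
        hs.mem (S.swap h1) h2)
  | .two o n g b, hc =>
    have hs := A.h2 hc
    by_cases h0 : x ∈ XC S (A.next (.two o n g b) 0)
    · have e : A.letterC (.two o n g b) x = 0 := by simp [letterC, h0]
      rw [e]
      exact ⟨trivial, h0⟩
    by_cases h1 : x ∈ XC S (A.next (.two o n g b) 1)
    · have e : A.letterC (.two o n g b) x = 1 := by simp [letterC, h0, h1]
      rw [e]
      exact ⟨trivial, h1⟩
    have e : A.letterC (.two o n g b) x =
        A.lab (A.z2 o n g) (D1 S * g) (S.Br (A.z2 o n g) x) + 2 := by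
      simp [letterC, h0, h1]
    rw [e]
    have hno : x ∉ S.X2 o (A.z2 o n g) := by
      cases b
      · exact h0
      · exact h1
    have hnn : x ∉ S.X2 n (A.z2 o n g) := by
      cases b
      · exact h1
      · exact h0
    have hxz : x ≠ A.z2 o n g := fun e => hno (e ▸ S.right_mem_X2 _ _)
    have hside : A.Side o n g x := by
      refine ⟨hxz, ?_, ?_⟩
      · by_contra h2
        exact hno (S.mem_X2_left hs.mem hs.ne_o hx h2)
      · by_contra h2
        apply hnn
        rw [S.X2_comm]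
        exact S.mem_X2_right hs.mem hs.ne_n hx h2
    have hex : ∃ x', A.Side o n g x' ∧ A.lab (A.z2 o n g) (D1 S * g) (S.Br (A.z2 o n g) x') =
        A.lab (A.z2 o n g) (D1 S * g) (S.Br (A.z2 o n g) x) := ⟨x, hside, rfl⟩
    refine ⟨hex, ?_⟩
    have h2 := A.rep_spec hex
    have hD : 0 < D1 S * g := mul_pos D1_pos hc.g_pos
    have h3 := A.lab_inj _ hD _ _ h2.1.1 hxz (A.side_diam hc h2.1).2 (A.side_diam hc hside).2 h2.2
    have h4 : XC S (A.next (.two o n g b)
        (A.lab (A.z2 o n g) (D1 S * g) (S.Br (A.z2 o n g) x) + 2)) =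
        S.Br (A.z2 o n g) (A.rep o n g
          (A.lab (A.z2 o n g) (D1 S * g) (S.Br (A.z2 o n g) x))) := by
      cases b <;> rfl
    rw [h4, h3]
    exact S.mem_Br_self hxz

theorem next_two_side (o n : T) (g : ℝ) (b : Bool) (k : ℕ) :
    A.next (.two o n g b) (k + 2) = .one (A.z2 o n g) (A.rep o n g k) := by
  cases b <;> rfl

theorem y1_ne {o y : T} (h : S.Val1 o y) : A.y1 o y ≠ o := by
  intro e
  have := (A.h1 h).y₁_far
  rw [e, S.rho_self] at this
  have : 0 ≤ diam (S.Br o y) := diam_nonneg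
  linarith

theorem Br_y1 {o y : T} (h : S.Val1 o y) : S.Br o (A.y1 o y) = S.Br o y :=
  S.Br_eq (A.h1 h).y₁_mem h.ne (A.y1_ne h)

theorem sub_next {c : Cell T} {k : ℕ} (hc : ValC S c) (hk : A.Allowed c k) :
    XC S (A.next c k) ⊆ XC S c := by
  match c, hc with
  | .root, _ => exact subset_univ _
  | .one o y, hc =>
    have hs := A.h1 hc
    have e := A.Br_y1 hc
    rcases hk with rfl | rfl
    · change S.X2 o (A.z1 o y) ⊆ S.Br o y
      rw [← e]
      exact S.X2_sub_Br hs.mem hs.ne_o
    · change S.Br (A.z1 o y) (A.y1 o y) ⊆ S.Br o y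
      rw [← e]
      exact S.Br_sub_Br hs.mem hs.ne_o
  | .two o n g b, hc =>
    have hs := A.h2 hc
    have h1 : S.X2 o (A.z2 o n g) ⊆ S.X2 o n := S.X2_sub_left hs.mem hs.ne_o
    have h2 : S.X2 n (A.z2 o n g) ⊆ S.X2 o n := by
      rw [S.X2_comm n]
      exact S.X2_sub_right hs.mem hs.ne_n
    match k, hk with
    | 0, _ => cases b <;> first | exact h1 | exact h2
    | 1, _ => cases b <;> first | exact h2 | exact h1
    | (k + 2), hk =>
      rw [next_two_side]
      exact (A.side_diam hc (A.rep_spec hk).1).1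

theorem pairsep {c : Cell T} {k l : ℕ} (hc : ValC S c) (hk : A.Allowed c k) (hl : A.Allowed c l)
    (hkl : k ≠ l) {x y : T} (hx : x ∈ XC S (A.next c k)) (hy : y ∈ XC S (A.next c l)) :
    A.cutC c ∈ S.arc x y := by
  match c, hc with
  | .root, _ =>
    have key : ∀ {x y : T}, x ∈ S.Br A.z₀ A.x₀ → y ∈ S.Br A.z₀ A.y₀ → A.z₀ ∈ S.arc x y := by
      intro x y hx hy
      rcases hx with rfl | hx
      · exact S.left _ _
      rcases hy with rfl | hy
      · exact S.right _ _
      rcases S.tri' x A.r_mem with h | h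
      · exact absurd h hx
      · rcases S.tri' y h with h | h
        · exact h
        · exact absurd (S.swap h) hy
    rcases hk with rfl | rfl <;> rcases hl with rfl | rfl
    · exact absurd rfl hkl
    · exact key hx hy
    · exact S.swap (key hy hx)
    · exact absurd rfl hkl
  | .one o y', hc =>
    have hs := A.h1 hc
    rcases hk with rfl | rfl <;> rcases hl with rfl | rfl
    · exact absurd rfl hkl
    · exact S.sep_X2_Br hs.mem hs.ne_o hx hy
    · exact S.swap (S.sep_X2_Br hs.mem hs.ne_o hy hx)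
    · exact absurd rfl hkl
  | .two o n g b, hc =>
    have hs := A.h2 hc
    have key01 : ∀ {x y : T}, x ∈ S.X2 o (A.z2 o n g) → y ∈ S.X2 n (A.z2 o n g) →
        A.z2 o n g ∈ S.arc x y := by
      intro x y hx hy
      rw [S.X2_comm n] at hy
      exact S.sep_left_right hs.mem hs.ne_o hs.ne_n hx hy
    have hsideo : ∀ {k : ℕ} {y : T}, A.Allowed (.two o n g b) (k + 2) →
        y ∈ S.Br (A.z2 o n g) (A.rep o n g k) → A.z2 o n g ∈ S.arc y o := by
      intro k y hk hy
      have h1 := (A.rep_spec hk).1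
      rcases hy with rfl | hy
      · exact S.left _ _
      · rcases S.tri' y h1.2.1 with h | h
        · exact absurd h hy
        · exact h
    have hsiden : ∀ {k : ℕ} {y : T}, A.Allowed (.two o n g b) (k + 2) →
        y ∈ S.Br (A.z2 o n g) (A.rep o n g k) → A.z2 o n g ∈ S.arc y n := by
      intro k y hk hy
      have h1 := (A.rep_spec hk).1
      rcases hy with rfl | hy
      · exact S.left _ _
      · rcases S.tri' y h1.2.2 with h | h
        · exact absurd h hy
        · exact h
    have keyo : ∀ {k : ℕ} {x y : T}, x ∈ S.X2 o (A.z2 o n g) → A.Allowed (.two o n g b) (k + 2) →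
        y ∈ S.Br (A.z2 o n g) (A.rep o n g k) → A.z2 o n g ∈ S.arc x y := by
      intro k x y hx hk hy
      exact S.sep_left_side hs.ne_o hx (hsideo hk hy)
    have keyn : ∀ {k : ℕ} {x y : T}, x ∈ S.X2 n (A.z2 o n g) → A.Allowed (.two o n g b) (k + 2) →
        y ∈ S.Br (A.z2 o n g) (A.rep o n g k) → A.z2 o n g ∈ S.arc x y := by
      intro k x y hx hk hy
      exact S.sep_left_side hs.ne_n hx (hsiden hk hy)
    change A.z2 o n g ∈ S.arc x y
    match k, l with
    | 0, 0 => exact absurd rfl hkl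
    | 1, 1 => exact absurd rfl hkl
    | 0, 1 =>
      cases b
      · exact key01 hx hy
      · exact S.swap (key01 hy hx)
    | 1, 0 =>
      cases b
      · exact S.swap (key01 hy hx)
      · exact key01 hx hy
    | 0, (l + 2) =>
      rw [next_two_side] at hy
      cases b
      · exact keyo hx hl hy
      · exact keyn hx hl hy
    | 1, (l + 2) =>
      rw [next_two_side] at hy
      cases b
      · exact keyn hx hl hy
      · exact keyo hx hl hy
    | (k + 2), 0 =>
      rw [next_two_side] at hx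
      cases b
      · exact S.swap (keyo hy hk hx)
      · exact S.swap (keyn hy hk hx)
    | (k + 2), 1 =>
      rw [next_two_side] at hx
      cases b
      · exact S.swap (keyn hy hk hx)
      · exact S.swap (keyo hy hk hx)
    | (k + 2), (l + 2) =>
      rw [next_two_side] at hx hy
      have h1 := A.rep_spec hk
      have h2 := A.rep_spec hl
      by_cases hxz : x = A.z2 o n g
      · rw [hxz]; exact S.left _ _
      by_cases hyz : y = A.z2 o n g
      · rw [hyz]; exact S.right _ _
      apply S.mem_arc_of_Br_ne _ hxz hyz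
      rw [S.Br_eq hx h1.1.1 hxz, S.Br_eq hy h2.1.1 hyz]
      intro he
      apply hkl
      have h3 := h1.2
      rw [he, h2.2] at h3
      rw [h3]

end Choices

end Pool.Agent.QT
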