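import Mathlib

/-!
# Definitions for MP_f742c4_gt

Quasiconformal trees, branch points and their heights, uniformly relatively separated branch
points, quasisymmetric embeddings, and the tree `T_∞` (as a subset of `ℓ¹`).
-/

set_option autoImplicit false

open Set Metric
open scoped NNReal unitInterval ENNReal

namespace Pool.Agent.QT

/-- `A` is an arc with endpoints `x` and `y` (degenerate if `x = y`). -/
def IsArc {T : Type*} [TopologicalSpace T] (x y : T) (A : Set T) : Prop :=
  (x = y ∧ A = {x}) ∨
    ∃ γ : C(I, T), Function.Injective γ ∧ γ 0 = x ∧ γ 1 = y ∧ Set.range γ = A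

/-- A metric tree: a compact, connected, locally connected metric space with at least two points
in which any two points are joined by a unique (possibly degenerate) arc. -/
structure IsMetricTree (T : Type*) [MetricSpace T] : Prop where
  compact : CompactSpace T
  connected : ConnectedSpace T
  locallyConnected : LocallyConnectedSpace T
  nontrivial : Nontrivial T
  arcs : ∀ x y : T, ∃! A : Set T, IsArc x y A

/-- `B` is a branch of `p`: the closure of a connected component of `T \ {p}`. -/
def IsBranch {T : Type*} [TopologicalSpace T] (p : T) (B : Set T) : Prop :=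
  ∃ x : T, x ≠ p ∧ B = closure (connectedComponentIn {p}ᶜ x)

/-- `p` is a branch point: it has at least three branches. -/
def IsBranchPoint {T : Type*} [TopologicalSpace T] (p : T) : Prop :=
  ∃ B₁ B₂ B₃ : Set T, IsBranch p B₁ ∧ IsBranch p B₂ ∧ IsBranch p B₃ ∧
    B₁ ≠ B₂ ∧ B₁ ≠ B₃ ∧ B₂ ≠ B₃

/-- The height of `p`: the third largest diameter of a branch of `p`, i.e. the supremum of all
`h` such that `p` has three different branches of diameter at least `h`. -/
noncomputable def height {T : Type*} [MetricSpace T] (p : T) : ℝ :=
  sSup {h : ℝ | ∃ B₁ B₂ B₃ : Set T, IsBranch p B₁ ∧ IsBranch p B₂ ∧ IsBranch p B₃ ∧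
    B₁ ≠ B₂ ∧ B₁ ≠ B₃ ∧ B₂ ≠ B₃ ∧ h ≤ diam B₁ ∧ h ≤ diam B₂ ∧ h ≤ diam B₃}

/-- `T` is doubling: for some `N` every ball of radius `r` is covered by at most `N` balls of
radius `r / 2`. -/
def IsDoubling (T : Type*) [MetricSpace T] : Prop :=
  ∃ N : ℕ, ∀ (x : T) (r : ℝ), 0 < r →
    ∃ s : Finset T, s.card ≤ N ∧ ball x r ⊆ ⋃ y ∈ s, ball y (r / 2)

/-- `T` is of bounded turning: `diam [x, y] ≤ K |x - y|` for some `K ≥ 1`. -/
def IsBoundedTurning (T : Type*) [MetricSpace T] : Prop :=
  ∃ K : ℝ, 1 ≤ K ∧ ∀ (x y : T) (A : Set T), IsArc x y A → diam A ≤ K * dist x y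

/-- A quasiconformal tree: a doubling metric tree of bounded turning. -/
def IsQuasiconformalTree (T : Type*) [MetricSpace T] : Prop :=
  IsMetricTree T ∧ IsDoubling T ∧ IsBoundedTurning T

/-- Uniformly relatively separated branch points. -/
def HasSeparatedBranchPoints (T : Type*) [MetricSpace T] : Prop :=
  ∃ c : ℝ, 0 < c ∧ ∀ p q : T, IsBranchPoint p → IsBranchPoint q → p ≠ q →
    c * min (height p) (height q) ≤ dist p q

/-- A quasisymmetric embedding: injective, and for some homeomorphism `η` of `[0, ∞)`,
`|x - a| ≤ t |x - b|` implies `|F x - F a| ≤ η(t) |F x - F b|`. -/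
def IsQuasisymmetricEmbedding {X Y : Type*} [MetricSpace X] [MetricSpace Y] (F : X → Y) : Prop :=
  Function.Injective F ∧ ∃ η : ℝ≥0 ≃ₜ ℝ≥0, ∀ (x a b : X) (t : ℝ≥0),
    dist x a ≤ t * dist x b → dist (F x) (F a) ≤ η t * dist (F x) (F b)

/-! ### The tree `T_∞`

Segments are indexed by finite words of natural numbers (the last letter of the word is the head
of the list). The segment `w` has length `len w`, starts at `start w` and runs in the coordinate
direction `dir w` of `ℓ¹(words)`. It is cut at its midpoint; the two halves are the segments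
`0 :: w` and `1 :: w`, and the new segment of length `2 ^ (-k) * len w` (`k ≥ 1`), attached at the
midpoint, is `(k + 1) :: w`; it runs in its own new coordinate direction, so that the `ℓ¹`
distance restricted to the union of the segments is the path metric. -/

/-- Length of the segment with index `w`. -/
noncomputable def len : List ℕ → ℝ
  | [] => 2
  | 0 :: w => len w / 2
  | 1 :: w => len w / 2
  | (k + 2) :: w => len w / 2 ^ (k + 1)

/-- Coordinate direction of the segment with index `w`. -/
def dir : List ℕ → List ℕ
  | [] => []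
  | 0 :: w => dir w
  | 1 :: w => dir w
  | (k + 2) :: w => (k + 2) :: w

/-- The ambient space `ℓ¹` on the set of all words. -/
abbrev EllOne : Type := lp (fun _ : List ℕ => ℝ) 1

/-- The unit vector of `ℓ¹` in direction `i`. -/
noncomputable def unitVec (i : List ℕ) : EllOne := lp.single 1 i (1 : ℝ)

/-- Starting point of the segment with index `w`. -/
noncomputable def start : List ℕ → EllOne
  | [] => 0
  | 0 :: w => start w
  | 1 :: w => start w + (len w / 2) • unitVec (dir w)
  | (_ + 2) :: w => start w + (len w / 2) • unitVec (dir w)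

/-- The segment with index `w`. -/
def segm (w : List ℕ) : Set EllOne :=
  {x | ∃ t : ℝ, 0 ≤ t ∧ t ≤ len w ∧ x = start w + t • unitVec (dir w)}

/-- The tree `J_n` : the union of the segments of generation `n`. -/
def J (n : ℕ) : Set EllOne := ⋃ w ∈ {w : List ℕ | w.length = n}, segm w

/-- The tree `T_∞`: the completion (the closure in `ℓ¹`) of `J_0 ∪ J_1 ∪ ...`. -/
def TInfty : Set EllOne := closure (⋃ n, J n)

end Pool.Agent.QT
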