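import Mathlib
import Pool.Agent.Helper11.QT.Defs

/-!
# Check of the definition of the height
-/

set_option autoImplicit false

open Set Metric

namespace Pool.Agent.QT

/-- **Check of the definition of the height**: if `B₁, B₂, B₃` are the three largest branches of
`p` (in decreasing order of diameter) then `height p = diam B₃`. -/
theorem height_eq {T : Type*} [MetricSpace T] {p : T} {B₁ B₂ B₃ : Set T}
    (h₁ : IsBranch p B₁) (h₂ : IsBranch p B₂) (h₃ : IsBranch p B₃)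
    (n12 : B₁ ≠ B₂) (n13 : B₁ ≠ B₃) (n23 : B₂ ≠ B₃)
    (d12 : diam B₂ ≤ diam B₁) (d23 : diam B₃ ≤ diam B₂)
    (hmax : ∀ B, IsBranch p B → B ≠ B₁ → B ≠ B₂ → diam B ≤ diam B₃) :
    height p = diam B₃ := by
  apply IsGreatest.csSup_eq
  refine ⟨⟨B₁, B₂, B₃, h₁, h₂, h₃, n12, n13, n23, d23.trans d12, d23, le_rfl⟩, ?_⟩
  rintro h ⟨C₁, C₂, C₃, c₁, c₂, c₃, m12, m13, m23, e1, e2, e3⟩
  have key : ∀ C, IsBranch p C → h ≤ diam C → C ≠ B₁ → C ≠ B₂ → h ≤ diam B₃ :=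
    fun C hC hh a b => hh.trans (hmax C hC a b)
  by_cases a1 : C₁ ≠ B₁ ∧ C₁ ≠ B₂
  · exact key C₁ c₁ e1 a1.1 a1.2
  by_cases a2 : C₂ ≠ B₁ ∧ C₂ ≠ B₂
  · exact key C₂ c₂ e2 a2.1 a2.2
  by_cases a3 : C₃ ≠ B₁ ∧ C₃ ≠ B₂
  · exact key C₃ c₃ e3 a3.1 a3.2
  exfalso
  have f1 : C₁ = B₁ ∨ C₁ = B₂ := by tauto
  have f2 : C₂ = B₁ ∨ C₂ = B₂ := by tauto
  have f3 : C₃ = B₁ ∨ C₃ = B₂ := by tauto
  rcases f1 with rfl | rfl <;> rcases f2 with rfl | rfl <;> rcases f3 with rfl | rfl <;>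
    first
      | exact m12 rfl
      | exact m13 rfl
      | exact m23 rfl

end Pool.Agent.QT
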