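import Pool.Agent.Helper11.QT.Tree2

/-!
# Existence of good cut points
-/

set_option autoImplicit false

open Set Metric Filter Topology

namespace Pool.Agent.QT

namespace ArcSys

variable {T : Type*} [MetricSpace T] (S : ArcSys T)

/-- One step of the selection: move away from the points of one level. -/
theorem good_step {o n z : T} {c H ρ : ℝ} {j : ℕ} {P : Set T} {h : T → ℝ}
    (hc : 0 < c) (hH : 0 < H) (hρ : 0 < ρ)
    (hsep : ∀ p ∈ P, ∀ q ∈ P, p ≠ q → c * min (h p) (h q) ≤ S.rho p q)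
    (hz : z ∈ S.arc o n) (hfar : 3 * (c * H * ρ ^ (j + 1) / 4) ≤ S.rho o z) :
    ∃ z' ∈ S.arc o n, S.rho z z' ≤ 3 * (c * H * ρ ^ (j + 1) / 4) ∧
      ∀ q ∈ P, H * ρ ^ (j + 1) < h q → c * H * ρ ^ (j + 1) / 4 ≤ S.rho z' q := by
  set D := c * H * ρ ^ (j + 1) / 4 with hD
  have hDpos : 0 < D := by positivity
  by_cases hex : ∃ q ∈ P, H * ρ ^ (j + 1) < h q ∧ S.rho z q < D
  · obtain ⟨q, hqP, hq1, hq2⟩ := hex
    have h1 : 2 * D ≤ S.rho q o := by
      have := S.rho_triangle o q z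
      rw [S.rho_comm q z, S.rho_comm o q] at this
      linarith
    have h2 : S.rho q z ≤ 2 * D := by
      rw [S.rho_comm]; linarith
    obtain ⟨z', hz', hz'2⟩ := S.ivt (S.continuous_rho q) h2 h1
    refine ⟨z', S.sub_left hz (S.swap hz'), ?_, ?_⟩
    · have := S.rho_triangle z q z'
      linarith
    · intro q' hq'P hq'
      by_cases hqq : q' = q
      · subst hqq
        rw [S.rho_comm, hz'2]; linarith
      · have h3 := hsep q' hq'P q hqP hqq
        have h4 : H * ρ ^ (j + 1) ≤ min (h q') (h q) := le_min hq'.le hq1.le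
        have h5 : c * (H * ρ ^ (j + 1)) ≤ c * min (h q') (h q) := by gcongr
        have h6 := S.rho_triangle q' z' q
        rw [S.rho_comm z' q, hz'2, S.rho_comm q' z'] at h6
        have h7 : 4 * D = c * (H * ρ ^ (j + 1)) := by rw [hD]; ring
        linarith
  · push Not at hex
    exact ⟨z, hz, by rw [S.rho_self]; positivity, fun q hq hq1 => hex q hq hq1⟩

theorem good_point {o n z₀ : T} {c H ρ : ℝ} {P : Set T} {h : T → ℝ}
    (hc : 0 < c) (hH : 0 < H) (hρ : 0 < ρ) (hρ8 : ρ ≤ 1 / 8)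
    (hsep : ∀ p ∈ P, ∀ q ∈ P, p ≠ q → c * min (h p) (h q) ≤ S.rho p q)
    (hpos : ∀ p ∈ P, 0 < h p) (hle : ∀ p ∈ P, h p ≤ H)
    (hz₀ : z₀ ∈ S.arc o n) (hfar : 2 * (c * H * ρ) ≤ S.rho o z₀) :
    ∃ z ∈ S.arc o n, S.rho z₀ z ≤ c * H * ρ ∧ ∀ q ∈ P, c * ρ / 8 * h q ≤ S.rho z q := by
  have hM : 0 < c * H * ρ := by positivity
  have hstep : ∀ (j : ℕ) (z : T), z ∈ S.arc o n ∧ S.rho z₀ z ≤ c * H * ρ * (1 - ρ ^ j) →
      ∃ z', (z' ∈ S.arc o n ∧ S.rho z₀ z' ≤ c * H * ρ * (1 - ρ ^ (j + 1))) ∧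
        S.rho z z' ≤ 3 * (c * H * ρ ^ (j + 1) / 4) ∧
        ∀ q ∈ P, H * ρ ^ (j + 1) < h q → c * H * ρ ^ (j + 1) / 4 ≤ S.rho z' q := by
    rintro j z ⟨hz, hz2⟩
    have hpj : 0 < ρ ^ j := by positivity
    have hpj1 : ρ ^ j ≤ 1 := pow_le_one₀ hρ.le (by linarith)
    have e1 : c * H * ρ ^ (j + 1) = c * H * ρ * ρ ^ j := by rw [pow_succ]; ring
    have hfar' : 3 * (c * H * ρ ^ (j + 1) / 4) ≤ S.rho o z := by
      have h1 := S.rho_triangle o z z₀
      rw [S.rho_comm z z₀] at h1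
      rw [e1]
      nlinarith [mul_pos hM hpj, mul_le_mul_of_nonneg_left hpj1 hM.le]
    obtain ⟨z', h1, h2, h3⟩ := S.good_step hc hH hρ hsep hz hfar'
    refine ⟨z', ⟨h1, ?_⟩, h2, h3⟩
    have h4 := S.rho_triangle z₀ z z'
    have e2 : c * H * ρ * (1 - ρ ^ (j + 1)) =
        c * H * ρ * (1 - ρ ^ j) + c * H * ρ * ρ ^ j * (1 - ρ) := by rw [pow_succ]; ring
    rw [e2]
    rw [e1] at h2
    nlinarith [mul_pos hM hpj]
  choose! f hf1 hf2 hf3 using hstep
  let z : ℕ → T := fun j => Nat.rec z₀ (fun j w => f j w) j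
  have hz_succ : ∀ j, z (j + 1) = f j (z j) := fun _ => rfl
  have hzP : ∀ j, z j ∈ S.arc o n ∧ S.rho z₀ (z j) ≤ c * H * ρ * (1 - ρ ^ j) := by
    intro j
    induction j with
    | zero => exact ⟨hz₀, by simp [z, S.rho_self]⟩
    | succ j ih => rw [hz_succ]; exact hf1 j (z j) ih
  have hz2 : ∀ j, S.rho (z j) (z (j + 1)) ≤ 3 * (c * H * ρ ^ (j + 1) / 4) := by
    intro j; rw [hz_succ]; exact hf2 j (z j) (hzP j)
  have hz3 : ∀ j, ∀ q ∈ P, H * ρ ^ (j + 1) < h q →
      c * H * ρ ^ (j + 1) / 4 ≤ S.rho (z (j + 1)) q := by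
    intro j; rw [hz_succ]; exact hf3 j (z j) (hzP j)
  have hdiff : ∀ i m, S.rho (z i) (z (i + m)) ≤ c * H * ρ * (ρ ^ i - ρ ^ (i + m)) := by
    intro i m
    induction m with
    | zero => simp [S.rho_self]
    | succ m ih =>
      have h1 := S.rho_triangle (z i) (z (i + m)) (z (i + (m + 1)))
      have h2 := hz2 (i + m)
      have hpj : 0 < ρ ^ (i + m) := by positivity
      have e1 : c * H * ρ ^ (i + m + 1) = c * H * ρ * ρ ^ (i + m) := by rw [pow_succ]; ring
      have e2 : c * H * ρ * (ρ ^ i - ρ ^ (i + (m + 1))) =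
          c * H * ρ * (ρ ^ i - ρ ^ (i + m)) + c * H * ρ * ρ ^ (i + m) * (1 - ρ) := by
        rw [← add_assoc, pow_succ]; ring
      rw [e2]
      rw [e1] at h2
      rw [← add_assoc] at h1 ⊢
      nlinarith [mul_pos hM hpj]
  have hdiff' : ∀ i m, S.rho (z i) (z (i + m)) ≤ c * H * ρ * ρ ^ i := by
    intro i m
    have h1 := hdiff i m
    have hpj : 0 < ρ ^ (i + m) := by positivity
    nlinarith [mul_pos hM hpj]
  have htend0 : Tendsto (fun i : ℕ => 2 * (c * H * ρ * ρ ^ i)) atTop (𝓝 0) := by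
    have h1 := (tendsto_pow_atTop_nhds_zero_of_lt_one hρ.le (by linarith)).const_mul
      (2 * (c * H * ρ))
    rw [mul_zero] at h1
    refine h1.congr fun i => by ring
  have hcau : CauchySeq z := by
    refine cauchySeq_of_le_tendsto_0 _ ?_ htend0
    intro a b N ha hb
    obtain ⟨a', rfl⟩ := Nat.exists_eq_add_of_le ha
    obtain ⟨b', rfl⟩ := Nat.exists_eq_add_of_le hb
    have h1 := hdiff' N a'
    have h2 := hdiff' N b'
    have h3 := S.dist_le_rho (z N) (z (N + a'))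
    have h4 := S.dist_le_rho (z N) (z (N + b'))
    have h5 := dist_triangle_left (z (N + a')) (z (N + b')) (z N)
    linarith
  obtain ⟨w, hw, hlim⟩ := cauchySeq_tendsto_of_isComplete (S.compact o n).isComplete
    (fun j => (hzP j).1) hcau
  refine ⟨w, hw, ?_, ?_⟩
  · have h1 : Tendsto (fun j => S.rho z₀ (z j)) atTop (𝓝 (S.rho z₀ w)) :=
      ((S.continuous_rho z₀).tendsto w).comp hlim
    refine le_of_tendsto h1 (Eventually.of_forall fun j => ?_)
    have h2 := (hzP j).2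
    have hpj : 0 < ρ ^ j := by positivity
    nlinarith [mul_pos hM hpj]
  · intro q hq
    have hq0 := hpos q hq
    have hq1 := hle q hq
    obtain ⟨j, hj1, hj2⟩ := exists_nat_pow_near_of_lt_one (x := h q / H) (y := ρ)
      (by positivity) (by rw [div_le_one hH]; exact hq1) hρ (by linarith)
    rw [lt_div_iff₀ hH] at hj1
    rw [div_le_iff₀ hH] at hj2
    have h1 := hz3 j q hq (by linarith)
    have h2 : ∀ m, c * H * ρ ^ (j + 1) / 8 ≤ S.rho q (z (j + 1 + m)) := by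
      intro m
      have h3 := hdiff' (j + 1) m
      have h4 := S.rho_triangle (z (j + 1)) (z (j + 1 + m)) q
      rw [S.rho_comm (z (j + 1 + m)) q] at h4
      have hp : 0 < c * H * ρ ^ (j + 1) := by positivity
      have e1 : c * H * ρ * ρ ^ (j + 1) = ρ * (c * H * ρ ^ (j + 1)) := by ring
      rw [e1] at h3
      nlinarith
    have h3 : Tendsto (fun m => S.rho q (z (j + 1 + m))) atTop (𝓝 (S.rho q w)) := by
      refine ((S.continuous_rho q).tendsto w).comp (hlim.comp ?_)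
      have := tendsto_add_atTop_nat (j + 1)
      refine this.congr fun m => by ring
    have h4 : c * H * ρ ^ (j + 1) / 8 ≤ S.rho q w :=
      ge_of_tendsto h3 (Eventually.of_forall h2)
    rw [S.rho_comm]
    refine le_trans ?_ h4
    have e1 : c * H * ρ ^ (j + 1) / 8 = c * ρ / 8 * (ρ ^ j * H) := by rw [pow_succ]; ring
    rw [e1]
    gcongr

end ArcSys

end Pool.Agent.QT
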