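import Pool.Agent.Helper11.QT.Step

/-!
# Labels of side branches
-/

set_option autoImplicit false

open Set Metric Filter Topology

namespace Pool.Agent.QT

namespace Ctx

variable {T : Type*} [MetricSpace T] [CompactSpace T] (S : Ctx T)

theorem exists_label {N k M : ℕ} (hN : ∀ (x : T) (r : ℝ), 0 < r →
    ∃ s : Finset T, s.card ≤ N ∧ ball x r ⊆ ⋃ y ∈ s, ball y (r / 2))
    (hk : 24 * S.K ≤ 2 ^ k) (hM : N ^ k ≤ M) (hM0 : 0 < M) (hθM : S.θ ^ M = 1 / 2)
    (z : T) {D : ℝ} (hD : 0 < D) :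
    ∃ lab : Set T → ℕ,
      (∀ x x', x ≠ z → x' ≠ z → diam (S.Br z x) ≤ D → diam (S.Br z x') ≤ D →
        lab (S.Br z x) = lab (S.Br z x') → S.Br z x = S.Br z x') ∧
      ∀ x, x ≠ z → diam (S.Br z x) ≤ D →
        D * S.θ ^ (lab (S.Br z x) + 1) ≤ 2 * diam (S.Br z x) ∧
        diam (S.Br z x) ≤ 2 * D * S.θ ^ (lab (S.Br z x) + 1) := by
  classical
  have hθ0 := S.θ_pos
  have hθ1 := S.hθ1
  have hK := S.hK
  -- dyadic class
  have hcls : ∀ B : Set T, ∃ i : ℕ, 0 < diam B → diam B ≤ D →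
      D * (1 / 2) ^ (i + 1) < diam B ∧ diam B ≤ D * (1 / 2) ^ i := by
    intro B
    by_cases h : 0 < diam B ∧ diam B ≤ D
    · obtain ⟨i, h1, h2⟩ := exists_nat_pow_near_of_lt_one (x := diam B / D) (y := 1 / 2)
        (by have := h.1; positivity) (by rw [div_le_one hD]; exact h.2) (by norm_num)
        (by norm_num)
      rw [lt_div_iff₀ hD] at h1
      rw [div_le_iff₀ hD] at h2
      exact ⟨i, fun _ _ => ⟨by linarith, by linarith⟩⟩
    · exact ⟨0, fun h1 h2 => absurd ⟨h1, h2⟩ h⟩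
  choose cls hcls using hcls
  have hr : ∀ i : ℕ, 0 < 2 * (D * (1 / 2) ^ i) := fun i => by positivity
  choose t ht1 ht2 using fun i : ℕ => doubling_iter hN k z (2 * (D * (1 / 2) ^ i)) (hr i)
  -- far points
  have hfar : ∀ B : Set T, ∃ y : T, ∀ x, x ≠ z → B = S.Br z x →
      y ∈ B ∧ diam B / 3 < S.rho z y := by
    intro B
    by_cases h : ∃ x, x ≠ z ∧ B = S.Br z x
    · obtain ⟨x, hx, rfl⟩ := h
      obtain ⟨y, hy1, hy2⟩ := S.exists_far hx
      exact ⟨y, fun _ _ _ => ⟨hy1, hy2⟩⟩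
    · exact ⟨z, fun x hx hB => absurd ⟨x, hx, hB⟩ h⟩
  choose yf hyf using hfar
  -- centers
  have hcen : ∀ B : Set T, ∃ (j : ℕ), j < M ∧ ∀ x, x ≠ z → B = S.Br z x → diam B ≤ D →
      ∃ w : t (cls B), ((t (cls B)).equivFin w).val = j ∧
        dist (yf B) w < 2 * (D * (1 / 2) ^ (cls B)) / 2 ^ k := by
    intro B
    by_cases h : ∃ x, x ≠ z ∧ B = S.Br z x ∧ diam B ≤ D
    · obtain ⟨x, hx, hB, hBD⟩ := h
      have hBpos : 0 < diam B := by rw [hB]; exact S.diam_Br_pos hx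
      have h1 := (hcls B hBpos hBD).2
      have h2 := hyf B x hx hB
      have h3 : S.rho z (yf B) ≤ diam B := by
        have h4 : yf B ∈ S.Br z x := hB ▸ h2.1
        rw [hB]
        exact S.rho_le_diam_Br (S.base_mem_Br z x) (hB ▸ h4)
      have h4 : yf B ∈ ball z (2 * (D * (1 / 2) ^ (cls B))) := by
        rw [mem_ball, dist_comm]
        have := S.dist_le_rho z (yf B)
        linarith
      obtain ⟨w, hw, hw2⟩ := mem_iUnion₂.1 (ht2 (cls B) h4)
      refine ⟨((t (cls B)).equivFin ⟨w, hw⟩).val, ?_, fun _ _ _ _ => ⟨⟨w, hw⟩, rfl, hw2⟩⟩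
      exact lt_of_lt_of_le ((t (cls B)).equivFin ⟨w, hw⟩).isLt ((ht1 _).trans hM)
    · exact ⟨0, hM0, fun x hx hB hD => absurd ⟨x, hx, hB, hD⟩ h⟩
  choose rk hrk1 hrk2 using hcen
  refine ⟨fun B => M * cls B + rk B, ?_, ?_⟩
  · intro x x' hx hx' hd hd' heq
    by_contra hne
    have hBpos := S.diam_Br_pos hx
    have hBpos' := S.diam_Br_pos hx'
    have h1 : cls (S.Br z x) = cls (S.Br z x') := by
      have e1 : (M * cls (S.Br z x) + rk (S.Br z x)) / M = cls (S.Br z x) := by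
        rw [Nat.mul_add_div hM0, Nat.div_eq_of_lt (hrk1 _), add_zero]
      have e2 : (M * cls (S.Br z x') + rk (S.Br z x')) / M = cls (S.Br z x') := by
        rw [Nat.mul_add_div hM0, Nat.div_eq_of_lt (hrk1 _), add_zero]
      rw [← e1, ← e2]
      exact congrArg (· / M) heq
    have h2 : rk (S.Br z x) = rk (S.Br z x') := by
      simp only [h1] at heq
      omega
    obtain ⟨w, hw1, hw2⟩ := hrk2 _ x hx rfl hd
    obtain ⟨w', hw1', hw2'⟩ := hrk2 _ x' hx' rfl hd'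
    have hww : (w : T) = (w' : T) := by
      rw [← hw1, ← hw1'] at h2
      clear hw2 hw2' hw1 hw1'
      revert w w'
      rw [h1]
      intro w w' h2
      have := (t (cls (S.Br z x'))).equivFin.injective (Fin.ext h2)
      rw [this]
    have hy1 := hyf _ x hx rfl
    have hy2 := hyf _ x' hx' rfl
    have hlow := (hcls _ hBpos hd).1
    have hzarc : z ∈ S.arc (yf (S.Br z x)) (yf (S.Br z x')) := by
      have hne1 : yf (S.Br z x) ≠ z := by
        intro h
        have := hy1.2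
        rw [h, S.rho_self] at this
        linarith
      have hne2 : yf (S.Br z x') ≠ z := by
        intro h
        have := hy2.2
        rw [h, S.rho_self] at this
        linarith
      apply S.mem_arc_of_Br_ne _ hne1 hne2
      rw [S.Br_eq hy1.1 hx hne1, S.Br_eq hy2.1 hx' hne2]
      exact hne
    have h3 := S.rho_mono_left hzarc
    rw [S.rho_comm] at h3
    have h4 := S.rho_le (yf (S.Br z x)) (yf (S.Br z x'))
    rw [← hww, ← h1] at hw2'
    have h5 := dist_triangle_right (yf (S.Br z x)) (yf (S.Br z x')) (w : T)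
    have hP : 0 < D * (1 / 2 : ℝ) ^ cls (S.Br z x) := by positivity
    have h6 : D * (1 / 2 : ℝ) ^ cls (S.Br z x) / 6 < S.K * dist (yf (S.Br z x)) (yf (S.Br z x')) := by
      have : D * (1 / 2 : ℝ) ^ (cls (S.Br z x) + 1) = D * (1 / 2 : ℝ) ^ cls (S.Br z x) / 2 := by
        rw [pow_succ]; ring
      linarith [hy1.2]
    have h7 : dist (yf (S.Br z x)) (yf (S.Br z x')) <
        4 * (D * (1 / 2) ^ cls (S.Br z x)) / 2 ^ k := by
      have : 2 * (D * (1 / 2) ^ cls (S.Br z x)) / 2 ^ k + 2 * (D * (1 / 2) ^ cls (S.Br z x)) / 2 ^ k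
        = 4 * (D * (1 / 2) ^ cls (S.Br z x)) / 2 ^ k := by ring
      linarith
    have h8 : S.K * dist (yf (S.Br z x)) (yf (S.Br z x')) ≤
        S.K * (4 * (D * (1 / 2) ^ cls (S.Br z x)) / 2 ^ k) := by gcongr
    have h9 : S.K * (4 * (D * (1 / 2) ^ cls (S.Br z x)) / 2 ^ k) ≤
        D * (1 / 2 : ℝ) ^ cls (S.Br z x) / 6 := by
      rw [mul_div_assoc', div_le_div_iff₀ (by positivity) (by norm_num)]
      nlinarith
    linarith
  · intro x hx hd
    have hBpos := S.diam_Br_pos hx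
    obtain ⟨h1, h2⟩ := hcls _ hBpos hd
    set i := cls (S.Br z x)
    set j := rk (S.Br z x)
    have hj : j + 1 ≤ M := hrk1 _
    have e1 : S.θ ^ (M * i + j + 1) = (1 / 2 : ℝ) ^ i * S.θ ^ (j + 1) := by
      rw [add_assoc, pow_add, pow_mul, hθM]
    have hlow : (1 / 2 : ℝ) ≤ S.θ ^ (j + 1) := by
      rw [← hθM]
      exact pow_le_pow_of_le_one hθ0.le hθ1.le hj
    have hup : S.θ ^ (j + 1) ≤ 1 := pow_le_one₀ hθ0.le hθ1.le
    have hP : 0 < D * (1 / 2 : ℝ) ^ i := by positivity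
    have e2 : D * (1 / 2 : ℝ) ^ (i + 1) = D * (1 / 2 : ℝ) ^ i / 2 := by rw [pow_succ]; ring
    change D * S.θ ^ (M * i + j + 1) ≤ 2 * diam (S.Br z x) ∧
      diam (S.Br z x) ≤ 2 * D * S.θ ^ (M * i + j + 1)
    rw [e1]
    constructor
    · calc D * ((1 / 2 : ℝ) ^ i * S.θ ^ (j + 1)) = D * (1 / 2 : ℝ) ^ i * S.θ ^ (j + 1) := by ring
        _ ≤ D * (1 / 2 : ℝ) ^ i * 1 := by gcongr
        _ ≤ 2 * diam (S.Br z x) := by linarith
    · calc diam (S.Br z x) ≤ D * (1 / 2 : ℝ) ^ i := h2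
        _ = 2 * (D * (1 / 2 : ℝ) ^ i * (1 / 2)) := by ring
        _ ≤ 2 * (D * (1 / 2 : ℝ) ^ i * S.θ ^ (j + 1)) := by gcongr
        _ = _ := by ring

end Ctx

end Pool.Agent.QT
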