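import Pool.Agent.Helper11.QT.QS3
import Pool.Agent.Helper11.QT.Build

/-!
# Quasisymmetric universality of `T_∞`
-/

set_option autoImplicit false

open Set Metric Filter Topology
open scoped NNReal

namespace Pool.Agent.QT

/-- The cell system of a quasiconformal tree with separated branch points. -/
theorem exists_cellSys {T : Type*} [MetricSpace T] (hT : IsQuasiconformalTree T)
    (hsep : HasSeparatedBranchPoints T) : ∃ S : ArcSys T, Nonempty (CellSys S) := by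
  obtain ⟨hT1, ⟨N, hN⟩, hB⟩ := hT
  haveI := hT1.compact
  haveI := hT1.nontrivial
  obtain ⟨c, hc, hc2⟩ := hsep
  obtain ⟨S, _⟩ := exists_arcSys hT1 hB
  obtain ⟨k, hk⟩ := pow_unbounded_of_one_lt (24 * S.K) (one_lt_two (α := ℝ))
  set M : ℕ := N ^ k + 1 with hM
  have hM0 : (M : ℝ) ≠ 0 := by positivity
  have hM1 : 0 < M := Nat.succ_pos _
  set θ : ℝ := (1 / 2 : ℝ) ^ ((M : ℝ)⁻¹) with hθ
  have hθM : θ ^ M = 1 / 2 := by
    rw [hθ, ← Real.rpow_natCast, ← Real.rpow_mul (by norm_num), inv_mul_cancel₀ hM0,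
      Real.rpow_one]
  have hθ0 : 0 < θ := by positivity
  have hMinv : (M : ℝ)⁻¹ ≤ 1 := by
    apply inv_le_one_of_one_le₀
    exact_mod_cast hM1
  have hMinv0 : 0 < (M : ℝ)⁻¹ := by positivity
  have hθ1 : θ < 1 := Real.rpow_lt_one (by norm_num) (by norm_num) hMinv0
  have hθh : 1 / 2 ≤ θ := by
    have := Real.rpow_le_rpow_of_exponent_ge (x := (1 / 2 : ℝ)) (by norm_num) (by norm_num) hMinv
    rwa [Real.rpow_one] at this
  have hh0 : ∀ p : T, 0 ≤ height p := by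
    intro p
    by_cases hb : IsBranchPoint p
    · exact (S.height_pos hb).le
    · have : {h : ℝ | ∃ B₁ B₂ B₃ : Set T, IsBranch p B₁ ∧ IsBranch p B₂ ∧ IsBranch p B₃ ∧
          B₁ ≠ B₂ ∧ B₁ ≠ B₃ ∧ B₂ ≠ B₃ ∧ h ≤ diam B₁ ∧ h ≤ diam B₂ ∧ h ≤ diam B₃} = ∅ := by
        rw [eq_empty_iff_forall_notMem]
        rintro h ⟨B₁, B₂, B₃, h1, h2, h3, h4, h5, h6, _⟩
        exact hb ⟨B₁, B₂, B₃, h1, h2, h3, h4, h5, h6⟩
      unfold height
      rw [this, Real.sSup_empty]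
  let X : Ctx T :=
    { toArcSys := S
      θ := θ
      c := min c 1
      hθ := hθh
      hθ1 := hθ1
      hc := lt_min hc one_pos
      hc1 := min_le_right _ _
      hsep := by
        intro p q hp hq hpq
        have h1 := hc2 p q hp hq hpq
        have h2 := S.dist_le_rho p q
        have h3 : 0 ≤ min (height p) (height q) := le_min (hh0 p) (hh0 q)
        have h4 : min c 1 * min (height p) (height q) ≤ c * min (height p) (height q) := by
          have := min_le_left c 1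
          gcongr
        linarith }
  -- the root
  obtain ⟨x₀, x₁, hx01⟩ := exists_pair_ne T
  have hfar : ∃ y₀, diam (univ : Set T) / 3 < S.rho x₀ y₀ := by
    by_contra hcon
    push Not at hcon
    have hD0 : 0 < diam (univ : Set T) := by
      have := S.rho_le_diam_univ x₀ x₁
      have := S.rho_pos hx01
      linarith
    have h1 : diam (univ : Set T) ≤ 2 * (diam (univ : Set T) / 3) := by
      refine diam_le_of_forall_dist_le (by positivity) fun x _ y _ => ?_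
      have h2 := S.dist_le_rho x y
      have h3 := S.rho_triangle x x₀ y
      have h4 := hcon x
      have h5 := hcon y
      rw [S.rho_comm x x₀] at h3
      linarith
    linarith
  obtain ⟨y₀, hy₀⟩ := hfar
  obtain ⟨z₀, r1, r2, r3, r4, r5, r6, r7, r8⟩ := X.step0 hy₀
  have e2 : ∀ (o n : T) (g : ℝ), ∃ z, X.Val2 o n g → Spec2 X o n g z := by
    intro o n g
    by_cases h : X.Val2 o n g
    · obtain ⟨z, h1, h2, h3, h4, h5, h6, h7, h8⟩ := X.step2 h
      exact ⟨z, fun _ => ⟨h1, h2, h3, h4, h5, h6, h7, h8⟩⟩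
    · exact ⟨o, fun h' => absurd h' h⟩
  choose z2 hz2 using e2
  have e1 : ∀ (o y : T), ∃ y₁ z, X.Val1 o y → Spec1 X o y y₁ z := by
    intro o y
    by_cases h : X.Val1 o y
    · obtain ⟨y₁, hy1, hy2⟩ := X.exists_far h.ne
      obtain ⟨z, h1, h2, h3, h4, h5, h6, h7, h8⟩ := X.step1 h hy1 hy2
      exact ⟨y₁, z, fun _ => ⟨hy1, hy2, h1, h2, h3, h4, h5, h6, h7, h8⟩⟩
    · exact ⟨o, o, fun h' => absurd h' h⟩
  choose y1 z1 hz1 using e1
  have el : ∀ (z : T) (D : ℝ), ∃ lab : Set T → ℕ, 0 < D →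
      (∀ x x', x ≠ z → x' ≠ z → diam (X.Br z x) ≤ D → diam (X.Br z x') ≤ D →
        lab (X.Br z x) = lab (X.Br z x') → X.Br z x = X.Br z x') ∧
      ∀ x, x ≠ z → diam (X.Br z x) ≤ D →
        D * X.θ ^ (lab (X.Br z x) + 1) ≤ 2 * diam (X.Br z x) ∧
        diam (X.Br z x) ≤ 2 * D * X.θ ^ (lab (X.Br z x) + 1) := by
    intro z D
    by_cases hD : 0 < D
    · obtain ⟨lab, h1, h2⟩ := X.exists_label hN (k := k) (M := M) hk.le (by omega) hM1 hθM z hD
      exact ⟨lab, fun _ => ⟨h1, h2⟩⟩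
    · exact ⟨fun _ => 0, fun h => absurd h hD⟩
  choose lab hlab using el
  let A : Choices X :=
    { z2 := z2
      h2 := fun {o n g} h => hz2 o n g h
      y1 := y1
      z1 := z1
      h1 := fun {o y} h => hz1 o y h
      x₀ := x₀
      y₀ := y₀
      z₀ := z₀
      r_mem := r1
      r_nx := r2
      r_ny := r3
      r_nb := r4
      r_far := hy₀
      r_bx := r5
      r_by := r6
      r_vx := r7
      r_vy := r8
      lab := lab
      lab_inj := fun z {D} hD => (hlab z D hD).1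
      lab_bd := fun z {D} hD => (hlab z D hD).2 }
  exact ⟨S, ⟨A.toCellSys⟩⟩

/-- Elementary bound for the weight function. -/
theorem Psi_bound (N k0 m0 k1 κ : ℕ) :
    m0 * κ + CellSys.Psi N k0 m0 k1 κ ≤
      (m0 + (N + 1) ^ k0 * m0 * (k1 + 1)) * (2 * (N + 1)) ^ κ := by
  have h1 : κ ≤ 2 ^ κ := Nat.lt_two_pow_self.le
  have h2 : 1 ≤ (N + 1) ^ κ := Nat.one_le_pow _ _ (Nat.succ_pos _)
  have h3 : (2 * (N + 1)) ^ κ = 2 ^ κ * (N + 1) ^ κ := by rw [mul_pow]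
  have h4 : κ + k1 ≤ (k1 + 1) * 2 ^ κ := by
    have : 1 ≤ 2 ^ κ := Nat.one_le_two_pow
    nlinarith
  have h5 : N ^ (κ + k0) ≤ (N + 1) ^ k0 * (N + 1) ^ κ := by
    rw [← pow_add, add_comm k0]
    exact Nat.pow_le_pow_left (Nat.le_succ N) _
  have h6 : m0 * κ ≤ m0 * (2 * (N + 1)) ^ κ := by
    apply Nat.mul_le_mul_left
    rw [h3]
    calc κ ≤ 2 ^ κ * 1 := by omega
      _ ≤ 2 ^ κ * (N + 1) ^ κ := Nat.mul_le_mul_left _ h2
  have h7 : CellSys.Psi N k0 m0 k1 κ ≤ (N + 1) ^ k0 * m0 * (k1 + 1) * (2 * (N + 1)) ^ κ := by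
    unfold CellSys.Psi
    calc N ^ (κ + k0) * (m0 * (κ + k1))
        ≤ ((N + 1) ^ k0 * (N + 1) ^ κ) * (m0 * ((k1 + 1) * 2 ^ κ)) :=
          Nat.mul_le_mul h5 (Nat.mul_le_mul_left _ h4)
      _ = _ := by rw [h3]; ring
  calc _ ≤ m0 * (2 * (N + 1)) ^ κ + (N + 1) ^ k0 * m0 * (k1 + 1) * (2 * (N + 1)) ^ κ :=
        Nat.add_le_add h6 h7
    _ = _ := by ring

/-- The function `η` of the embedding. -/
theorem exists_eta {K c α β κ₀ B₁ B₂ : ℝ} (hK : 0 < K) (hc : 0 < c) (hα : 0 < α) (hβ : 0 < β)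
    (hκ₀ : 0 < κ₀) (hB₁ : 0 ≤ B₁) (hB₂ : 0 ≤ B₂) :
    ∃ η : ℝ≥0 ≃ₜ ℝ≥0, ∀ t : ℝ≥0, ((η t : ℝ≥0) : ℝ) =
      K * ((κ₀ * t) ^ α + (κ₀ * t) ^ β + c * t * Real.exp (B₁ * Real.exp (B₂ * (c * t + 1)))) := by
  refine exists_homeo (g := fun t : ℝ => K * ((κ₀ * t) ^ α + (κ₀ * t) ^ β +
    c * t * Real.exp (B₁ * Real.exp (B₂ * (c * t + 1))))) ?_ ?_ ?_ ?_
  · apply Continuous.continuousOn
    refine continuous_const.mul (((Continuous.rpow_const (by fun_prop) ?_).add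
      (Continuous.rpow_const (by fun_prop) ?_)).add (by fun_prop))
    · exact fun _ => Or.inr hα.le
    · exact fun _ => Or.inr hβ.le
  · intro s hs t ht hst
    have hs0 : 0 ≤ s := hs
    have ht0 : 0 ≤ t := ht
    have h1 : (κ₀ * s) ^ α < (κ₀ * t) ^ α :=
      Real.rpow_lt_rpow (by positivity) (by gcongr) hα
    have h2 : (κ₀ * s) ^ β < (κ₀ * t) ^ β :=
      Real.rpow_lt_rpow (by positivity) (by gcongr) hβ
    have h3 : c * s * Real.exp (B₁ * Real.exp (B₂ * (c * s + 1))) ≤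
        c * t * Real.exp (B₁ * Real.exp (B₂ * (c * t + 1))) := by gcongr
    have h4 : (κ₀ * s) ^ α + (κ₀ * s) ^ β + c * s * Real.exp (B₁ * Real.exp (B₂ * (c * s + 1))) <
      (κ₀ * t) ^ α + (κ₀ * t) ^ β + c * t * Real.exp (B₁ * Real.exp (B₂ * (c * t + 1))) := by
      linarith
    exact mul_lt_mul_of_pos_left h4 hK
  · simp [Real.zero_rpow hα.ne', Real.zero_rpow hβ.ne']
  · have h1 : Tendsto (fun t : ℝ => K * (c * t)) atTop atTop :=
      (tendsto_id.const_mul_atTop hc).const_mul_atTop hK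
    refine tendsto_atTop_mono' _ ?_ h1
    filter_upwards [eventually_ge_atTop 0] with t ht
    have h2 : 0 ≤ (κ₀ * t) ^ α := Real.rpow_nonneg (by positivity) _
    have h3 : 0 ≤ (κ₀ * t) ^ β := Real.rpow_nonneg (by positivity) _
    have h4 : 1 ≤ Real.exp (B₁ * Real.exp (B₂ * (c * t + 1))) :=
      Real.one_le_exp (by positivity)
    have h5 : c * t * 1 ≤ c * t * Real.exp (B₁ * Real.exp (B₂ * (c * t + 1))) := by gcongr
    have h6 : c * t ≤ (κ₀ * t) ^ α + (κ₀ * t) ^ β +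
      c * t * Real.exp (B₁ * Real.exp (B₂ * (c * t + 1))) := by linarith
    gcongr

/-- Main theorem: quasisymmetric universality of `T_∞`. -/
theorem universality {T : Type*} [MetricSpace T] (hT : IsQuasiconformalTree T)
    (hsep : HasSeparatedBranchPoints T) :
    ∃ F : T → TInfty, IsQuasisymmetricEmbedding F := by
  obtain ⟨S, ⟨A⟩⟩ := exists_cellSys hT hsep
  obtain ⟨_, ⟨N, hN⟩, _⟩ := hT
  have hC := A.hC
  have hC0 : 0 < A.C := by linarith
  have hSK := S.hK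
  have hK2 := A.K2_ge
  have hθ0 := A.hθ0
  obtain ⟨k0, hk0⟩ := pow_unbounded_of_one_lt (4 * A.C ^ 4 * S.K) (one_lt_two (α := ℝ))
  obtain ⟨k1, hk1⟩ := pow_unbounded_of_one_lt (A.C ^ 5) (one_lt_two (α := ℝ))
  obtain ⟨m0, hm0⟩ := exists_pow_lt_of_lt_one (show (0 : ℝ) < 1 / 2 by norm_num) A.hθ1
  obtain ⟨α, hα, hθα⟩ := CellSys.exists_rpow_half hθ0 A.hθ1
  have hq0 : 0 < A.θ / A.C := by positivity
  have hq1 : A.θ / A.C < 1 := lt_of_le_of_lt (div_le_self hθ0.le hC) A.hθ1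
  obtain ⟨β, hβ, hθβ⟩ := CellSys.exists_rpow_half hq0 hq1
  set B₀ : ℕ := m0 + (N + 1) ^ k0 * m0 * (k1 + 1) with hB₀
  set b₂ : ℝ := 2 * (N + 1) with hb₂
  obtain ⟨η, hη⟩ := exists_eta (K := A.K2 ^ 2) (c := A.K2 ^ 2 * A.C ^ 2 * S.K) (α := α) (β := β)
    (κ₀ := A.K2 ^ 2 * S.K) (B₁ := B₀) (B₂ := b₂) (by positivity) (by positivity) hα hβ
    (by positivity) (by positivity) (by positivity)
  have hinj : Function.Injective A.F := by
    intro x y hxy
    by_contra hne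
    obtain ⟨p, hp1, hp2⟩ := A.exists_level hN hk0.le hne
    obtain ⟨l, _, h2, _⟩ := A.pair_cmp hp1 hp2 hne
    have h3 := h2.2
    rw [hxy, dist_self, mul_zero] at h3
    have h4 : 0 < len (A.addr x p) / 2 ^ l := by
      have := len_pos (A.addr x p)
      positivity
    linarith
  refine ⟨fun x => ⟨A.F x, A.F_mem x⟩, fun x y h => hinj (congrArg Subtype.val h), η, ?_⟩
  intro x a b t htab
  change dist (A.F x) (A.F a) ≤ η t * dist (A.F x) (A.F b)
  by_cases hxa : x = a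
  · subst hxa
    rw [dist_self]
    positivity
  by_cases hxb : x = b
  · subst hxb
    rw [dist_self, mul_zero] at htab
    exact absurd (dist_le_zero.1 htab) hxa
  have hρ : S.rho x a ≤ (S.K * t) * S.rho x b := by
    calc S.rho x a ≤ S.K * dist x a := S.rho_le x a
      _ ≤ S.K * (t * dist x b) := by gcongr
      _ ≤ S.K * (t * S.rho x b) := by
        have := S.dist_le_rho x b
        gcongr
      _ = _ := by ring
  have hmain := A.qs_main hN hk0.le hm0.le hk1.le hα hθα hβ hθβ hxa hxb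
    (t := S.K * t) (by positivity) hρ
  have e1 : A.K2 ^ 2 * (S.K * t) = A.K2 ^ 2 * S.K * t := by ring
  have e2 : A.K2 ^ 2 * A.C ^ 2 * (S.K * t) = A.K2 ^ 2 * A.C ^ 2 * S.K * t := by ring
  rw [e1, e2] at hmain
  rw [hη t]
  set d := dist (A.F x) (A.F b)
  have hd : 0 ≤ d := dist_nonneg
  have g1 : 0 ≤ (A.K2 ^ 2 * S.K * t) ^ α := Real.rpow_nonneg (by positivity) _
  have g2 : 0 ≤ (A.K2 ^ 2 * S.K * t) ^ β := Real.rpow_nonneg (by positivity) _
  set τ : ℝ := A.K2 ^ 2 * A.C ^ 2 * S.K * t with hτ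
  have hτ0 : 0 ≤ τ := by positivity
  have g3 : 0 ≤ τ * Real.exp (B₀ * Real.exp (b₂ * (τ + 1))) := by positivity
  have hKK : 0 < A.K2 ^ 2 := by positivity
  rcases hmain with h | h | ⟨h1, h⟩
  · refine h.trans ?_
    gcongr
    linarith
  · refine h.trans ?_
    gcongr
    linarith
  · refine h.trans ?_
    have h2 : (2 : ℝ) ^ (m0 * ⌈τ⌉₊ + CellSys.Psi N k0 m0 k1 ⌈τ⌉₊) ≤
        Real.exp (B₀ * Real.exp (b₂ * (τ + 1))) := by
      have h3 := Psi_bound N k0 m0 k1 ⌈τ⌉₊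
      have h4 : ((m0 * ⌈τ⌉₊ + CellSys.Psi N k0 m0 k1 ⌈τ⌉₊ : ℕ) : ℝ) ≤
          B₀ * (2 * (N + 1)) ^ ⌈τ⌉₊ := by
        calc ((m0 * ⌈τ⌉₊ + CellSys.Psi N k0 m0 k1 ⌈τ⌉₊ : ℕ) : ℝ)
            ≤ (((m0 + (N + 1) ^ k0 * m0 * (k1 + 1)) * (2 * (N + 1)) ^ ⌈τ⌉₊ : ℕ) : ℝ) := by
              exact_mod_cast h3
          _ = _ := by rw [hB₀]; push_cast; ring
      have h5 : ((2 : ℝ) * (N + 1)) ^ ⌈τ⌉₊ ≤ Real.exp (b₂ * (τ + 1)) := by
        calc ((2 : ℝ) * (N + 1)) ^ ⌈τ⌉₊ ≤ (Real.exp b₂) ^ ⌈τ⌉₊ := by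
              have : b₂ ≤ Real.exp b₂ := by linarith [Real.add_one_le_exp b₂]
              gcongr
          _ = Real.exp (⌈τ⌉₊ * b₂) := by rw [Real.exp_nat_mul]
          _ ≤ Real.exp (b₂ * (τ + 1)) := by
              apply Real.exp_le_exp.2
              have := (Nat.ceil_lt_add_one hτ0).le
              have hb0 : 0 ≤ b₂ := by positivity
              nlinarith
      calc (2 : ℝ) ^ (m0 * ⌈τ⌉₊ + CellSys.Psi N k0 m0 k1 ⌈τ⌉₊)
          ≤ (Real.exp 1) ^ (m0 * ⌈τ⌉₊ + CellSys.Psi N k0 m0 k1 ⌈τ⌉₊) := by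
            have : (2 : ℝ) ≤ Real.exp 1 := by linarith [Real.add_one_le_exp 1]
            gcongr
        _ = Real.exp ((m0 * ⌈τ⌉₊ + CellSys.Psi N k0 m0 k1 ⌈τ⌉₊ : ℕ) : ℝ) := by
            rw [← Real.exp_nat_mul, mul_one]
        _ ≤ Real.exp (B₀ * Real.exp (b₂ * (τ + 1))) := by
            apply Real.exp_le_exp.2
            refine h4.trans ?_
            gcongr
    have h3 : (2 : ℝ) ^ (m0 * ⌈τ⌉₊ + CellSys.Psi N k0 m0 k1 ⌈τ⌉₊) ≤
        τ * Real.exp (B₀ * Real.exp (b₂ * (τ + 1))) := by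
      refine h2.trans ?_
      have : 0 ≤ Real.exp (B₀ * Real.exp (b₂ * (τ + 1))) := (Real.exp_pos _).le
      nlinarith
    gcongr
    linarith

end Pool.Agent.QT
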