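import Pool.Agent.Helper11.QT.CellSys

/-!
# Addresses, the map `F` and the local comparison at cut points
-/

set_option autoImplicit false

open Set Metric Filter Topology

namespace Pool.Agent.QT

namespace CellSys

variable {T : Type*} [MetricSpace T] {S : ArcSys T} (A : CellSys S)

/-- The address of `x` up to level `n`. -/
def addr (x : T) : ℕ → List ℕ
  | 0 => []
  | (n + 1) => A.letter (addr x n) x :: addr x n

/-- The letters of the address of `x`. -/
def lets (x : T) (n : ℕ) : ℕ := A.letter (A.addr x n) x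

theorem addr_succ (x : T) (n : ℕ) : A.addr x (n + 1) = A.lets x n :: A.addr x n := rfl

theorem addr_eq (x : T) (n : ℕ) : pre (A.lets x) n = A.addr x n := by
  induction n with
  | zero => rfl
  | succ n ih => rw [pre, ih]; rfl

/-- The embedding, as a map into `ℓ¹`. -/
noncomputable def F (x : T) : EllOne := pt (A.lets x)

theorem F_mem (x : T) : A.F x ∈ TInfty := pt_mem_TInfty _

theorem F_mem_box (x : T) (n : ℕ) : A.F x ∈ box (A.addr x n) := by
  rw [← A.addr_eq]; exact pt_mem_box _ _

theorem dist_start_F (x : T) (n : ℕ) : dist (start (A.addr x n)) (A.F x) ≤ len (A.addr x n) := by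
  rw [← A.addr_eq]; exact dist_start_pt _ _

theorem dist_stop_F (x : T) (n : ℕ) : dist (stop (A.addr x n)) (A.F x) ≤ 2 * len (A.addr x n) := by
  have h1 := A.dist_start_F x n
  have h2 := dist_triangle_left (stop (A.addr x n)) (A.F x) (start (A.addr x n))
  rw [dist_start_stop] at h2
  linarith

theorem good_addr (x : T) (n : ℕ) : A.Good (A.addr x n) ∧ x ∈ A.X (A.addr x n) := by
  induction n with
  | zero => exact ⟨A.good_nil, A.X_nil x⟩
  | succ n ih => exact A.step ih.1 ih.2

theorem addr_length (x : T) (n : ℕ) : (A.addr x n).length = n := by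
  rw [← A.addr_eq, pre_length]

theorem addr_ne_nil (x : T) (n : ℕ) : A.addr x (n + 1) ≠ [] := by
  rw [addr_succ]; exact List.cons_ne_nil _ _

/-- Accumulated weight. -/
def wgt (x : T) (n : ℕ) : ℕ := ∑ i ∈ Finset.range n, wt (A.lets x i)

theorem wgt_succ (x : T) (n : ℕ) : A.wgt x (n + 1) = A.wgt x n + wt (A.lets x n) := by
  rw [wgt, wgt, Finset.sum_range_succ]

theorem wgt_mono (x : T) : Monotone (A.wgt x) :=
  monotone_nat_of_le_succ fun n => by rw [wgt_succ]; omega

theorem len_addr (x : T) (n : ℕ) : len (A.addr x n) = 2 / 2 ^ (A.wgt x n) := by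
  induction n with
  | zero => simp [addr, len, wgt]
  | succ n ih =>
    rw [addr_succ, len_cons, ih, wgt_succ, pow_add]
    field_simp

/-- Radius along an address. -/
def R (x : T) (n : ℕ) : ℝ := A.r (A.addr x n)

theorem R_pos (x : T) (n : ℕ) : 0 < A.R x n := A.r_pos (A.good_addr x n).1

/-- The adjacency letter. -/
def adj (k : ℕ) : ℕ := if k = 0 then 1 else 0

/-- The chain property: up to level `i` the address of `x` stays adjacent to the cut point of
level `p`. -/
def Chain (x : T) (p i : ℕ) : Prop := ∀ j, p + 1 ≤ j → j < i → A.lets x j = adj (A.lets x p)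

theorem Chain.mono {x : T} {p i j : ℕ} (h : A.Chain x p i) (hj : j ≤ i) : A.Chain x p j :=
  fun l h1 h2 => h l h1 (lt_of_lt_of_le h2 hj)

/-- What it means for the cell of level `i` to be adjacent to the cut point of level `p`. -/
def AdjAt (x : T) (p i : ℕ) : Prop :=
  (A.lets x p = 0 → A.HasE (A.addr x i) ∧ A.bdE (A.addr x i) = A.cut (A.addr x p) ∧
    stop (A.addr x i) = ctr (A.addr x p)) ∧
  (A.lets x p ≠ 0 → A.bdS (A.addr x i) = A.cut (A.addr x p) ∧
    start (A.addr x i) = ctr (A.addr x p))

theorem adjAt_of_chain {x : T} {p : ℕ} (m : ℕ) (h : A.Chain x p (p + 1 + m)) :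
    A.AdjAt x p (p + 1 + m) := by
  induction m with
  | zero =>
    have hg := (A.good_addr x (p + 1)).1
    rw [addr_succ] at hg
    constructor
    · intro h0
      rw [add_zero, addr_succ, h0]
      rw [h0] at hg
      exact ⟨(A.bd0 hg).1, (A.bd0 hg).2, stop_zero _⟩
    · intro h0
      rw [add_zero, addr_succ]
      generalize A.lets x p = k at *
      rcases k with _ | _ | k
      · exact absurd rfl h0
      · exact ⟨A.bd1 hg, start_one _⟩
      · exact ⟨A.bdk hg, start_side _ _⟩
  | succ m ih =>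
    have ih' := ih (h.mono A (by omega))
    have hl : A.lets x (p + 1 + m) = adj (A.lets x p) := h _ (by omega) (by omega)
    have hg := (A.good_addr x (p + 1 + m + 1)).1
    have e : p + 1 + (m + 1) = p + 1 + m + 1 := by ring
    rw [e]
    rw [addr_succ, hl] at hg
    constructor
    · intro h0
      have ea : adj (A.lets x p) = 1 := by simp [adj, h0]
      rw [addr_succ, hl, ea]
      rw [ea] at hg
      obtain ⟨i1, i2, i3⟩ := ih'.1 h0
      have := A.inhE hg i1
      exact ⟨this.1, this.2.trans i2, (stop_one _).trans i3⟩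
    · intro h0
      have ea : adj (A.lets x p) = 0 := by simp [adj, h0]
      rw [addr_succ, hl, ea]
      rw [ea] at hg
      obtain ⟨i1, i2⟩ := ih'.2 h0
      exact ⟨(A.inhS hg).trans i1, (start_zero _).trans i2⟩

theorem R_succ_le (x : T) (n : ℕ) : A.R x (n + 1) ≤ A.C * A.θ ^ (wt (A.lets x n)) * A.R x n :=
  A.r_le (A.good_addr x (n + 1)).1

theorem R_succ_ge (x : T) (n : ℕ) : A.θ ^ (wt (A.lets x n)) * A.R x n ≤ A.C * A.R x (n + 1) :=
  A.r_ge (A.good_addr x (n + 1)).1

/-- Comparison up to a factor. -/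
def Cmp (K a b : ℝ) : Prop := a ≤ K * b ∧ b ≤ K * a

theorem wgt_chain {x : T} {p : ℕ} (m : ℕ) (h : A.Chain x p (p + 1 + m)) :
    A.wgt x (p + 1 + m) = A.wgt x p + wt (A.lets x p) + m := by
  induction m with
  | zero => rw [add_zero, wgt_succ]; rfl
  | succ m ih =>
    have hl : A.lets x (p + 1 + m) = adj (A.lets x p) := h _ (by omega) (by omega)
    have e : p + 1 + (m + 1) = p + 1 + m + 1 := by ring
    rw [e, wgt_succ, ih (h.mono A (by omega)), hl]
    have : wt (adj (A.lets x p)) = 1 := by
      unfold adj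
      split_ifs <;> rfl
    rw [this]
    ring

/-- Radii along an adjacent chain decay exactly at rate `θ`. -/
theorem R_chain {x : T} {p : ℕ} (m : ℕ) (h : A.Chain x p (p + 1 + m)) :
    Cmp (A.C ^ 2) (A.R x (p + 1 + m)) (A.θ ^ (A.wgt x (p + 1 + m) - A.wgt x p) * A.R x p) := by
  have hC := A.hC
  have hθ0 := A.hθ0
  have hRp := A.R_pos x p
  have hCC : A.C ≤ A.C ^ 2 := by nlinarith
  have hw : A.wgt x (p + 1 + m) - A.wgt x p = wt (A.lets x p) + m := by
    rw [A.wgt_chain m h]; omega
  rw [hw]
  -- first step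
  have h1 := A.R_succ_le x p
  have h2 := A.R_succ_ge x p
  have hR1 := A.R_pos x (p + 1)
  have hP : 0 < A.θ ^ (wt (A.lets x p)) * A.R x p := by positivity
  match m, h with
  | 0, _ =>
    rw [add_zero, add_zero]
    constructor
    · calc A.R x (p + 1) ≤ A.C * (A.θ ^ (wt (A.lets x p)) * A.R x p) := by linarith
        _ ≤ A.C ^ 2 * (A.θ ^ (wt (A.lets x p)) * A.R x p) := by gcongr
    · calc _ ≤ A.C * A.R x (p + 1) := h2
        _ ≤ A.C ^ 2 * A.R x (p + 1) := by gcongr
  | (m + 1), h =>
    have key : ∀ m : ℕ, A.Chain x p (p + 1 + (m + 1)) →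
        Cmp (A.C ^ 2) (A.R x (p + 1 + (m + 1)))
          (A.θ ^ (wt (A.lets x p) + (m + 1)) * A.R x p) := by
      intro m
      induction m with
      | zero =>
        intro h
        have hl : A.lets x (p + 1) = adj (A.lets x p) := h _ (by omega) (by omega)
        have hw1 : wt (A.lets x (p + 1)) = 1 := by
          rw [hl]; unfold adj; split_ifs <;> rfl
        have h3 := A.R_succ_le x (p + 1)
        have h4 := A.R_succ_ge x (p + 1)
        rw [hw1, pow_one] at h3 h4
        have e : p + 1 + (0 + 1) = p + 1 + 1 := by ring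
        rw [e]
        have e2 : A.θ ^ (wt (A.lets x p) + (0 + 1)) * A.R x p =
            A.θ * (A.θ ^ (wt (A.lets x p)) * A.R x p) := by ring
        rw [e2]
        constructor
        · calc A.R x (p + 1 + 1) ≤ A.C * A.θ * A.R x (p + 1) := h3
            _ ≤ A.C * A.θ * (A.C * A.θ ^ (wt (A.lets x p)) * A.R x p) := by gcongr
            _ = _ := by ring
        · calc A.θ * (A.θ ^ (wt (A.lets x p)) * A.R x p)
              ≤ A.θ * (A.C * A.R x (p + 1)) := by gcongr
            _ = A.C * (A.θ * A.R x (p + 1)) := by ring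
            _ ≤ A.C * (A.C * A.R x (p + 1 + 1)) := by gcongr
            _ = _ := by ring
      | succ m ih =>
        intro h
        have ih' := ih (h.mono A (by omega))
        have hl1 : A.lets x (p + 1 + m) = adj (A.lets x p) := h _ (by omega) (by omega)
        have hl2 : A.lets x (p + 1 + m + 1) = adj (A.lets x p) := h _ (by omega) (by omega)
        have hg := (A.good_addr x (p + 1 + m + 1 + 1)).1
        have hex : A.R x (p + 1 + m + 1 + 1) = A.θ * A.R x (p + 1 + m + 1) := by
          have hadj := A.adjAt_of_chain m (h.mono A (by omega))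
          unfold R
          rw [A.addr_succ x (p + 1 + m + 1), A.addr_succ x (p + 1 + m), hl1, hl2] at hg ⊢
          by_cases h0 : A.lets x p = 0
          · have ea : adj (A.lets x p) = 1 := by simp [adj, h0]
            rw [ea] at hg ⊢
            exact A.exactE hg (hadj.1 h0).1
          · have ea : adj (A.lets x p) = 0 := by simp [adj, h0]
            rw [ea] at hg ⊢
            exact A.exactS hg
        have e : p + 1 + (m + 1 + 1) = p + 1 + m + 1 + 1 := by ring
        have e1 : p + 1 + (m + 1) = p + 1 + m + 1 := by ring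
        rw [e1] at ih'
        rw [e, hex]
        have e2 : A.θ ^ (wt (A.lets x p) + (m + 1 + 1)) * A.R x p =
            A.θ * (A.θ ^ (wt (A.lets x p) + (m + 1)) * A.R x p) := by ring
        rw [e2]
        constructor
        · calc A.θ * A.R x (p + 1 + m + 1)
              ≤ A.θ * (A.C ^ 2 * (A.θ ^ (wt (A.lets x p) + (m + 1)) * A.R x p)) :=
                mul_le_mul_of_nonneg_left ih'.1 hθ0.le
            _ = _ := by ring
        · calc A.θ * (A.θ ^ (wt (A.lets x p) + (m + 1)) * A.R x p)
              ≤ A.θ * (A.C ^ 2 * A.R x (p + 1 + m + 1)) :=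
                mul_le_mul_of_nonneg_left ih'.2 hθ0.le
            _ = _ := by ring
    exact key m h

/-- Radii comparison at level `i` relative to level `p`. -/
def Rad (x : T) (p i : ℕ) : Prop :=
  Cmp (A.C ^ 2) (A.R x i) (A.θ ^ (A.wgt x i - A.wgt x p) * A.R x p)

theorem rad_of_chain {x : T} {p i : ℕ} (hi : p < i) (h : A.Chain x p i) : A.Rad x p i := by
  obtain ⟨m, rfl⟩ := Nat.exists_eq_add_of_le (Nat.succ_le_of_lt hi)
  exact A.R_chain m h

theorem adjAt {x : T} {p i : ℕ} (hi : p < i) (h : A.Chain x p i) : A.AdjAt x p i := by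
  obtain ⟨m, rfl⟩ := Nat.exists_eq_add_of_le (Nat.succ_le_of_lt hi)
  exact A.adjAt_of_chain m h

/-- The cut point of level `p` lies in the adjacent cells. -/
theorem cut_mem_adj {x : T} {p i : ℕ} (hi : p < i) (h : A.Chain x p i) :
    A.cut (A.addr x p) ∈ A.X (A.addr x i) ∧
      A.letter (A.addr x i) (A.cut (A.addr x p)) = adj (A.lets x p) := by
  have hadj := A.adjAt hi h
  have hg := (A.good_addr x i).1
  have hne : A.addr x i ≠ [] := by
    obtain ⟨m, rfl⟩ := Nat.exists_eq_add_of_le (Nat.succ_le_of_lt hi)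
    rw [Nat.succ_add]
    exact A.addr_ne_nil x _
  by_cases h0 : A.lets x p = 0
  · have ea : adj (A.lets x p) = 1 := by simp [adj, h0]
    rw [ea, ← (hadj.1 h0).2.1]
    exact A.memE hg (hadj.1 h0).1
  · have ea : adj (A.lets x p) = 0 := by simp [adj, h0]
    rw [ea, ← (hadj.2 h0).1]
    exact A.memS hg hne

theorem rho_cut_le {x : T} {p i : ℕ} (hi : p < i) (h : A.Chain x p i) :
    S.rho x (A.cut (A.addr x p)) ≤ A.C * A.R x i :=
  A.rho_le (A.good_addr x i).1 (A.good_addr x i).2 (A.cut_mem_adj hi h).1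

theorem dist_ctr_le {x : T} {p i : ℕ} (hi : p < i) (h : A.Chain x p i) :
    dist (A.F x) (ctr (A.addr x p)) ≤ 2 * len (A.addr x i) := by
  have hadj := A.adjAt hi h
  have hl := len_pos (A.addr x i)
  by_cases h0 : A.lets x p = 0
  · rw [← (hadj.1 h0).2.2, dist_comm]
    exact A.dist_stop_F x i
  · rw [← (hadj.2 h0).2, dist_comm]
    have := A.dist_start_F x i
    linarith

theorem tendsto_len (x : T) : Tendsto (fun n => len (A.addr x n)) atTop (𝓝 0) := by
  have := len_pre_tendsto (A.lets x)
  simpa only [A.addr_eq] using this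

theorem wgt_ge (x : T) (p m : ℕ) : m ≤ A.wgt x (p + m) - A.wgt x p := by
  induction m with
  | zero => simp
  | succ m ih =>
    have h1 := A.wgt_mono x (show p ≤ p + m by omega)
    have h2 := one_le_wt (A.lets x (p + m))
    rw [← add_assoc, wgt_succ]
    omega

/-- Local comparison at the cut point of level `p`. -/
theorem local_cmp (x : T) (p : ℕ) :
    (x = A.cut (A.addr x p) ∧ A.F x = ctr (A.addr x p) ∧ ∀ i, p < i → A.Rad x p i) ∨
    ∃ J, p < J ∧ Cmp A.C (S.rho x (A.cut (A.addr x p))) (A.R x J) ∧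
      Cmp 2 (dist (A.F x) (ctr (A.addr x p))) (len (A.addr x J)) ∧
      ∀ i, p < i → i ≤ J → A.Rad x p i := by
  have hC := A.hC
  by_cases hall : ∀ j, p + 1 ≤ j → A.lets x j = adj (A.lets x p)
  · left
    have hch : ∀ i, A.Chain x p i := fun i j h1 _ => hall j h1
    have hrad : ∀ i, p < i → A.Rad x p i := fun i hi => A.rad_of_chain hi (hch i)
    refine ⟨?_, ?_, hrad⟩
    · apply S.eq_of_rho
      have h1 : ∀ m : ℕ, S.rho x (A.cut (A.addr x p)) ≤
          A.C * (A.C ^ 2 * A.R x p) * A.θ ^ m := by
        intro m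
        have h2 := A.rho_cut_le (x := x) (p := p) (i := p + (m + 1)) (by omega) (hch _)
        have h3 := (hrad (p + (m + 1)) (by omega)).1
        have h4 := A.wgt_ge x p (m + 1)
        have h5 : A.θ ^ (A.wgt x (p + (m + 1)) - A.wgt x p) ≤ A.θ ^ m :=
          pow_le_pow_of_le_one A.hθ0.le A.hθ1.le (by omega)
        have hRp := A.R_pos x p
        calc _ ≤ A.C * A.R x (p + (m + 1)) := h2
          _ ≤ A.C * (A.C ^ 2 * (A.θ ^ (A.wgt x (p + (m + 1)) - A.wgt x p) * A.R x p)) := by
            gcongr
          _ ≤ A.C * (A.C ^ 2 * (A.θ ^ m * A.R x p)) := by gcongr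
          _ = _ := by ring
      have h2 : Tendsto (fun m : ℕ => A.C * (A.C ^ 2 * A.R x p) * A.θ ^ m) atTop
          (𝓝 (A.C * (A.C ^ 2 * A.R x p) * 0)) :=
        (tendsto_pow_atTop_nhds_zero_of_lt_one A.hθ0.le A.hθ1).const_mul _
      rw [mul_zero] at h2
      exact ge_of_tendsto h2 (Eventually.of_forall h1)
    · rw [← dist_le_zero]
      have h1 : ∀ m : ℕ, dist (A.F x) (ctr (A.addr x p)) ≤ 2 * len (A.addr x (m + (p + 1))) :=
        fun m => A.dist_ctr_le (by omega) (hch _)
      have h2 := ((A.tendsto_len x).comp (tendsto_add_atTop_nat (p + 1))).const_mul 2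
      rw [mul_zero] at h2
      exact ge_of_tendsto h2 (Eventually.of_forall h1)
  · right
    push Not at hall
    classical
    have hex : ∃ j, p + 1 ≤ j ∧ A.lets x j ≠ adj (A.lets x p) := hall
    set J := Nat.find hex with hJ
    obtain ⟨hJ1, hJ2⟩ := Nat.find_spec hex
    rw [← hJ] at hJ1 hJ2
    have hch : A.Chain x p J := by
      intro j h1 h2
      by_contra h3
      exact Nat.find_min hex h2 ⟨h1, h3⟩
    have hpJ : p < J := by omega
    have hcm := A.cut_mem_adj hpJ hch
    have hadj := A.adjAt hpJ hch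
    have hg := (A.good_addr x J).1
    have hx := (A.good_addr x J).2
    have hs1 := A.step hg hx
    have hs2 := A.step hg hcm.1
    have hsep : A.cut (A.addr x J) ∈ S.arc x (A.cut (A.addr x p)) := by
      refine A.pairsep hs1.1 hs2.1 ?_ hs1.2 hs2.2
      rw [hcm.2]
      exact hJ2
    have hne : A.addr x J ≠ [] := by
      obtain ⟨m, hm⟩ := Nat.exists_eq_add_of_le (Nat.succ_le_of_lt hpJ)
      rw [hm, Nat.succ_add]
      exact A.addr_ne_nil x _
    refine ⟨J, hpJ, ⟨A.rho_cut_le hpJ hch, ?_⟩, ⟨A.dist_ctr_le hpJ hch, ?_⟩,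
      fun i h1 h2 => A.rad_of_chain h1 (hch.mono A h2)⟩
    · have h1 := S.rho_mono_right hsep
      have h2 : A.R x J ≤ A.C * S.rho (A.cut (A.addr x J)) (A.cut (A.addr x p)) := by
        by_cases h0 : A.lets x p = 0
        · rw [← (hadj.1 h0).2.1]
          exact A.farE hg (hadj.1 h0).1
        · rw [← (hadj.2 h0).1]
          exact A.farS hg hne
      refine h2.trans ?_
      have : 0 < A.C := by linarith
      gcongr
    · have hbox := A.F_mem_box x (J + 1)
      rw [addr_succ] at hbox
      by_cases h0 : A.lets x p = 0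
      · have ea : adj (A.lets x p) = 1 := by simp [adj, h0]
        rw [ea] at hJ2
        have := far_stop hJ2 hbox
        rw [← (hadj.1 h0).2.2]
        linarith
      · have ea : adj (A.lets x p) = 0 := by simp [adj, h0]
        rw [ea] at hJ2
        have := far_start hJ2 hbox
        rw [← (hadj.2 h0).2]
        linarith

end CellSys

end Pool.Agent.QT
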