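import Pool.Agent.Helper11.QT.Tree

/-!
# Diameters of branches, heights, one-sided cells, doubling, good points
-/

set_option autoImplicit false

open Set Metric Filter Topology

namespace Pool.Agent.QT

namespace ArcSys

variable {T : Type*} [MetricSpace T] (S : ArcSys T)

theorem median (x y z : T) : ∃ p, p ∈ S.arc x y ∧ p ∈ S.arc x z ∧ p ∈ S.arc y z := by
  have h := isPreconnected_closed_iff.1 (S.conn x y) (S.arc x z) (S.arc y z)
    (S.compact x z).isClosed (S.compact y z).isClosed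
    (by
      intro w hw
      rcases S.tri' z hw with h | h
      · exact Or.inl h
      · exact Or.inr (S.swap h))
    ⟨x, S.left x y, S.left x z⟩ ⟨y, S.right x y, S.left y z⟩
  obtain ⟨p, hp1, hp2, hp3⟩ := h
  exact ⟨p, hp1, hp2, hp3⟩

/-- The points separated from `n` by `o`. -/
def Out (o n : T) : Set T := {x | o ∈ S.arc x n}

theorem Out_sub_Br {o n q : T} (hq : q ∈ S.arc o n) (hqo : q ≠ o) : S.Out o n ⊆ S.Br q o := by
  intro x hx
  right
  intro h
  exact hqo (S.eq_of_mem hx (S.swap h) hq)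

theorem Out_sub_Out_left {o n z : T} (hz : z ∈ S.arc o n) (hzo : z ≠ o) :
    S.Out o n ⊆ S.Out o z := by
  intro x hx
  rcases S.tri' z hx with h | h
  · exact h
  · exact absurd (S.antisymm (S.swap h) (S.swap hz)) hzo

theorem Out_sub_Out_right {o n z : T} (hz : z ∈ S.arc o n) : S.Out n o ⊆ S.Out z o := by
  intro x hx
  exact S.swap (S.sub_left (S.swap hx) hz)

/-! ### One-sided cells -/

theorem mem_X2_of_Br {o y z x : T} (hz : z ∈ S.arc o y) (hzo : z ≠ o) (hx : x ∈ S.Br o y)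
    (h : z ∉ S.arc x o) : x ∈ S.X2 o z := by
  rcases hx with rfl | hx
  · exact S.left_mem_X2 _ _
  · right; right
    refine ⟨fun h3 => hx (S.swap (S.concat h3 hz (fun e => hzo e.symm))), h⟩

theorem not_mem_arc_of_between {o y z : T} (hz : z ∈ S.arc o y) (hzo : z ≠ o) :
    o ∉ S.arc z y := by
  intro h
  exact hzo (S.antisymm (S.swap h) (S.swap hz))

theorem X2_sub_Br {o y z : T} (hz : z ∈ S.arc o y) (hzo : z ≠ o) : S.X2 o z ⊆ S.Br o y := by
  have h0 := S.not_mem_arc_of_between hz hzo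
  rintro x (rfl | rfl | ⟨h1, h2⟩)
  · exact S.base_mem_Br _ _
  · exact Or.inr (S.nswap h0)
  · right
    intro h
    rcases S.tri' z h with h3 | h3
    · exact h0 (S.swap h3)
    · exact h1 (S.swap h3)

theorem Br_sub_Br {o y z : T} (hz : z ∈ S.arc o y) (hzo : z ≠ o) : S.Br z y ⊆ S.Br o y := by
  have h0 := S.not_mem_arc_of_between hz hzo
  rintro x (rfl | hx)
  · exact Or.inr (S.nswap h0)
  · right
    intro h
    exact hx (S.sub_left h (S.swap hz))

theorem sep_X2_Br {o y z x x' : T} (hz : z ∈ S.arc o y) (hzo : z ≠ o)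
    (hx : x ∈ S.X2 o z) (hx' : x' ∈ S.Br z y) : z ∈ S.arc x x' := by
  by_cases h1 : x = z
  · rw [h1]; exact S.left _ _
  have h3 := S.X2_not_mem hx h1 hzo
  rcases hx' with rfl | hx'
  · exact S.right _ _
  · rcases S.tri' x' hz with h | h
    · rcases S.tri' x h with h5 | h5
      · exact absurd (S.swap h5) h3
      · exact h5
    · exact absurd (S.swap h) hx'

theorem outside_X2 {o n x x' : T} (hx : x ∉ S.X2 o n) (hx' : x' ∈ S.X2 o n) :
    o ∈ S.arc x x' ∨ n ∈ S.arc x x' := by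
  by_cases h1 : o ∈ S.arc x n
  · left
    rcases hx' with rfl | rfl | ⟨h3, _⟩
    · exact S.right _ _
    · exact h1
    · rcases S.tri' x' h1 with h | h
      · exact h
      · exact absurd h h3
  · by_cases h2 : n ∈ S.arc x o
    · right
      rcases hx' with rfl | rfl | ⟨_, h3⟩
      · exact h2
      · exact S.right _ _
      · rcases S.tri' x' h2 with h | h
        · exact h
        · exact absurd h h3
    · exact absurd (Or.inr (Or.inr ⟨h1, h2⟩)) hx

theorem outside_Br {o y x x' : T} (hx : x ∉ S.Br o y) (hx' : x' ∈ S.Br o y) :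
    o ∈ S.arc x x' := by
  have h1 : o ∈ S.arc y x := by
    by_contra h
    exact hx (Or.inr h)
  rcases hx' with rfl | hx'
  · exact S.right _ _
  · rcases S.tri' x' h1 with h | h
    · exact absurd h hx'
    · exact S.swap h

theorem X2_Br_base {o y z : T} (hzo : z ≠ o) : o ∈ S.X2 o z ∧ z ∈ S.Br z y ∧ z ≠ o :=
  ⟨S.left_mem_X2 _ _, S.base_mem_Br _ _, hzo⟩

/-! ### Diameters -/

variable [CompactSpace T]

omit S in
theorem bddAll (A : Set T) : Bornology.IsBounded A :=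
  isCompact_univ.isBounded.subset (subset_univ A)

theorem rho_le_diam_univ (x y : T) : S.rho x y ≤ diam (univ : Set T) :=
  diam_mono (subset_univ _) (bddAll _)

theorem rho_le_diam_Br {q x y y' : T} (hy : y ∈ S.Br q x) (hy' : y' ∈ S.Br q x) :
    S.rho y y' ≤ diam (S.Br q x) :=
  diam_mono (S.arc_sub_Br hy hy') (bddAll _)

omit [CompactSpace T] in
theorem diam_Br_le {q x : T} {R : ℝ} (h : ∀ y ∈ S.Br q x, S.rho q y ≤ R) :
    diam (S.Br q x) ≤ 2 * R := by
  have h0 := h q (S.base_mem_Br _ _)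
  rw [S.rho_self] at h0
  refine diam_le_of_forall_dist_le (by positivity) fun y hy y' hy' => ?_
  have h1 := S.dist_le_rho y y'
  have h2 := S.rho_triangle y q y'
  have h3 := h y hy
  have h4 := h y' hy'
  rw [S.rho_comm y q] at h2
  linarith

theorem diam_Br_pos {q x : T} (hx : x ≠ q) : 0 < diam (S.Br q x) := by
  have h1 := S.rho_le_diam_Br (S.mem_Br_self hx) (S.base_mem_Br q x)
  have h2 := S.rho_pos hx
  linarith

/-! ### Heights -/

omit S in
theorem height_set_bdd (q : T) : BddAbove {h : ℝ | ∃ B₁ B₂ B₃ : Set T, IsBranch q B₁ ∧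
    IsBranch q B₂ ∧ IsBranch q B₃ ∧
    B₁ ≠ B₂ ∧ B₁ ≠ B₃ ∧ B₂ ≠ B₃ ∧ h ≤ diam B₁ ∧ h ≤ diam B₂ ∧ h ≤ diam B₃} := by
  refine ⟨diam (univ : Set T), ?_⟩
  rintro h ⟨B₁, B₂, B₃, _, _, _, _, _, _, h1, _, _⟩
  exact h1.trans (diam_mono (subset_univ _) (bddAll _))

theorem le_height {q x₁ x₂ x₃ : T} {d : ℝ} (h₁ : x₁ ≠ q) (h₂ : x₂ ≠ q) (h₃ : x₃ ≠ q)
    (h12 : q ∈ S.arc x₁ x₂) (h13 : q ∈ S.arc x₁ x₃) (h23 : q ∈ S.arc x₂ x₃)
    (d1 : d ≤ diam (S.Br q x₁)) (d2 : d ≤ diam (S.Br q x₂)) (d3 : d ≤ diam (S.Br q x₃)) :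
    d ≤ height q :=
  le_csSup (height_set_bdd q) ⟨S.Br q x₁, S.Br q x₂, S.Br q x₃, S.isBranch_Br h₁,
    S.isBranch_Br h₂, S.isBranch_Br h₃, S.Br_ne h12 h₁, S.Br_ne h13 h₁, S.Br_ne h23 h₂, d1, d2, d3⟩

omit [CompactSpace T] in
theorem branchPoint_of {q x₁ x₂ x₃ : T} (h₁ : x₁ ≠ q) (h₂ : x₂ ≠ q) (h₃ : x₃ ≠ q)
    (h12 : q ∈ S.arc x₁ x₂) (h13 : q ∈ S.arc x₁ x₃) (h23 : q ∈ S.arc x₂ x₃) :
    IsBranchPoint q :=
  ⟨S.Br q x₁, S.Br q x₂, S.Br q x₃, S.isBranch_Br h₁,
    S.isBranch_Br h₂, S.isBranch_Br h₃, S.Br_ne h12 h₁, S.Br_ne h13 h₁, S.Br_ne h23 h₂⟩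

include S in
theorem height_pos {q : T} (h : IsBranchPoint q) : 0 < height q := by
  obtain ⟨B₁, B₂, B₃, h1, h2, h3, h12, h13, h23⟩ := h
  obtain ⟨x₁, hx1, rfl⟩ := S.isBranch_iff.1 h1
  obtain ⟨x₂, hx2, rfl⟩ := S.isBranch_iff.1 h2
  obtain ⟨x₃, hx3, rfl⟩ := S.isBranch_iff.1 h3
  have p1 := S.diam_Br_pos hx1
  have p2 := S.diam_Br_pos hx2
  have p3 := S.diam_Br_pos hx3
  have : min (diam (S.Br q x₁)) (min (diam (S.Br q x₂)) (diam (S.Br q x₃))) ≤ height q :=
    S.le_height hx1 hx2 hx3 (S.mem_arc_of_Br_ne h12 hx1 hx2) (S.mem_arc_of_Br_ne h13 hx1 hx3)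
      (S.mem_arc_of_Br_ne h23 hx2 hx3) (min_le_left _ _)
      ((min_le_right _ _).trans (min_le_left _ _)) ((min_le_right _ _).trans (min_le_right _ _))
  exact lt_of_lt_of_le (lt_min p1 (lt_min p2 p3)) this

omit S in
theorem height_le_univ (q : T) : height q ≤ diam (univ : Set T) := by
  apply Real.sSup_le _ diam_nonneg
  rintro h ⟨B₁, B₂, B₃, _, _, _, _, _, _, h1, _, _⟩
  exact h1.trans (diam_mono (subset_univ _) (bddAll _))

theorem height_le_Br {o y q : T} (hq : q ∈ S.Br o y) (hqo : q ≠ o) :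
    height q ≤ diam (S.Br o y) := by
  apply Real.sSup_le _ diam_nonneg
  rintro h ⟨B₁, B₂, B₃, b1, b2, b3, h12, _, _, h1, h2, _⟩
  obtain ⟨x₁, hx1, rfl⟩ := S.isBranch_iff.1 b1
  obtain ⟨x₂, hx2, rfl⟩ := S.isBranch_iff.1 b2
  have hoq : o ∉ S.arc y q := by
    rcases hq with h | h
    · exact absurd h hqo
    · exact h
  have key : ∀ x, x ≠ q → o ∉ S.Br q x → S.Br q x ⊆ S.Br o y := by
    intro x hx ho
    rintro w (rfl | hw)
    · exact hq
    · right
      intro h3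
      have h4 : q ∈ S.arc x o := by
        by_contra h5
        exact ho (Or.inr h5)
      have h5 : q ∈ S.arc w o := by
        rcases S.tri' w h4 with h | h
        · exact absurd h hw
        · exact h
      exact hoq (S.swap (S.mid (S.swap h3) h5))
  by_cases ho1 : o ∈ S.Br q x₁
  · by_cases ho2 : o ∈ S.Br q x₂
    · exfalso
      apply h12
      rw [← S.Br_eq ho1 hx1 (fun e => hqo e.symm), ← S.Br_eq ho2 hx2 (fun e => hqo e.symm)]
    · exact h2.trans (diam_mono (key x₂ hx2 ho2) (bddAll _))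
  · exact h1.trans (diam_mono (key x₁ hx1 ho1) (bddAll _))

/-- Inside a cell between `o` and `n` whose complement is large on both sides, the side branches
at `q` are controlled by the height of `q`. -/
theorem side_le_height {o n q x : T} {c₂ D : ℝ} (hc₂ : c₂ ≤ 1) (hc0 : 0 ≤ c₂)
    (hq : q ∈ S.arc o n) (hqo : q ≠ o) (hqn : q ≠ n)
    (h1 : c₂ * D ≤ diam (S.Out o n)) (h2 : c₂ * D ≤ diam (S.Out n o))
    (hD : diam (S.Br q x) ≤ D) (hx : x ≠ q) (hxo : q ∈ S.arc x o) (hxn : q ∈ S.arc x n) :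
    c₂ * diam (S.Br q x) ≤ height q := by
  have hp : 0 ≤ diam (S.Br q x) := diam_nonneg
  have h3 : c₂ * diam (S.Br q x) ≤ c₂ * D := by gcongr
  refine S.le_height (fun e => hqo e.symm) (fun e => hqn e.symm) hx hq (S.swap hxo) (S.swap hxn)
    (h3.trans (h1.trans ?_)) (h3.trans (h2.trans ?_)) ?_
  · exact diam_mono (S.Out_sub_Br hq hqo) (bddAll _)
  · exact diam_mono (S.Out_sub_Br (S.swap hq) hqn) (bddAll _)
  · nlinarith

/-- The cell between `o` and `n` has diameter comparable with `rho o n`. -/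
theorem rho_le_of_X2 {o n x : T} {c₂ D lam : ℝ} (hc₂ : c₂ ≤ 1) (hc0 : 0 < c₂) (hl : 0 < lam)
    (h1 : c₂ * D ≤ diam (S.Out o n)) (h2 : c₂ * D ≤ diam (S.Out n o))
    (hD : diam (S.X2 o n) ≤ D)
    (hI : ∀ q ∈ S.arc o n, q ≠ o → q ≠ n → IsBranchPoint q → lam * height q ≤ S.rho o q)
    (hx : x ∈ S.X2 o n) : S.rho o x ≤ (1 + 1 / (lam * c₂)) * S.rho o n := by
  obtain ⟨p, hp1, hp2, hp3⟩ := S.median o n x
  have hon : 0 ≤ S.rho o n := S.rho_nonneg _ _
  have hfac : 0 < 1 / (lam * c₂) := by positivity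
  by_cases hpx : p = x
  · subst hpx
    have := S.rho_mono_left hp1
    nlinarith
  by_cases hpo : p = o
  · subst hpo
    rcases hx with rfl | rfl | ⟨h3, _⟩
    · exact absurd rfl hpx
    · nlinarith
    · exact absurd (S.swap hp3) h3
  by_cases hpn : p = n
  · subst hpn
    rcases hx with rfl | rfl | ⟨_, h3⟩
    · rw [S.rho_self]; positivity
    · exact absurd rfl hpx
    · exact absurd (S.swap hp2) h3
  have hxp : x ≠ p := fun e => hpx e.symm
  have hbr : IsBranchPoint p := S.branchPoint_of (fun e => hpo e.symm) (fun e => hpn e.symm)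
    hxp hp1 hp2 hp3
  have hside := S.side_sub hp1 hpo hpn (S.swap hp2) (S.swap hp3) hxp
  have hd : diam (S.Br p x) ≤ D := (diam_mono hside (bddAll _)).trans hD
  have h4 := S.side_le_height hc₂ hc0.le hp1 hpo hpn h1 h2 hd hxp (S.swap hp2) (S.swap hp3)
  have h5 := hI p hp1 hpo hpn hbr
  have h6 := S.rho_le_diam_Br (S.base_mem_Br p x) (S.mem_Br_self hxp)
  have h7 := S.rho_mono_left hp1
  have h8 := S.rho_triangle o p x
  have h9 : S.rho p x * (lam * c₂) ≤ S.rho o n := by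
    calc S.rho p x * (lam * c₂) ≤ diam (S.Br p x) * (lam * c₂) := by gcongr
      _ = lam * (c₂ * diam (S.Br p x)) := by ring
      _ ≤ lam * height p := by gcongr
      _ ≤ S.rho o n := h5.trans h7
  have h10 : S.rho p x ≤ 1 / (lam * c₂) * S.rho o n := by
    rw [one_div, inv_mul_eq_div, le_div_iff₀ (by positivity)]
    exact h9
  linarith

end ArcSys

/-! ### Doubling -/

section doubling

variable {T : Type*} [MetricSpace T]

theorem doubling_iter {N : ℕ} (hN : ∀ (x : T) (r : ℝ), 0 < r →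
    ∃ s : Finset T, s.card ≤ N ∧ ball x r ⊆ ⋃ y ∈ s, ball y (r / 2)) (k : ℕ) :
    ∀ (x : T) (r : ℝ), 0 < r →
      ∃ s : Finset T, s.card ≤ N ^ k ∧ ball x r ⊆ ⋃ y ∈ s, ball y (r / 2 ^ k) := by
  classical
  induction k with
  | zero =>
    intro x r _
    refine ⟨{x}, by simp, ?_⟩
    simp
  | succ k ih =>
    intro x r hr
    obtain ⟨s, hs, hsub⟩ := ih x r hr
    have h2 : ∀ y : T, ∃ t : Finset T, t.card ≤ N ∧
        ball y (r / 2 ^ k) ⊆ ⋃ w ∈ t, ball w (r / 2 ^ k / 2) :=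
      fun y => hN y _ (by positivity)
    choose t ht1 ht2 using h2
    refine ⟨s.biUnion t, ?_, ?_⟩
    · calc (s.biUnion t).card ≤ s.card * N := Finset.card_biUnion_le_card_mul _ _ _
            (fun y _ => ht1 y)
        _ ≤ N ^ k * N := Nat.mul_le_mul_right _ hs
        _ = N ^ (k + 1) := (pow_succ _ _).symm
    · intro w hw
      obtain ⟨y, hy, hwy⟩ := mem_iUnion₂.1 (hsub hw)
      obtain ⟨v, hv, hwv⟩ := mem_iUnion₂.1 (ht2 y hwy)
      refine mem_iUnion₂.2 ⟨v, Finset.mem_biUnion.2 ⟨y, hy, hv⟩, ?_⟩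
      rw [pow_succ, ← div_div]
      exact hwv

theorem sep_card {N : ℕ} (hN : ∀ (x : T) (r : ℝ), 0 < r →
    ∃ s : Finset T, s.card ≤ N ∧ ball x r ⊆ ⋃ y ∈ s, ball y (r / 2)) {k : ℕ} {x : T} {r ε : ℝ}
    (hr : 0 < r) (hk : 2 * r ≤ ε * 2 ^ k) {s : Finset T} (hs : ∀ p ∈ s, dist p x < r)
    (hsep : ∀ p ∈ s, ∀ q ∈ s, p ≠ q → ε ≤ dist p q) : s.card ≤ N ^ k := by
  obtain ⟨t, ht, hsub⟩ := doubling_iter hN k x r hr
  have h1 : ∀ p ∈ s, ∃ y ∈ t, dist p y < r / 2 ^ k := by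
    intro p hp
    obtain ⟨y, hy, hpy⟩ := mem_iUnion₂.1 (hsub (hs p hp))
    exact ⟨y, hy, hpy⟩
  classical
  choose! f hf1 hf2 using h1
  refine (Finset.card_le_card_of_injOn f hf1 ?_).trans ht
  intro p hp q hq hpq
  by_contra hne
  have h3 := hsep p hp q hq hne
  have h4 := hf2 p hp
  have h5 := hf2 q hq
  rw [← hpq] at h5
  have h6 := dist_triangle_right p q (f p)
  have h7 : r / 2 ^ k + r / 2 ^ k ≤ ε := by
    rw [← add_div, div_le_iff₀ (by positivity)]
    linarith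
  linarith

end doubling

end Pool.Agent.QT
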