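import Pool.Agent.Helper11.QT.QS1
import Pool.Agent.Helper11.QT.Tree2

/-!
# Comparison of pairs, growth bounds
-/

set_option autoImplicit false

open Set Metric Filter Topology

namespace Pool.Agent.QT

namespace CellSys

theorem Cmp.trans {K K' a b c : ℝ} (hK : 0 ≤ K) (hK' : 0 ≤ K') (h : Cmp K a b)
    (h' : Cmp K' b c) : Cmp (K * K') a c := by
  constructor
  · calc a ≤ K * b := h.1
      _ ≤ K * (K' * c) := mul_le_mul_of_nonneg_left h'.1 hK
      _ = _ := by ring
  · calc c ≤ K' * b := h'.2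
      _ ≤ K' * (K * a) := mul_le_mul_of_nonneg_left h.2 hK'
      _ = _ := by ring

theorem Cmp.mono {K K' a b : ℝ} (h : Cmp K a b) (hK : K ≤ K') (ha : 0 ≤ a) (hb : 0 ≤ b) :
    Cmp K' a b :=
  ⟨h.1.trans (mul_le_mul_of_nonneg_right hK hb), h.2.trans (mul_le_mul_of_nonneg_right hK ha)⟩

theorem Cmp.symm {K a b : ℝ} (h : Cmp K a b) : Cmp K b a := ⟨h.2, h.1⟩

variable {T : Type*} [MetricSpace T] {S : ArcSys T} (A : CellSys S)

/-- The constant of the pair comparison. -/
noncomputable def K1 : ℝ := 2 * A.C ^ 3 + 2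

theorem K1_ge4 : 4 ≤ A.K1 := by
  have := one_le_pow₀ A.hC (n := 3)
  unfold K1; linarith

theorem K1_geC : 2 * A.C ^ 3 ≤ A.K1 := by unfold K1; linarith

theorem K1_geC2 : A.C ^ 2 ≤ A.K1 := by
  have h1 : A.C ^ 2 ≤ A.C ^ 3 := pow_le_pow_right₀ A.hC (by norm_num)
  have h2 := one_le_pow₀ A.hC (n := 3)
  unfold K1; linarith

theorem pair_cmp {x y : T} {p : ℕ} (hw : A.addr x p = A.addr y p)
    (hl : A.lets x p ≠ A.lets y p) (hxy : x ≠ y) :
    ∃ l : ℕ, Cmp A.K1 (S.rho x y) (A.θ ^ l * A.R x p) ∧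
      Cmp A.K1 (dist (A.F x) (A.F y)) (len (A.addr x p) / 2 ^ l) ∧
      ((∀ i, p < i → A.Rad x p i) ∨ ∃ J, p < J ∧ l ≤ A.wgt x J - A.wgt x p ∧
        ∀ i, p < i → i ≤ J → A.Rad x p i) := by
  have hC := A.hC
  have hC0 : 0 < A.C := by linarith
  have hθ0 := A.hθ0
  have hK4 := A.K1_ge4
  have hKC := A.K1_geC
  have hRp := A.R_pos x p
  have hRxy : A.R y p = A.R x p := by unfold R; rw [hw]
  have hgx := A.good_addr x p
  have hgy := A.good_addr y p
  have hsx := A.good_addr x (p + 1)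
  have hsy := A.good_addr y (p + 1)
  rw [addr_succ] at hsx hsy
  rw [← hw] at hsy
  have hsep : A.cut (A.addr x p) ∈ S.arc x y := A.pairsep hsx.1 hsy.1 hl hsx.2 hsy.2
  have hboxx := A.F_mem_box x (p + 1)
  have hboxy := A.F_mem_box y (p + 1)
  rw [addr_succ] at hboxx hboxy
  rw [← hw] at hboxy
  have hdist := box_dist hl hboxx hboxy
  set m := A.cut (A.addr x p) with hm
  set cc := ctr (A.addr x p) with hcc
  have hmy : A.cut (A.addr y p) = m := by rw [← hw]
  have hcy : ctr (A.addr y p) = cc := by rw [← hw]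
  -- comparison for one point
  have key : ∀ {z : T} {J : ℕ}, A.addr z p = A.addr x p → p < J →
      Cmp A.C (S.rho z m) (A.R z J) → Cmp 2 (dist (A.F z) cc) (len (A.addr z J)) →
      A.Rad z p J →
      Cmp (A.C ^ 3) (S.rho z m) (A.θ ^ (A.wgt z J - A.wgt z p) * A.R x p) ∧
      Cmp 2 (dist (A.F z) cc) (len (A.addr x p) / 2 ^ (A.wgt z J - A.wgt z p)) := by
    intro z J hz hJ h1 h2 h3
    constructor
    · have h4 := h1.trans hC0.le (by positivity) h3
      have e : A.R z p = A.R x p := by unfold R; rw [hz]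
      rw [e] at h4
      have e2 : A.C * A.C ^ 2 = A.C ^ 3 := by ring
      rwa [e2] at h4
    · have h4 := A.wgt_mono z hJ.le
      have e : len (A.addr z J) = len (A.addr x p) / 2 ^ (A.wgt z J - A.wgt z p) := by
        rw [← hz, A.len_addr z J, A.len_addr z p, div_div, ← pow_add, Nat.add_sub_cancel' h4]
      rwa [e] at h2
  have hLp := len_pos (A.addr x p)
  rcases A.local_cmp x p with ⟨x1, x2, x3⟩ | ⟨J, hJ, x1, x2, x3⟩
  · rcases A.local_cmp y p with ⟨y1, y2, y3⟩ | ⟨J', hJ', y1, y2, y3⟩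
    · exact absurd ((x1.trans hmy.symm).trans y1.symm) hxy
    · rw [hmy] at y1
      rw [hcy] at y2
      have hk := key hw.symm hJ' y1 y2 (y3 J' hJ' le_rfl)
      refine ⟨A.wgt y J' - A.wgt y p, ?_, ?_, Or.inl x3⟩
      · rw [← hm] at x1
        have e : S.rho x y = S.rho y m := by
          conv_lhs => rw [x1]
          exact S.rho_comm _ _
        rw [e]
        exact hk.1.mono (by linarith [pow_pos hC0 3]) (S.rho_nonneg _ _) (by positivity)
      · rw [← hcc] at x2
        rw [x2, dist_comm]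
        exact hk.2.mono (by linarith) dist_nonneg (by positivity)
  · rw [← hm] at x1
    rw [← hcc] at x2
    have hkx := key rfl hJ x1 x2 (x3 J hJ le_rfl)
    rcases A.local_cmp y p with ⟨y1, y2, y3⟩ | ⟨J', hJ', y1, y2, y3⟩
    · rw [hmy] at y1
      rw [hcy] at y2
      refine ⟨A.wgt x J - A.wgt x p, ?_, ?_, Or.inr ⟨J, hJ, le_rfl, x3⟩⟩
      · have e : S.rho x y = S.rho x m := by
          conv_lhs => rw [y1]
        rw [e]
        exact hkx.1.mono (by linarith [pow_pos hC0 3]) (S.rho_nonneg _ _) (by positivity)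
      · rw [y2]
        exact hkx.2.mono (by linarith) dist_nonneg (by positivity)
    · rw [hmy] at y1
      rw [hcy] at y2
      have hky := key hw.symm hJ' y1 y2 (y3 J' hJ' le_rfl)
      set lx := A.wgt x J - A.wgt x p
      set ly := A.wgt y J' - A.wgt y p
      have hr1 := S.rho_triangle x m y
      have hr2 := S.rho_mono_left hsep
      have hr3 := S.rho_mono_right hsep
      rw [S.rho_comm m y] at hr1 hr3
      have hmx : A.θ ^ lx ≤ A.θ ^ (min lx ly) :=
        pow_le_pow_of_le_one hθ0.le A.hθ1.le (min_le_left _ _)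
      have hmy' : A.θ ^ ly ≤ A.θ ^ (min lx ly) :=
        pow_le_pow_of_le_one hθ0.le A.hθ1.le (min_le_right _ _)
      have h2x : (2 : ℝ) ^ (min lx ly) ≤ 2 ^ lx := pow_le_pow_right₀ (by norm_num) (min_le_left _ _)
      have h2y : (2 : ℝ) ^ (min lx ly) ≤ 2 ^ ly :=
        pow_le_pow_right₀ (by norm_num) (min_le_right _ _)
      refine ⟨min lx ly, ⟨?_, ?_⟩, ⟨?_, ?_⟩, Or.inr ⟨J, hJ, min_le_left _ _, x3⟩⟩
      · calc S.rho x y ≤ S.rho x m + S.rho y m := hr1
          _ ≤ A.C ^ 3 * (A.θ ^ lx * A.R x p) + A.C ^ 3 * (A.θ ^ ly * A.R x p) :=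
            add_le_add hkx.1.1 hky.1.1
          _ ≤ A.C ^ 3 * (A.θ ^ (min lx ly) * A.R x p) +
              A.C ^ 3 * (A.θ ^ (min lx ly) * A.R x p) := by gcongr
          _ = 2 * A.C ^ 3 * (A.θ ^ (min lx ly) * A.R x p) := by ring
          _ ≤ A.K1 * (A.θ ^ (min lx ly) * A.R x p) := by gcongr
      · have hb : A.C ^ 3 * S.rho x y ≤ A.K1 * S.rho x y := by
          have := S.rho_nonneg x y
          have : 0 < A.C ^ 3 := by positivity
          gcongr
          linarith
        rcases min_choice lx ly with h | h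
        · rw [h]
          calc _ ≤ A.C ^ 3 * S.rho x m := hkx.1.2
            _ ≤ A.C ^ 3 * S.rho x y := by gcongr
            _ ≤ _ := hb
        · rw [h]
          calc _ ≤ A.C ^ 3 * S.rho y m := hky.1.2
            _ ≤ A.C ^ 3 * S.rho x y := by gcongr
            _ ≤ _ := hb
      · rw [hdist, dist_comm cc]
        calc dist (A.F x) cc + dist (A.F y) cc
            ≤ 2 * (len (A.addr x p) / 2 ^ lx) + 2 * (len (A.addr x p) / 2 ^ ly) :=
              add_le_add hkx.2.1 hky.2.1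
          _ ≤ 2 * (len (A.addr x p) / 2 ^ (min lx ly)) +
              2 * (len (A.addr x p) / 2 ^ (min lx ly)) := by gcongr
          _ = 4 * (len (A.addr x p) / 2 ^ (min lx ly)) := by ring
          _ ≤ A.K1 * (len (A.addr x p) / 2 ^ (min lx ly)) := by gcongr
      · rw [hdist, dist_comm cc]
        have hn1 : 0 ≤ dist (A.F x) cc := dist_nonneg
        have hn2 : 0 ≤ dist (A.F y) cc := dist_nonneg
        rcases min_choice lx ly with h | h
        · rw [h]
          have := hkx.2.2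
          nlinarith
        · rw [h]
          have := hky.2.2
          nlinarith

/-! ### Separation of the cut points along an address -/

/-- `m` is not an interior point of the cell `u`. -/
def NotInt (m : T) (u : List ℕ) : Prop :=
  m ∉ A.X u ∨ (u ≠ [] ∧ m = A.bdS u) ∨ (A.HasE u ∧ m = A.bdE u)

theorem rho_bdS_pos {u : List ℕ} (hu : A.Good u) (hne : u ≠ []) :
    A.cut u ≠ A.bdS u := by
  intro h
  have h1 := A.farS hu hne
  rw [h, S.rho_self] at h1
  have := A.r_pos hu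
  linarith

theorem rho_bdE_pos {u : List ℕ} (hu : A.Good u) (hE : A.HasE u) :
    A.cut u ≠ A.bdE u := by
  intro h
  have h1 := A.farE hu hE
  rw [h, S.rho_self] at h1
  have := A.r_pos hu
  linarith

theorem notInt_cons {m : T} {u : List ℕ} {k : ℕ} (hg : A.Good (k :: u)) (h : A.NotInt m u) :
    A.NotInt m (k :: u) := by
  have hu := A.good_tail hg
  rcases h with h | ⟨hne, h⟩ | ⟨hE, h⟩
  · exact Or.inl fun h1 => h (A.sub hg h1)
  · by_cases hk : k = 0
    · subst hk
      exact Or.inr (Or.inl ⟨List.cons_ne_nil _ _, by rw [A.inhS hg, h]⟩)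
    · left
      intro h1
      obtain ⟨h2, h3⟩ := A.memS hu hne
      have h4 := A.step hu h2
      rw [h3] at h4
      rw [← h] at h4
      have h5 := A.pairsep hg h4.1 hk h1 h4.2
      have h6 := S.eq_of_mem_self h5
      exact A.rho_bdS_pos hu hne (h6.trans h)
  · by_cases hk : k = 1
    · subst hk
      have := A.inhE hg hE
      exact Or.inr (Or.inr ⟨this.1, by rw [this.2, h]⟩)
    · left
      intro h1
      obtain ⟨h2, h3⟩ := A.memE hu hE
      have h4 := A.step hu h2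
      rw [h3] at h4
      rw [← h] at h4
      have h5 := A.pairsep hg h4.1 hk h1 h4.2
      have h6 := S.eq_of_mem_self h5
      exact A.rho_bdE_pos hu hE (h6.trans h)

theorem notInt_cut {u : List ℕ} {k : ℕ} (hg : A.Good (k :: u)) :
    A.NotInt (A.cut u) (k :: u) := by
  rcases k with _ | _ | k
  · exact Or.inr (Or.inr ⟨(A.bd0 hg).1, (A.bd0 hg).2.symm⟩)
  · exact Or.inr (Or.inl ⟨List.cons_ne_nil _ _, (A.bd1 hg).symm⟩)
  · exact Or.inr (Or.inl ⟨List.cons_ne_nil _ _, (A.bdk hg).symm⟩)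

theorem notInt_addr (x : T) (i m : ℕ) :
    A.NotInt (A.cut (A.addr x i)) (A.addr x (i + 1 + m)) := by
  induction m with
  | zero =>
    have := (A.good_addr x (i + 1)).1
    rw [add_zero, addr_succ]
    rw [addr_succ] at this
    exact A.notInt_cut this
  | succ m ih =>
    have := (A.good_addr x (i + 1 + m + 1)).1
    rw [← add_assoc, addr_succ]
    rw [addr_succ] at this
    exact A.notInt_cons this ih

theorem sep_cut {x : T} {i j : ℕ} (h : i < j) :
    A.R x j ≤ A.C * S.rho (A.cut (A.addr x i)) (A.cut (A.addr x j)) := by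
  obtain ⟨m, rfl⟩ := Nat.exists_eq_add_of_le (Nat.succ_le_of_lt h)
  have hC0 : 0 < A.C := by linarith [A.hC]
  have hni := A.notInt_addr x i m
  have hg := (A.good_addr x (i + 1 + m)).1
  have hcm := A.cut_mem hg
  change A.NotInt (A.cut (A.addr x i)) (A.addr x (i.succ + m)) at hni
  change A.Good (A.addr x (i.succ + m)) at hg
  change A.cut (A.addr x (i.succ + m)) ∈ A.X (A.addr x (i.succ + m)) at hcm
  rcases hni with h1 | ⟨hne, h1⟩ | ⟨hE, h1⟩
  · rcases A.outside hg h1 hcm with ⟨hne, h2⟩ | ⟨hE, h2⟩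
    · have h3 := S.rho_mono_right h2
      have h4 := A.farS hg hne
      rw [S.rho_comm] at h4
      exact h4.trans (by gcongr)
    · have h3 := S.rho_mono_right h2
      have h4 := A.farE hg hE
      rw [S.rho_comm] at h4
      exact h4.trans (by gcongr)
  · rw [h1, S.rho_comm]
    exact A.farS hg hne
  · rw [h1, S.rho_comm]
    exact A.farE hg hE

theorem X_anti (x : T) (i m : ℕ) : A.X (A.addr x (i + m)) ⊆ A.X (A.addr x i) := by
  induction m with
  | zero => exact subset_rfl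
  | succ m ih =>
    have := (A.good_addr x (i + m + 1)).1
    rw [← add_assoc, addr_succ]
    rw [addr_succ] at this
    exact (A.sub this).trans ih

theorem R_mono (x : T) (i m : ℕ) : A.R x (i + m) ≤ A.C ^ 2 * A.R x i := by
  have hC0 : 0 < A.C := by linarith [A.hC]
  obtain ⟨u, hu, v, hv, h⟩ := A.spread (A.good_addr x (i + m)).1
  have h1 := A.rho_le (A.good_addr x i).1 (A.X_anti x i m hu) (A.X_anti x i m hv)
  calc A.R x (i + m) ≤ A.C * S.rho u v := h
    _ ≤ A.C * (A.C * A.R x i) := mul_le_mul_of_nonneg_left h1 hC0.le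
    _ = _ := by ring

theorem chain_count {N k0 : ℕ} (hN : ∀ (x : T) (r : ℝ), 0 < r →
    ∃ s : Finset T, s.card ≤ N ∧ ball x r ⊆ ⋃ y ∈ s, ball y (r / 2))
    (hk0 : 4 * A.C ^ 4 * S.K ≤ 2 ^ k0) {x : T} {i n κ : ℕ}
    (h : A.R x i ≤ 2 ^ κ * A.R x (i + n)) : n ≤ N ^ (κ + k0) := by
  classical
  have hC := A.hC
  have hC0 : 0 < A.C := by linarith
  have hK := S.hK
  have hK0 : 0 < S.K := by linarith
  have hRi := A.R_pos x i
  have hRn := A.R_pos x (i + n)
  set z : ℕ → T := fun j => A.cut (A.addr x (i + j)) with hz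
  have hsep : ∀ {j l : ℕ}, j < l → l < n →
      A.R x (i + n) / (A.C ^ 3 * S.K) ≤ dist (z j) (z l) := by
    intro j l hjl hln
    have h1 := A.sep_cut (x := x) (i := i + j) (j := i + l) (by omega)
    have h2 : A.R x (i + n) ≤ A.C ^ 2 * A.R x (i + l) := by
      have := A.R_mono x (i + l) (n - l)
      have e : i + l + (n - l) = i + n := by omega
      rwa [e] at this
    have h3 := S.rho_le (z j) (z l)
    rw [div_le_iff₀ (by positivity)]
    calc A.R x (i + n) ≤ A.C ^ 2 * A.R x (i + l) := h2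
      _ ≤ A.C ^ 2 * (A.C * S.rho (z j) (z l)) := by gcongr
      _ ≤ A.C ^ 2 * (A.C * (S.K * dist (z j) (z l))) := by gcongr
      _ = _ := by ring
  have hpos : 0 < A.R x (i + n) / (A.C ^ 3 * S.K) := by positivity
  have hsep' : ∀ {j l : ℕ}, j ≠ l → j < n → l < n →
      A.R x (i + n) / (A.C ^ 3 * S.K) ≤ dist (z j) (z l) := by
    intro j l hne hj hl
    rcases lt_or_gt_of_ne hne with h1 | h1
    · exact hsep h1 hl
    · rw [dist_comm]; exact hsep h1 hj
  have hinj : Set.InjOn z (Finset.range n : Set ℕ) := by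
    intro j hj l hl hjl
    by_contra hne
    have h1 := hsep' hne (Finset.mem_range.1 hj) (Finset.mem_range.1 hl)
    rw [hjl, dist_self] at h1
    linarith
  have hcard : ((Finset.range n).image z).card = n := by
    rw [Finset.card_image_of_injOn hinj, Finset.card_range]
  rw [← hcard]
  refine sep_card (x := z 0) (r := 2 * A.C * A.R x i)
    (ε := A.R x (i + n) / (A.C ^ 3 * S.K)) hN (by positivity) ?_ ?_ ?_
  · rw [pow_add]
    have e1 : 2 * (2 * A.C * A.R x i) ≤ 4 * A.C * (2 ^ κ * A.R x (i + n)) := by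
      have : 4 * A.C * A.R x i ≤ 4 * A.C * (2 ^ κ * A.R x (i + n)) := by gcongr
      linarith
    refine e1.trans ?_
    have e2 : 4 * A.C * (2 ^ κ * A.R x (i + n)) =
        A.R x (i + n) / (A.C ^ 3 * S.K) * (2 ^ κ * (4 * A.C ^ 4 * S.K)) := by
      field_simp
    rw [e2]
    gcongr
  · intro w hw
    obtain ⟨j, hj, rfl⟩ := Finset.mem_image.1 hw
    have h1 : z j ∈ A.X (A.addr x i) := A.X_anti x i j (A.cut_mem (A.good_addr x (i + j)).1)
    have h2 : z 0 ∈ A.X (A.addr x i) := A.X_anti x i 0 (A.cut_mem (A.good_addr x (i + 0)).1)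
    have h3 := A.rho_le (A.good_addr x i).1 h1 h2
    have h4 := S.dist_le_rho (z j) (z 0)
    have h5 : 0 < A.C * A.R x i := by positivity
    calc dist (z j) (z 0) ≤ A.C * A.R x i := h4.trans h3
      _ < 2 * A.C * A.R x i := by linarith
  · intro u hu v hv huv
    obtain ⟨j, hj, rfl⟩ := Finset.mem_image.1 hu
    obtain ⟨l, hl, rfl⟩ := Finset.mem_image.1 hv
    exact hsep' (fun e => huv (by rw [e])) (Finset.mem_range.1 hj) (Finset.mem_range.1 hl)

theorem wt_bound {m0 k1 : ℕ} (hm0 : A.θ ^ m0 ≤ 1 / 2) (hk1 : A.C ^ 5 ≤ 2 ^ k1)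
    {x : T} {i n κ j : ℕ} (h : A.R x i ≤ 2 ^ κ * A.R x (i + n)) (hj : j < n) :
    wt (A.lets x (i + j)) ≤ m0 * (κ + k1) := by
  by_contra hcon
  push Not at hcon
  have hC0 : 0 < A.C := by linarith [A.hC]
  have hθ0 := A.hθ0
  have hRi := A.R_pos x i
  have hRn := A.R_pos x (i + n)
  set W := wt (A.lets x (i + j))
  have h1 : A.θ ^ W < (1 / 2) ^ (κ + k1) := by
    calc A.θ ^ W < A.θ ^ (m0 * (κ + k1)) := pow_lt_pow_right_of_lt_one₀ hθ0 A.hθ1 hcon
      _ = (A.θ ^ m0) ^ (κ + k1) := by rw [pow_mul]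
      _ ≤ (1 / 2) ^ (κ + k1) := by gcongr
  have h2 : A.R x (i + n) ≤ A.C ^ 2 * A.R x (i + j + 1) := by
    have := A.R_mono x (i + j + 1) (n - (j + 1))
    have e : i + j + 1 + (n - (j + 1)) = i + n := by omega
    rwa [e] at this
  have h3 := A.R_succ_le x (i + j)
  have h4 := A.R_mono x i j
  have h5 : A.R x (i + n) ≤ A.C ^ 5 * A.θ ^ W * (2 ^ κ * A.R x (i + n)) := by
    calc A.R x (i + n) ≤ A.C ^ 2 * A.R x (i + j + 1) := h2
      _ ≤ A.C ^ 2 * (A.C * A.θ ^ W * A.R x (i + j)) := by gcongr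
      _ ≤ A.C ^ 2 * (A.C * A.θ ^ W * (A.C ^ 2 * A.R x i)) := by gcongr
      _ ≤ A.C ^ 2 * (A.C * A.θ ^ W * (A.C ^ 2 * (2 ^ κ * A.R x (i + n)))) := by gcongr
      _ = _ := by ring
  have h6 : A.C ^ 5 * A.θ ^ W * 2 ^ κ < 1 := by
    calc A.C ^ 5 * A.θ ^ W * 2 ^ κ < A.C ^ 5 * (1 / 2) ^ (κ + k1) * 2 ^ κ := by gcongr
      _ ≤ 2 ^ k1 * (1 / 2) ^ (κ + k1) * 2 ^ κ := by gcongr
      _ = 1 := by
        rw [pow_add, one_div, inv_pow, inv_pow]
        field_simp
  nlinarith

theorem wgt_bound {N k0 m0 k1 : ℕ} (hN : ∀ (x : T) (r : ℝ), 0 < r →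
    ∃ s : Finset T, s.card ≤ N ∧ ball x r ⊆ ⋃ y ∈ s, ball y (r / 2))
    (hk0 : 4 * A.C ^ 4 * S.K ≤ 2 ^ k0) (hm0 : A.θ ^ m0 ≤ 1 / 2) (hk1 : A.C ^ 5 ≤ 2 ^ k1)
    {x : T} {i n κ : ℕ} (h : A.R x i ≤ 2 ^ κ * A.R x (i + n)) :
    A.wgt x (i + n) - A.wgt x i ≤ N ^ (κ + k0) * (m0 * (κ + k1)) := by
  have h1 := A.chain_count hN hk0 h
  have h2 : ∀ j, j ≤ n → A.wgt x (i + j) ≤ A.wgt x i + j * (m0 * (κ + k1)) := by
    intro j
    induction j with
    | zero => intro _; simp
    | succ j ih =>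
      intro hj
      have h3 := A.wt_bound hm0 hk1 h (show j < n by omega)
      have h4 := ih (by omega)
      rw [← add_assoc, wgt_succ]
      have : (j + 1) * (m0 * (κ + k1)) = j * (m0 * (κ + k1)) + m0 * (κ + k1) := by ring
      omega
  have h3 := h2 n le_rfl
  have h4 : n * (m0 * (κ + k1)) ≤ N ^ (κ + k0) * (m0 * (κ + k1)) := Nat.mul_le_mul_right _ h1
  omega

theorem R_lower (x : T) (i m : ℕ) :
    (A.θ / A.C) ^ (A.wgt x (i + m) - A.wgt x i) * A.R x i ≤ A.R x (i + m) := by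
  have hC := A.hC
  have hC0 : 0 < A.C := by linarith
  have hθ0 := A.hθ0
  have hq : 0 < A.θ / A.C := by positivity
  induction m with
  | zero => simp
  | succ m ih =>
    have h1 := A.R_succ_ge x (i + m)
    have h2 := A.wgt_mono x (show i ≤ i + m by omega)
    have hw := one_le_wt (A.lets x (i + m))
    have e : A.wgt x (i + (m + 1)) - A.wgt x i =
        (A.wgt x (i + m) - A.wgt x i) + wt (A.lets x (i + m)) := by
      rw [← add_assoc, wgt_succ]; omega
    rw [e, pow_add]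
    have h3 : (A.θ / A.C) ^ (wt (A.lets x (i + m))) * A.R x (i + m) ≤ A.R x (i + m + 1) := by
      rw [div_pow, div_mul_eq_mul_div, div_le_iff₀ (by positivity)]
      calc A.θ ^ wt (A.lets x (i + m)) * A.R x (i + m) ≤ A.C * A.R x (i + m + 1) := h1
        _ ≤ A.C ^ wt (A.lets x (i + m)) * A.R x (i + m + 1) := by
          have := A.R_pos x (i + m + 1)
          have h4 : A.C ^ 1 ≤ A.C ^ wt (A.lets x (i + m)) := pow_le_pow_right₀ hC hw
          rw [pow_one] at h4
          gcongr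
        _ = _ := by ring
    calc (A.θ / A.C) ^ (A.wgt x (i + m) - A.wgt x i) * (A.θ / A.C) ^ wt (A.lets x (i + m)) *
          A.R x i = (A.θ / A.C) ^ wt (A.lets x (i + m)) *
          ((A.θ / A.C) ^ (A.wgt x (i + m) - A.wgt x i) * A.R x i) := by ring
      _ ≤ (A.θ / A.C) ^ wt (A.lets x (i + m)) * A.R x (i + m) := by gcongr
      _ ≤ _ := h3

end CellSys

end Pool.Agent.QT
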