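import Pool.Agent.Helper11.QT.QS2

/-!
# The quasisymmetry estimate
-/

set_option autoImplicit false

open Set Metric Filter Topology
open scoped NNReal

namespace Pool.Agent.QT

namespace CellSys

theorem rpow_pow_eq {θ α : ℝ} (hθ : 0 < θ) (h : θ ^ α = 1 / 2) (l : ℕ) :
    (θ ^ l) ^ α = (1 / 2 : ℝ) ^ l := by
  rw [← h, ← Real.rpow_natCast, ← Real.rpow_mul hθ.le, mul_comm, Real.rpow_mul hθ.le,
    Real.rpow_natCast]

theorem exists_rpow_half {θ : ℝ} (hθ : 0 < θ) (hθ1 : θ < 1) :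
    ∃ α : ℝ, 0 < α ∧ θ ^ α = 1 / 2 := by
  have hlog : Real.log θ < 0 := Real.log_neg hθ hθ1
  have hlog2 : Real.log (1 / 2 : ℝ) < 0 := Real.log_neg (by norm_num) (by norm_num)
  refine ⟨Real.log (1 / 2) / Real.log θ, div_pos_of_neg_of_neg hlog2 hlog, ?_⟩
  rw [Real.rpow_def_of_pos hθ, mul_div_cancel₀ _ hlog.ne, Real.exp_log (by norm_num)]

/-- Both distances are visible in the same frame. -/
theorem typeI {θ α K R L a b a' b' t : ℝ} {l k : ℕ} (hθ : 0 < θ)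
    (hα : 0 < α) (hθα : θ ^ α = 1 / 2) (hK : 0 < K) (hR : 0 < R) (hL : 0 < L) (ht : 0 ≤ t)
    (ha : Cmp K a (θ ^ l * R)) (hb : Cmp K b (θ ^ k * R))
    (ha' : Cmp K a' (L / 2 ^ l)) (hb' : Cmp K b' (L / 2 ^ k)) (h : a ≤ t * b) :
    a' ≤ K ^ 2 * (K ^ 2 * t) ^ α * b' := by
  have hb0 : 0 ≤ b' := by
    have h1 := hb'.2
    have h2 : 0 < L / 2 ^ k := by positivity
    by_contra h3
    push Not at h3
    have : K * b' < 0 := mul_neg_of_pos_of_neg hK h3
    linarith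
  have h1 : θ ^ l * R ≤ K ^ 2 * t * θ ^ k * R := by
    calc θ ^ l * R ≤ K * a := ha.2
      _ ≤ K * (t * b) := by gcongr
      _ ≤ K * (t * (K * (θ ^ k * R))) := by
        have := hb.1
        gcongr
      _ = _ := by ring
  have h2 : θ ^ l ≤ K ^ 2 * t * θ ^ k := le_of_mul_le_mul_right h1 hR
  have h3 : (1 / 2 : ℝ) ^ l ≤ (K ^ 2 * t) ^ α * (1 / 2) ^ k := by
    rw [← rpow_pow_eq hθ hθα l, ← rpow_pow_eq hθ hθα k,
      ← Real.mul_rpow (by positivity) (by positivity)]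
    exact Real.rpow_le_rpow (by positivity) h2 hα.le
  have hP : 0 ≤ (K ^ 2 * t) ^ α := Real.rpow_nonneg (by positivity) _
  calc a' ≤ K * (L / 2 ^ l) := ha'.1
    _ = K * L * (1 / 2) ^ l := by rw [one_div, inv_pow]; ring
    _ ≤ K * L * ((K ^ 2 * t) ^ α * (1 / 2) ^ k) := by gcongr
    _ = K * (K ^ 2 * t) ^ α * (L / 2 ^ k) := by rw [one_div, inv_pow]; ring
    _ ≤ K * (K ^ 2 * t) ^ α * (K * b') := by
      have := hb'.2
      gcongr
    _ = _ := by ring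

/-- The far point is `a`. -/
theorem typeII {θ K C RJ Rq L a b a' b' t : ℝ} {m k n m0 : ℕ} {Ψ : ℕ → ℕ} (hθ : 0 < θ)
    (hθ1 : θ < 1) (hm0 : θ ^ m0 ≤ 1 / 2) (hK : 1 ≤ K) (hC : 1 ≤ C) (hRJ : 0 < RJ) (hRq : 0 < Rq)
    (hL : 0 < L) (ht : 0 ≤ t)
    (ha : Cmp K (θ ^ m * a) RJ) (hb : Cmp K b (θ ^ k * Rq))
    (ha' : Cmp K a' (2 ^ m * L)) (hb' : Cmp K b' (L / 2 ^ (k + n)))
    (hmono : Rq ≤ C ^ 2 * RJ) (hn : ∀ κ : ℕ, RJ ≤ 2 ^ κ * Rq → n ≤ Ψ κ) (h : a ≤ t * b) :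
    1 ≤ K ^ 2 * C ^ 2 * t ∧
      a' ≤ K ^ 2 * 2 ^ (m0 * ⌈K ^ 2 * C ^ 2 * t⌉₊ + Ψ ⌈K ^ 2 * C ^ 2 * t⌉₊) * b' := by
  have hK0 : 0 < K := by linarith
  have hb0 : 0 ≤ b' := by
    have h1 := hb'.2
    have h2 : 0 < L / 2 ^ (k + n) := by positivity
    by_contra h3
    push Not at h3
    have : K * b' < 0 := mul_neg_of_pos_of_neg hK0 h3
    linarith
  have h1 : RJ ≤ K ^ 2 * t * θ ^ (m + k) * Rq := by
    calc RJ ≤ K * (θ ^ m * a) := ha.2
      _ ≤ K * (θ ^ m * (t * b)) := by gcongr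
      _ ≤ K * (θ ^ m * (t * (K * (θ ^ k * Rq)))) := by
        have := hb.1
        gcongr
      _ = _ := by ring
  set τ := K ^ 2 * C ^ 2 * t with hτ
  have h2 : RJ ≤ τ * θ ^ (m + k) * RJ := by
    calc RJ ≤ K ^ 2 * t * θ ^ (m + k) * Rq := h1
      _ ≤ K ^ 2 * t * θ ^ (m + k) * (C ^ 2 * RJ) := by gcongr
      _ = _ := by rw [hτ]; ring
  have h3 : 1 ≤ τ * θ ^ (m + k) := by
    have : 1 * RJ ≤ τ * θ ^ (m + k) * RJ := by linarith
    exact le_of_mul_le_mul_right this hRJ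
  have hθle : θ ^ (m + k) ≤ 1 := pow_le_one₀ hθ.le hθ1.le
  have hτ0 : 0 ≤ τ := by positivity
  have h4 : 1 ≤ τ := by nlinarith
  have hκ : τ ≤ 2 ^ ⌈τ⌉₊ := by
    calc τ ≤ ⌈τ⌉₊ := Nat.le_ceil τ
      _ ≤ 2 ^ ⌈τ⌉₊ := by exact_mod_cast Nat.lt_two_pow_self.le
  set κ := ⌈τ⌉₊ with hκdef
  have h5 : n ≤ Ψ κ := by
    apply hn
    calc RJ ≤ K ^ 2 * t * θ ^ (m + k) * Rq := h1
      _ ≤ K ^ 2 * t * 1 * Rq := by gcongr
      _ ≤ K ^ 2 * t * C ^ 2 * Rq := by
        have : (1 : ℝ) ≤ C ^ 2 := one_le_pow₀ hC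
        gcongr
      _ = τ * Rq := by rw [hτ]; ring
      _ ≤ 2 ^ κ * Rq := by gcongr
  have h6 : m + k ≤ m0 * κ := by
    by_contra hcon
    push Not at hcon
    have h7 : θ ^ (m + k) < θ ^ (m0 * κ) := pow_lt_pow_right_of_lt_one₀ hθ hθ1 hcon
    have h8 : θ ^ (m0 * κ) ≤ (1 / 2) ^ κ := by
      rw [pow_mul]
      gcongr
    have h9 : τ * θ ^ (m + k) < 1 := by
      have hpos : (0 : ℝ) < 2 ^ κ := by positivity
      calc τ * θ ^ (m + k) ≤ 2 ^ κ * θ ^ (m + k) := by gcongr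
        _ < 2 ^ κ * θ ^ (m0 * κ) := by gcongr
        _ ≤ 2 ^ κ * (1 / 2) ^ κ := by gcongr
        _ = 1 := by rw [← mul_pow]; norm_num
    linarith
  refine ⟨h4, ?_⟩
  have h7 : m + k + n ≤ m0 * κ + Ψ κ := by omega
  calc a' ≤ K * (2 ^ m * L) := ha'.1
    _ = K * 2 ^ (m + k + n) * (L / 2 ^ (k + n)) := by
      rw [add_assoc, pow_add 2 m]; field_simp
    _ ≤ K * 2 ^ (m + k + n) * (K * b') := by
      have := hb'.2
      gcongr
    _ = K ^ 2 * 2 ^ (m + k + n) * b' := by ring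
    _ ≤ K ^ 2 * 2 ^ (m0 * κ + Ψ κ) * b' := by
      have : (2 : ℝ) ^ (m + k + n) ≤ 2 ^ (m0 * κ + Ψ κ) := pow_le_pow_right₀ (by norm_num) h7
      gcongr

/-- The far point is `b`. -/
theorem typeII' {θ K C β RJ Rq L a b a' b' t : ℝ} {m k n : ℕ} (hθ : 0 < θ)
    (hK : 1 ≤ K) (hC : 1 ≤ C) (hβ : 0 < β) (hθβ : (θ / C) ^ β = 1 / 2) (hRJ : 0 < RJ)
    (hL : 0 < L) (ht : 0 ≤ t)
    (hb : Cmp K (θ ^ m * b) RJ) (ha : Cmp K a (θ ^ k * Rq))
    (hb' : Cmp K b' (2 ^ m * L)) (ha' : Cmp K a' (L / 2 ^ (k + n)))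
    (hlow : (θ / C) ^ n * RJ ≤ Rq) (h : a ≤ t * b) :
    a' ≤ K ^ 2 * (K ^ 2 * t) ^ β * b' := by
  have hK0 : 0 < K := by linarith
  have hC0 : 0 < C := by linarith
  have hb0 : 0 ≤ b' := by
    have h1 := hb'.2
    have h2 : 0 < 2 ^ m * L := by positivity
    by_contra h3
    push Not at h3
    have : K * b' < 0 := mul_neg_of_pos_of_neg hK0 h3
    linarith
  have h1 : θ ^ (m + k) * Rq ≤ K ^ 2 * t * RJ := by
    calc θ ^ (m + k) * Rq = θ ^ m * (θ ^ k * Rq) := by rw [pow_add]; ring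
      _ ≤ θ ^ m * (K * a) := by
        have := ha.2
        gcongr
      _ ≤ θ ^ m * (K * (t * b)) := by gcongr
      _ = K * t * (θ ^ m * b) := by ring
      _ ≤ K * t * (K * RJ) := by
        have := hb.1
        gcongr
      _ = _ := by ring
  have hq : 0 < θ / C := by positivity
  have hqθ : θ / C ≤ θ := div_le_self hθ.le hC
  have h2 : (θ / C) ^ (m + k + n) * RJ ≤ K ^ 2 * t * RJ := by
    calc (θ / C) ^ (m + k + n) * RJ = (θ / C) ^ (m + k) * ((θ / C) ^ n * RJ) := by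
          rw [pow_add]; ring
      _ ≤ θ ^ (m + k) * Rq := by gcongr
      _ ≤ _ := h1
  have h3 : (θ / C) ^ (m + k + n) ≤ K ^ 2 * t := le_of_mul_le_mul_right h2 hRJ
  have h4 : (1 / 2 : ℝ) ^ (m + k + n) ≤ (K ^ 2 * t) ^ β := by
    rw [← rpow_pow_eq hq hθβ]
    exact Real.rpow_le_rpow (by positivity) h3 hβ.le
  calc a' ≤ K * (L / 2 ^ (k + n)) := ha'.1
    _ = K * (1 / 2) ^ (m + k + n) * (2 ^ m * L) := by
      rw [add_assoc, pow_add (1 / 2 : ℝ) m, one_div, inv_pow, inv_pow]; field_simp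
    _ ≤ K * (1 / 2) ^ (m + k + n) * (K * b') := by
      have := hb'.2
      gcongr
    _ = K ^ 2 * (1 / 2) ^ (m + k + n) * b' := by ring
    _ ≤ K ^ 2 * (K ^ 2 * t) ^ β * b' := by gcongr

variable {T : Type*} [MetricSpace T] {S : ArcSys T} (A : CellSys S)

theorem exists_level {N k0 : ℕ} (hN : ∀ (x : T) (r : ℝ), 0 < r →
    ∃ s : Finset T, s.card ≤ N ∧ ball x r ⊆ ⋃ y ∈ s, ball y (r / 2))
    (hk0 : 4 * A.C ^ 4 * S.K ≤ 2 ^ k0) {x y : T} (hxy : x ≠ y) :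
    ∃ p, A.addr x p = A.addr y p ∧ A.lets x p ≠ A.lets y p := by
  classical
  have hC0 : 0 < A.C := by linarith [A.hC]
  have hex : ∃ p, A.lets x p ≠ A.lets y p := by
    by_contra hcon
    push Not at hcon
    have haddr : ∀ n, A.addr x n = A.addr y n := by
      intro n
      induction n with
      | zero => rfl
      | succ n ih => rw [addr_succ, addr_succ, ih, hcon]
    have hρ := S.rho_pos hxy
    have hR : ∀ n, S.rho x y ≤ A.C * A.R x n := by
      intro n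
      exact A.rho_le (A.good_addr x n).1 (A.good_addr x n).2 (haddr n ▸ (A.good_addr y n).2)
    obtain ⟨κ, hκ⟩ := pow_unbounded_of_one_lt (A.C * A.R x 0 / S.rho x y)
      (one_lt_two (α := ℝ))
    have h1 : ∀ n, A.R x 0 ≤ 2 ^ κ * A.R x (0 + n) := by
      intro n
      rw [div_lt_iff₀ hρ] at hκ
      have h2 := hR (0 + n)
      have h3 : A.C * A.R x 0 ≤ A.C * (2 ^ κ * A.R x (0 + n)) := by
        calc A.C * A.R x 0 ≤ 2 ^ κ * S.rho x y := hκ.le
          _ ≤ 2 ^ κ * (A.C * A.R x (0 + n)) := by gcongr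
          _ = _ := by ring
      exact le_of_mul_le_mul_left h3 hC0
    have h2 := A.chain_count hN hk0 (h1 (N ^ (κ + k0) + 1))
    omega
  set p := Nat.find hex with hp
  refine ⟨p, ?_, Nat.find_spec hex⟩
  have : ∀ n, n ≤ p → A.addr x n = A.addr y n := by
    intro n
    induction n with
    | zero => intro _; rfl
    | succ n ih =>
      intro hn
      have h1 : A.lets x n = A.lets y n := by
        by_contra h2
        exact Nat.find_min hex (show n < p by omega) h2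
      rw [addr_succ, addr_succ, ih (by omega), h1]
  exact this p le_rfl

/-- The constant of the quasisymmetry estimate. -/
noncomputable def K2 : ℝ := A.K1 * A.C ^ 2

theorem K2_ge : 1 ≤ A.K2 := by
  have h1 := A.K1_ge4
  have h2 : (1 : ℝ) ≤ A.C ^ 2 := one_le_pow₀ A.hC
  unfold K2; nlinarith

theorem K1_le_K2 : A.K1 ≤ A.K2 := by
  have h1 := A.K1_ge4
  have h2 : (1 : ℝ) ≤ A.C ^ 2 := one_le_pow₀ A.hC
  unfold K2; nlinarith

/-- The function bounding the weight growth. -/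
def Psi (N k0 m0 k1 κ : ℕ) : ℕ := N ^ (κ + k0) * (m0 * (κ + k1))

theorem qs_main {N k0 m0 k1 : ℕ} (hN : ∀ (x : T) (r : ℝ), 0 < r →
    ∃ s : Finset T, s.card ≤ N ∧ ball x r ⊆ ⋃ y ∈ s, ball y (r / 2))
    (hk0 : 4 * A.C ^ 4 * S.K ≤ 2 ^ k0) (hm0 : A.θ ^ m0 ≤ 1 / 2) (hk1 : A.C ^ 5 ≤ 2 ^ k1)
    {α β : ℝ} (hα : 0 < α) (hθα : A.θ ^ α = 1 / 2) (hβ : 0 < β)
    (hθβ : (A.θ / A.C) ^ β = 1 / 2) {x a b : T} (hxa : x ≠ a) (hxb : x ≠ b) {t : ℝ}
    (ht : 0 ≤ t) (h : S.rho x a ≤ t * S.rho x b) :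
    dist (A.F x) (A.F a) ≤ A.K2 ^ 2 * (A.K2 ^ 2 * t) ^ α * dist (A.F x) (A.F b) ∨
    dist (A.F x) (A.F a) ≤ A.K2 ^ 2 * (A.K2 ^ 2 * t) ^ β * dist (A.F x) (A.F b) ∨
    (1 ≤ A.K2 ^ 2 * A.C ^ 2 * t ∧ dist (A.F x) (A.F a) ≤
      A.K2 ^ 2 * 2 ^ (m0 * ⌈A.K2 ^ 2 * A.C ^ 2 * t⌉₊ + Psi N k0 m0 k1 ⌈A.K2 ^ 2 * A.C ^ 2 * t⌉₊) *
        dist (A.F x) (A.F b)) := by
  have hC := A.hC
  have hC0 : 0 < A.C := by linarith
  have hθ0 := A.hθ0
  have hK2 := A.K2_ge
  have hK12 := A.K1_le_K2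
  have hK14 := A.K1_ge4
  have hK1C2 := A.K1_geC2
  obtain ⟨p, hp1, hp2⟩ := A.exists_level hN hk0 hxa
  obtain ⟨q, hq1, hq2⟩ := A.exists_level hN hk0 hxb
  obtain ⟨l, ha, ha', hoa⟩ := A.pair_cmp hp1 hp2 hxa
  obtain ⟨k, hb, hb', hob⟩ := A.pair_cmp hq1 hq2 hxb
  have hRpos := A.R_pos x
  have hlenpos : ∀ n, 0 < len (A.addr x n) := fun n => len_pos _
  have hlen : ∀ i j, i ≤ j → len (A.addr x j) = len (A.addr x i) / 2 ^ (A.wgt x j - A.wgt x i) := by
    intro i j hij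
    have h4 := A.wgt_mono x hij
    rw [A.len_addr x j, A.len_addr x i, div_div, ← pow_add, Nat.add_sub_cancel' h4]
  -- move a frame
  have move : ∀ {s d : ℝ} {i j e : ℕ}, i ≤ j → (i = j ∨ A.Rad x i j) → 0 ≤ s → 0 ≤ d →
      Cmp A.K1 s (A.θ ^ e * A.R x j) → Cmp A.K1 d (len (A.addr x j) / 2 ^ e) →
      Cmp A.K2 s (A.θ ^ (e + (A.wgt x j - A.wgt x i)) * A.R x i) ∧
      Cmp A.K2 d (len (A.addr x i) / 2 ^ (e + (A.wgt x j - A.wgt x i))) := by
    intro s d i j e hij hr hs hd h1 h2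
    constructor
    · rcases hr with rfl | hr
      · rw [Nat.sub_self, add_zero]
        exact h1.mono hK12 hs (by have := hRpos i; positivity)
      · have h3 : Cmp (A.C ^ 2) (A.θ ^ e * A.R x j)
            (A.θ ^ (e + (A.wgt x j - A.wgt x i)) * A.R x i) := by
          constructor
          · calc A.θ ^ e * A.R x j
                ≤ A.θ ^ e * (A.C ^ 2 * (A.θ ^ (A.wgt x j - A.wgt x i) * A.R x i)) :=
                  mul_le_mul_of_nonneg_left hr.1 (by positivity)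
              _ = _ := by rw [pow_add]; ring
          · calc A.θ ^ (e + (A.wgt x j - A.wgt x i)) * A.R x i
                = A.θ ^ e * (A.θ ^ (A.wgt x j - A.wgt x i) * A.R x i) := by rw [pow_add]; ring
              _ ≤ A.θ ^ e * (A.C ^ 2 * A.R x j) :=
                  mul_le_mul_of_nonneg_left hr.2 (by positivity)
              _ = _ := by ring
        exact h1.trans (by linarith) (by positivity) h3
    · rw [hlen i j hij, div_div, ← pow_add, add_comm (A.wgt x j - A.wgt x i)] at h2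
      exact h2.mono hK12 hd (by have := hlenpos i; positivity)
  -- far frame
  have far : ∀ {s d : ℝ} {i J e : ℕ}, i < J → e ≤ A.wgt x J - A.wgt x i → A.Rad x i J →
      0 ≤ s → 0 ≤ d →
      Cmp A.K1 s (A.θ ^ e * A.R x i) → Cmp A.K1 d (len (A.addr x i) / 2 ^ e) →
      Cmp A.K2 (A.θ ^ (A.wgt x J - A.wgt x i - e) * s) (A.R x J) ∧
      Cmp A.K2 d (2 ^ (A.wgt x J - A.wgt x i - e) * len (A.addr x J)) := by
    intro s d i J e hiJ he hr hs hd h1 h2
    set m := A.wgt x J - A.wgt x i - e with hm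
    have hE : A.wgt x J - A.wgt x i = m + e := by omega
    constructor
    · have h3 : Cmp A.K1 (A.θ ^ m * s) (A.θ ^ (A.wgt x J - A.wgt x i) * A.R x i) := by
        rw [hE, pow_add]
        constructor
        · calc A.θ ^ m * s ≤ A.θ ^ m * (A.K1 * (A.θ ^ e * A.R x i)) :=
              mul_le_mul_of_nonneg_left h1.1 (by positivity)
            _ = _ := by ring
        · calc A.θ ^ m * A.θ ^ e * A.R x i = A.θ ^ m * (A.θ ^ e * A.R x i) := by ring
            _ ≤ A.θ ^ m * (A.K1 * s) := mul_le_mul_of_nonneg_left h1.2 (by positivity)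
            _ = _ := by ring
      exact h3.trans (by linarith) (by positivity) (Cmp.symm hr)
    · have h3 : len (A.addr x i) / 2 ^ e = 2 ^ m * len (A.addr x J) := by
        rw [hlen i J hiJ.le, hE, pow_add]
        field_simp
      rw [h3] at h2
      exact h2.mono hK12 hd (by have := hlenpos J; positivity)
  have hrxa := S.rho_nonneg x a
  have hrxb := S.rho_nonneg x b
  have hdxa : 0 ≤ dist (A.F x) (A.F a) := dist_nonneg
  have hdxb : 0 ≤ dist (A.F x) (A.F b) := dist_nonneg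
  rcases le_or_gt p q with hpq | hpq
  · by_cases hr : p = q ∨ A.Rad x p q
    · left
      have h1 := move hpq hr hrxb hdxb hb hb'
      have h2 := move le_rfl (Or.inl rfl) hrxa hdxa ha ha'
      rw [Nat.sub_self, add_zero] at h2
      exact typeI hθ0 hα hθα (by linarith) (hRpos p) (hlenpos p) ht h2.1 h1.1 h2.2 h1.2 h
    · right; right
      push Not at hr
      have hpq' : p < q := lt_of_le_of_ne hpq hr.1
      rcases hoa with hall | ⟨J, hJ, hlJ, hJrad⟩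
      · exact absurd (hall q hpq') hr.2
      · have hJq : J < q := by
          by_contra h1
          push Not at h1
          exact hr.2 (hJrad q hpq' h1)
        have h1 := far hJ hlJ (hJrad J hJ le_rfl) hrxa hdxa ha ha'
        obtain ⟨n', hn'⟩ := Nat.exists_eq_add_of_le hJq.le
        have h2 : Cmp A.K2 (dist (A.F x) (A.F b))
            (len (A.addr x J) / 2 ^ (k + (A.wgt x q - A.wgt x J))) := by
          rw [hlen J q hJq.le, div_div, ← pow_add, add_comm (A.wgt x q - A.wgt x J)] at hb'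
          exact hb'.mono hK12 hdxb (by have := hlenpos J; positivity)
        refine typeII (n := A.wgt x q - A.wgt x J) (Ψ := Psi N k0 m0 k1) hθ0 A.hθ1 hm0 hK2 hC
          (hRpos J) (hRpos q) (hlenpos J) ht h1.1
          (hb.mono hK12 hrxb (by have := hRpos q; positivity)) h1.2 h2 ?_ ?_ h
        · rw [hn']; exact A.R_mono x J n'
        · intro κ hκ
          rw [hn'] at hκ ⊢
          exact A.wgt_bound hN hk0 hm0 hk1 hκ
  · by_cases hr : q = p ∨ A.Rad x q p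
    · left
      have h1 := move hpq.le hr hrxa hdxa ha ha'
      have h2 := move le_rfl (Or.inl rfl) hrxb hdxb hb hb'
      rw [Nat.sub_self, add_zero] at h2
      exact typeI hθ0 hα hθα (by linarith) (hRpos q) (hlenpos q) ht h1.1 h2.1 h1.2 h2.2 h
    · right; left
      push Not at hr
      rcases hob with hall | ⟨J, hJ, hlJ, hJrad⟩
      · exact absurd (hall p hpq) hr.2
      · have hJp : J < p := by
          by_contra h1
          push Not at h1
          exact hr.2 (hJrad p hpq h1)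
        have h1 := far hJ hlJ (hJrad J hJ le_rfl) hrxb hdxb hb hb'
        obtain ⟨n', hn'⟩ := Nat.exists_eq_add_of_le hJp.le
        have h2 : Cmp A.K2 (dist (A.F x) (A.F a))
            (len (A.addr x J) / 2 ^ (l + (A.wgt x p - A.wgt x J))) := by
          rw [hlen J p hJp.le, div_div, ← pow_add, add_comm (A.wgt x p - A.wgt x J)] at ha'
          exact ha'.mono hK12 hdxa (by have := hlenpos J; positivity)
        refine typeII' (n := A.wgt x p - A.wgt x J) (Rq := A.R x p) hθ0 hK2 hC hβ hθβ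
          (hRpos J) (hlenpos J) ht h1.1
          (ha.mono hK12 hrxa (by have := hRpos p; positivity)) h1.2 h2 ?_ h
        rw [hn']
        exact A.R_lower x J n'

end CellSys

/-! ### Homeomorphisms of the half line -/

theorem exists_homeo {g : ℝ → ℝ} (hc : ContinuousOn g (Ici 0)) (hm : StrictMonoOn g (Ici 0))
    (h0 : g 0 = 0) (ht : Tendsto g atTop atTop) :
    ∃ η : ℝ≥0 ≃ₜ ℝ≥0, ∀ t : ℝ≥0, ((η t : ℝ≥0) : ℝ) = g t := by
  have hnn : ∀ t : ℝ≥0, 0 ≤ g t := by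
    intro t
    rw [← h0]
    exact hm.monotoneOn (mem_Ici.2 le_rfl) (mem_Ici.2 t.2) t.2
  let f : ℝ≥0 → ℝ≥0 := fun t => ⟨g t, hnn t⟩
  have hf : StrictMono f := by
    intro s t hst
    exact hm (mem_Ici.2 s.2) (mem_Ici.2 t.2) hst
  have hs : Function.Surjective f := by
    intro y
    obtain ⟨b, hb1, hb2⟩ := ((ht.eventually_ge_atTop (y : ℝ)).and (eventually_ge_atTop 0)).exists
    have hsub : Icc (0 : ℝ) b ⊆ Ici 0 := fun z hz => hz.1
    have h1 := intermediate_value_Icc hb2 (hc.mono hsub)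
    rw [h0] at h1
    obtain ⟨t, ht1, ht2⟩ := h1 ⟨y.2, hb1⟩
    exact ⟨⟨t, ht1.1⟩, Subtype.ext ht2⟩
  exact ⟨(hf.orderIsoOfSurjective f hs).toHomeomorph, fun t => rfl⟩

end Pool.Agent.QT
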