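import Pool.Agent.Helper11.QT.GoodPt

/-!
# The cutting steps
-/

set_option autoImplicit false

open Set Metric Filter Topology

namespace Pool.Agent.QT

namespace ArcSys

variable {T : Type*} [MetricSpace T] (S : ArcSys T)

theorem arc_sub_arc {x y p p' : T} (hp : p ∈ S.arc x y) (hp' : p' ∈ S.arc x y) :
    S.arc p p' ⊆ S.arc x y := by
  rcases S.split hp hp' with h | h
  · intro w hw
    exact S.sub_left hp (S.sub_right h (S.swap hw))
  · intro w hw
    exact S.sub_right hp (S.sub_left h hw)

theorem rho_le_of_mem {x y p p' : T} (hp : p ∈ S.arc x y) (hp' : p' ∈ S.arc x y) :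
    S.rho p p' ≤ S.rho x y :=
  diam_mono (S.arc_sub_arc hp hp') (S.bdd x y)

theorem Out_sub_Out {o y y' : T} (h : y' ∈ S.Br o y) (hy' : y' ≠ o) :
    S.Out o y ⊆ S.Out o y' := by
  intro x hx
  rcases h with h | h
  · exact absurd h hy'
  · rcases S.tri' y' hx with h1 | h1
    · exact h1
    · exact absurd (S.swap h1) h

theorem Out_sub_side {o n q x : T} (hq : q ∈ S.arc o n) (hqo : q ≠ o) (hxo : q ∈ S.arc x o) :
    S.Out o n ⊆ S.Out q x := by
  intro w hw
  have h1 := S.Out_sub_Br hq hqo hw
  rcases h1 with rfl | h1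
  · exact S.left _ _
  · rcases S.tri' w hxo with h | h
    · exact S.swap h
    · exact absurd (S.swap h) h1

end ArcSys

/-- The context: a compact tree with separated branch points, and the parameters. -/
structure Ctx (T : Type*) [MetricSpace T] extends ArcSys T where
  θ : ℝ
  c : ℝ
  hθ : 1 / 2 ≤ θ
  hθ1 : θ < 1
  hc : 0 < c
  hc1 : c ≤ 1
  hsep : ∀ p q : T, IsBranchPoint p → IsBranchPoint q → p ≠ q →
    c * min (height p) (height q) ≤ toArcSys.rho p q

namespace Ctx

variable {T : Type*} [MetricSpace T] [CompactSpace T] (S : Ctx T)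

/-- `1 - θ`. -/
def kap : ℝ := 1 - S.θ

/-- The goodness constant. -/
noncomputable def lam : ℝ := S.c * (S.kap / 64) / 8

/-- The weaker goodness constant. -/
noncomputable def lam' : ℝ := 3 / 8 * S.kap * S.lam

omit [CompactSpace T] in
theorem kap_pos : 0 < S.kap := by have := S.hθ1; unfold kap; linarith

omit [CompactSpace T] in
theorem kap_le : S.kap ≤ 1 / 2 := by have := S.hθ; unfold kap; linarith

omit [CompactSpace T] in
theorem θ_pos : 0 < S.θ := by have := S.hθ; linarith

omit [CompactSpace T] in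
theorem lam_pos : 0 < S.lam := by
  have := S.kap_pos; have := S.hc; unfold lam; positivity

omit [CompactSpace T] in
theorem lam'_pos : 0 < S.lam' := by
  have := S.kap_pos; have := S.lam_pos; unfold lam'; positivity

omit [CompactSpace T] in
theorem lam_le : S.lam ≤ S.c * (1 / 8) := by
  have h1 := S.kap_pos; have h2 := S.kap_le; have h3 := S.hc
  unfold lam
  nlinarith

omit [CompactSpace T] in
theorem lam_le_small : S.lam ≤ 1 / 512 := by
  have h1 := S.kap_pos; have h2 := S.kap_le; have h3 := S.hc; have h4 := S.hc1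
  unfold lam
  nlinarith

omit [CompactSpace T] in
theorem lam'_le : S.lam' ≤ S.lam := by
  have h1 := S.kap_pos; have h2 := S.kap_le; have h3 := S.lam_pos
  unfold lam'
  nlinarith

omit [CompactSpace T] in
theorem lam'_le_kap : S.lam' ≤ 3 / 16 * S.kap := by
  have h1 := S.kap_pos; have h3 := S.lam_pos; have h4 := S.lam_le_small
  unfold lam'
  nlinarith

/-- Validity of a two-sided cell with older endpoint `o`, newer endpoint `n` and scale `g`. -/
structure Val2 (o n : T) (g : ℝ) : Prop where
  ne : o ≠ n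
  g_pos : 0 < g
  lo : S.θ * g < S.rho o n
  hi : S.rho o n ≤ g / S.θ
  old : ∀ q ∈ S.arc o n, q ≠ o → q ≠ n → IsBranchPoint q → S.lam * height q ≤ S.rho o q
  new' : ∀ q ∈ S.arc o n, q ≠ o → q ≠ n → IsBranchPoint q → S.lam' * height q ≤ S.rho n q
  new : ∀ q ∈ S.arc o n, q ≠ o → q ≠ n → IsBranchPoint q → height q ≤ 2 / S.c * S.rho o n →
    S.lam * height q ≤ S.rho n q
  big : ∀ q ∈ S.arc o n, q ≠ o → q ≠ n → IsBranchPoint q → 2 / S.c * S.rho o n < height q →
    S.rho o n ≤ g
  outo : 1 / 8 * diam (S.X2 o n) ≤ diam (S.Out o n)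
  outn : 1 / 8 * diam (S.X2 o n) ≤ diam (S.Out n o)

/-- Validity of a one-sided cell at `o` in the direction of `y`. -/
structure Val1 (o y : T) : Prop where
  ne : y ≠ o
  good : ∀ q ∈ S.Br o y, q ≠ o → IsBranchPoint q → S.lam * height q ≤ S.rho o q
  out : 1 / 8 * diam (S.Br o y) ≤ diam (S.Out o y)

theorem diam_mono' {A B : Set T} (h : A ⊆ B) : diam A ≤ diam B := diam_mono h (ArcSys.bddAll B)

theorem step2 {o n : T} {g : ℝ} (h : S.Val2 o n g) :
    ∃ z ∈ S.arc o n, z ≠ o ∧ z ≠ n ∧ S.θ ^ 2 * g ≤ S.rho o z ∧ S.lam' * g ≤ S.rho n z ∧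
      S.Val2 o z (S.θ * g) ∧ S.Val2 n z (S.rho n z) ∧
      ∀ x, x ≠ z → z ∈ S.arc x o → z ∈ S.arc x n → S.Val1 z x := by
  have hθ := S.hθ
  have hθ1 := S.hθ1
  have hθ0 := S.θ_pos
  have hc := S.hc
  have hc1 := S.hc1
  have hk := S.kap_pos
  have hk2 := S.kap_le
  have hkθ : S.θ = 1 - S.kap := by unfold kap; ring
  have hl := S.lam_pos
  have hl' := S.lam'_pos
  have hll := S.lam'_le
  have hlc := S.lam_le
  have hg := h.g_pos
  have hlo := h.lo
  have hhi := h.hi
  have hpos := S.rho_pos h.ne
  have hgθ : g / S.θ ≤ 2 * g := by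
    rw [div_le_iff₀ hθ0]; nlinarith
  have hX2l : ∀ z ∈ S.arc o n, z ≠ o → diam (S.X2 o z) ≤ diam (S.X2 o n) :=
    fun z hz hzo => diam_mono' (S.X2_sub_left hz hzo)
  have hX2r : ∀ z ∈ S.arc o n, z ≠ n → diam (S.X2 n z) ≤ diam (S.X2 o n) := by
    intro z hz hzn
    have := S.X2_sub_left (S.swap hz) hzn
    rw [S.X2_comm n o] at this
    exact diam_mono' this
  have outs : ∀ z ∈ S.arc o n, z ≠ o → z ≠ n →
      (1 / 8 * diam (S.X2 o z) ≤ diam (S.Out o z) ∧ 1 / 8 * diam (S.X2 o z) ≤ diam (S.Out z o)) ∧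
      (1 / 8 * diam (S.X2 n z) ≤ diam (S.Out n z) ∧
        1 / 8 * diam (S.X2 n z) ≤ diam (S.Out z n)) := by
    intro z hz hzo hzn
    have a1 := hX2l z hz hzo
    have a2 := hX2r z hz hzn
    have a3 := diam_mono' (S.Out_sub_Out_left hz hzo)
    have a4 := diam_mono' (S.Out_sub_Out_right hz)
    have a5 := diam_mono' (S.Out_sub_Out_left (S.swap hz) hzn)
    have a6 := diam_mono' (S.Out_sub_Out_right (S.swap hz))
    have a7 := h.outo
    have a8 := h.outn
    refine ⟨⟨?_, ?_⟩, ?_, ?_⟩ <;> linarith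
  by_cases hex : ∃ q ∈ S.arc o n, q ≠ o ∧ q ≠ n ∧ IsBranchPoint q ∧
      2 / S.c * S.rho o n < height q ∧ S.θ ^ 2 * g < S.rho o q
  · -- forced step
    obtain ⟨q, hq, hqo, hqn, hqb, hqbig, hqfar⟩ := hex
    have hgle := h.big q hq hqo hqn hqb hqbig
    have hother : ∀ q' ∈ S.arc o n, q' ≠ o → q' ≠ n → q' ≠ q → IsBranchPoint q' →
        height q' ≤ 2 / S.c * S.rho o n ∧ S.c * height q' ≤ S.rho q q' := by
      intro q' hq' _ _ hne hb
      have h1 := S.hsep q q' hqb hb (fun e => hne e.symm)
      have h2 := S.rho_le_of_mem hq hq'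
      have h3 : height q' ≤ 2 / S.c * S.rho o n := by
        by_contra h4
        push Not at h4
        have h5 : 2 / S.c * S.rho o n < min (height q) (height q') := lt_min hqbig h4
        have h6 : S.c * (2 / S.c * S.rho o n) < S.c * min (height q) (height q') := by
          gcongr
        have h7 : S.c * (2 / S.c * S.rho o n) = 2 * S.rho o n := by field_simp
        linarith
      refine ⟨h3, ?_⟩
      have h4 : min (height q) (height q') = height q' := min_eq_right (by linarith)
      rw [h4] at h1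
      exact h1
    have hhq : 0 < height q := S.height_pos hqb
    have hq1 : g ≤ height q := by
      have h1 : 2 * S.rho o n ≤ 2 / S.c * S.rho o n := by
        have : 2 ≤ 2 / S.c := by rw [le_div_iff₀ hc]; linarith
        nlinarith
      nlinarith
    have hzn : S.lam' * g ≤ S.rho n q := by
      have h1 := h.new' q hq hqo hqn hqb
      have h2 : S.lam' * g ≤ S.lam' * height q := by gcongr
      linarith
    obtain ⟨⟨o1, o2⟩, o3, o4⟩ := outs q hq hqo hqn
    have hsub_o : ∀ {q'}, q' ∈ S.arc o q → q' ∈ S.arc o n := fun hq' => S.sub_left hq hq'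
    have hsub_n : ∀ {q'}, q' ∈ S.arc n q → q' ∈ S.arc o n :=
      fun hq' => S.sub_right hq (S.swap hq')
    have hne_n : ∀ {q'}, q' ∈ S.arc o q → q' ≠ n := by
      rintro q' hq' rfl
      exact hqn (S.antisymm hq hq').symm
    have hne_o : ∀ {q'}, q' ∈ S.arc n q → q' ≠ o := by
      rintro q' hq' rfl
      exact hqo (S.antisymm (S.swap hq) hq').symm
    refine ⟨q, hq, hqo, hqn, hqfar.le, hzn, ?_, ?_, ?_⟩
    · refine ⟨fun e => hqo e.symm, by positivity, ?_, ?_, ?_, ?_, ?_, ?_, o1, o2⟩
      · calc S.θ * (S.θ * g) = S.θ ^ 2 * g := by ring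
          _ < _ := hqfar
      · have h1 := S.rho_mono_left hq
        have h2 : S.θ * g / S.θ = g := by field_simp
        rw [h2]; linarith
      · intro q' hq' h1 h2 hb
        exact h.old q' (hsub_o hq') h1 (hne_n hq') hb
      · intro q' hq' h1 h2 hb
        have h3 := (hother q' (hsub_o hq') h1 (hne_n hq') h2 hb).2
        have h4 := S.height_pos hb
        nlinarith
      · intro q' hq' h1 h2 hb _
        have h3 := (hother q' (hsub_o hq') h1 (hne_n hq') h2 hb).2
        have h4 := S.height_pos hb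
        nlinarith
      · intro q' hq' h1 h2 hb hbig
        exfalso
        have h3 := (hother q' (hsub_o hq') h1 (hne_n hq') h2 hb).2
        have h4 := S.rho_le_of_mem hq' (S.right o q)
        rw [S.rho_comm q' q] at h4
        have h5 : S.c * (2 / S.c * S.rho o q) < S.c * height q' := by gcongr
        have h6 : S.c * (2 / S.c * S.rho o q) = 2 * S.rho o q := by field_simp
        have h7 := S.rho_pos (x := o) (y := q) (fun e => hqo e.symm)
        linarith
    · have hr := S.rho_pos (x := n) (y := q) (fun e => hqn e.symm)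
      refine ⟨fun e => hqn e.symm, hr, by nlinarith, ?_, ?_, ?_, ?_, ?_, o3, o4⟩
      · rw [le_div_iff₀ hθ0]; nlinarith
      · intro q' hq' h1 h2 hb
        have h3 := (hother q' (hsub_n hq') (hne_o hq') h1 h2 hb).1
        exact h.new q' (hsub_n hq') (hne_o hq') h1 hb h3
      · intro q' hq' h1 h2 hb
        have h3 := (hother q' (hsub_n hq') (hne_o hq') h1 h2 hb).2
        have h4 := S.height_pos hb
        nlinarith
      · intro q' hq' h1 h2 hb _
        have h3 := (hother q' (hsub_n hq') (hne_o hq') h1 h2 hb).2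
        have h4 := S.height_pos hb
        nlinarith
      · intro q' hq' h1 h2 hb hbig
        exact le_rfl
    · intro x hx hxo hxn
      have hside := S.side_sub hq hqo hqn hxo hxn hx
      have hd := diam_mono' hside
      have h1 := S.side_le_height (c₂ := 1 / 8) (by norm_num) (by norm_num) hq hqo hqn
        h.outo h.outn hd hx hxo hxn
      refine ⟨hx, ?_, ?_⟩
      · intro q' hq' hne hb
        have h2 := S.height_le_Br hq' hne
        have h3 := S.hsep q q' hqb hb (fun e => hne e.symm)
        have h4 := S.height_pos hb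
        have h5 : 1 / 8 * height q' ≤ min (height q) (height q') := by
          apply le_min
          · linarith
          · linarith
        have h6 : S.c * (1 / 8 * height q') ≤ S.c * min (height q) (height q') := by gcongr
        have h7 : S.lam * height q' ≤ S.c * (1 / 8) * height q' := by gcongr
        linarith
      · have h2 := diam_mono' (S.Out_sub_side hq hqo hxo)
        have h3 := h.outo
        linarith
  · -- core step
    push Not at hex
    have hz0v : S.θ * g * (1 + S.θ) / 2 ≤ S.rho o n := by nlinarith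
    obtain ⟨z₀, hz₀, hz₀v⟩ := S.exists_rho_eq (o := o) (n := n)
      (v := S.θ * g * (1 + S.θ) / 2) (by positivity) hz0v
    have hcH : S.c * (2 / S.c * S.rho o n) * (S.kap / 64) = S.rho o n * S.kap / 32 := by
      field_simp; ring
    have hb1 : S.rho o n * S.kap / 32 ≤ S.kap * g / 16 := by
      have : S.rho o n ≤ 2 * g := by linarith
      nlinarith
    obtain ⟨z, hz, hz1, hz2⟩ := S.good_point (o := o) (n := n) (z₀ := z₀) (c := S.c)
      (H := 2 / S.c * S.rho o n) (ρ := S.kap / 64)
      (P := {q | IsBranchPoint q ∧ height q ≤ 2 / S.c * S.rho o n}) (h := height)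
      hc (by positivity) (by positivity) (by linarith)
      (fun p hp q hq hpq => S.hsep p q hp.1 hq.1 hpq) (fun p hp => S.height_pos hp.1)
      (fun p hp => hp.2) hz₀ (by rw [hcH, hz₀v]; nlinarith)
    rw [hcH] at hz1
    have hgood : ∀ q, IsBranchPoint q → height q ≤ 2 / S.c * S.rho o n →
        S.lam * height q ≤ S.rho z q := fun q hb hq => hz2 q ⟨hb, hq⟩
    have ht1 := S.rho_triangle o z₀ z
    have ht2 := S.rho_triangle o z z₀
    rw [S.rho_comm z z₀] at ht2
    have e1 : S.θ * g * (1 + S.θ) / 2 = S.θ ^ 2 * g + S.θ * S.kap * g / 2 := by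
      rw [hkθ]; ring
    have hkg : 0 < S.kap * g := by positivity
    have hθkg : S.kap * g / 16 ≤ S.θ * S.kap * g / 8 := by nlinarith
    have hzlo : S.θ ^ 2 * g + 3 / 8 * (S.θ * S.kap * g) ≤ S.rho o z := by
      linarith
    have hzhi : S.rho o z ≤ S.θ * g - 3 / 8 * (S.θ * S.kap * g) := by
      have : S.θ ^ 2 * g + S.θ * S.kap * g = S.θ * g := by rw [hkθ]; ring
      linarith
    have hθkgpos : 0 < S.θ * S.kap * g := by positivity
    have hzo : z ≠ o := by
      rintro rfl
      rw [S.rho_self] at hzlo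
      have : 0 < S.θ ^ 2 * g := by positivity
      linarith
    have hzn : z ≠ n := by
      rintro rfl
      linarith
    have hnz : S.lam' * g ≤ S.rho n z := by
      have h1 := S.rho_triangle o z n
      rw [S.rho_comm z n] at h1
      have h2 : S.lam' * g ≤ 3 / 16 * S.kap * g := by
        have := S.lam'_le_kap
        gcongr
      have h3 : 3 / 16 * S.kap * g ≤ 3 / 8 * (S.θ * S.kap * g) := by nlinarith
      linarith
    have hbigfar : ∀ q ∈ S.arc o n, q ≠ o → q ≠ n → IsBranchPoint q →
        2 / S.c * S.rho o n < height q → S.rho o q ≤ S.θ ^ 2 * g :=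
      fun q h1 h2 h3 h4 h5 => hex q h1 h2 h3 h4 h5
    have hznb : ¬ IsBranchPoint z := by
      intro hb
      by_cases hbig : height z ≤ 2 / S.c * S.rho o n
      · have h1 := hgood z hb hbig
        rw [S.rho_self] at h1
        have := S.height_pos hb
        have : 0 < S.lam * height z := by positivity
        linarith
      · push Not at hbig
        have := hbigfar z hz hzo hzn hb hbig
        linarith
    obtain ⟨⟨o1, o2⟩, o3, o4⟩ := outs z hz hzo hzn
    have hsub_o : ∀ {q'}, q' ∈ S.arc o z → q' ∈ S.arc o n := fun hq' => S.sub_left hz hq'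
    have hsub_n : ∀ {q'}, q' ∈ S.arc n z → q' ∈ S.arc o n :=
      fun hq' => S.sub_right hz (S.swap hq')
    have hne_n : ∀ {q'}, q' ∈ S.arc o z → q' ≠ n := by
      rintro q' hq' rfl
      exact hzn (S.antisymm hz hq').symm
    have hne_o : ∀ {q'}, q' ∈ S.arc n z → q' ≠ o := by
      rintro q' hq' rfl
      exact hzo (S.antisymm (S.swap hz) hq').symm
    have hnotbig : ∀ q' ∈ S.arc n z, q' ≠ n → IsBranchPoint q' →
        height q' ≤ 2 / S.c * S.rho o n := by
      intro q' hq' h1 hb
      by_contra h2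
      push Not at h2
      have h3 := hbigfar q' (hsub_n hq') (hne_o hq') h1 hb h2
      have h4 : z ∈ S.arc q' o := S.mid (S.swap hz) hq'
      have h5 := S.rho_mono_left (S.swap h4)
      linarith
    refine ⟨z, hz, hzo, hzn, by linarith, hnz, ?_, ?_, ?_⟩
    · refine ⟨fun e => hzo e.symm, by positivity, ?_, ?_, ?_, ?_, ?_, ?_, o1, o2⟩
      · have : S.θ * (S.θ * g) = S.θ ^ 2 * g := by ring
        linarith
      · have h2 : S.θ * g / S.θ = g := by field_simp
        rw [h2]
        nlinarith
      · intro q' hq' h1 h2 hb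
        exact h.old q' (hsub_o hq') h1 (hne_n hq') hb
      · intro q' hq' h1 h2 hb
        by_cases hbig : height q' ≤ 2 / S.c * S.rho o n
        · have h3 := hgood q' hb hbig
          have h4 := S.height_pos hb
          nlinarith
        · push Not at hbig
          have h3 := hbigfar q' (hsub_o hq') h1 (hne_n hq') hb hbig
          have h4 := h.old q' (hsub_o hq') h1 (hne_n hq') hb
          have h5 := S.rho_triangle o q' z
          rw [S.rho_comm q' z] at h5
          have h6 : S.lam' * height q' = 3 / 8 * S.kap * (S.lam * height q') := by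
            unfold lam'; ring
          have h7 : 3 / 8 * S.kap * (S.lam * height q') ≤ 3 / 8 * S.kap * (S.θ ^ 2 * g) := by
            have : S.lam * height q' ≤ S.θ ^ 2 * g := by linarith
            gcongr
          have h8 : 3 / 8 * S.kap * (S.θ ^ 2 * g) ≤ 3 / 8 * (S.θ * S.kap * g) := by
            nlinarith
          linarith
      · intro q' hq' h1 h2 hb hle
        apply hgood q' hb
        refine hle.trans ?_
        have := S.rho_mono_left hz
        gcongr
      · intro q' hq' h1 h2 hb hbig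
        nlinarith
    · have hr := S.rho_pos (x := n) (y := z) (fun e => hzn e.symm)
      refine ⟨fun e => hzn e.symm, hr, by nlinarith, ?_, ?_, ?_, ?_, ?_, o3, o4⟩
      · rw [le_div_iff₀ hθ0]; nlinarith
      · intro q' hq' h1 h2 hb
        exact h.new q' (hsub_n hq') (hne_o hq') h1 hb (hnotbig q' hq' h1 hb)
      · intro q' hq' h1 h2 hb
        have h3 := hgood q' hb (hnotbig q' hq' h1 hb)
        have h4 := S.height_pos hb
        nlinarith
      · intro q' hq' h1 h2 hb _
        exact hgood q' hb (hnotbig q' hq' h1 hb)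
      · intro q' hq' h1 h2 hb hbig
        exact le_rfl
    · intro x hx hxo hxn
      exact absurd (S.branchPoint_of (fun e => hzo e.symm) (fun e => hzn e.symm) hx hz
        (S.swap hxo) (S.swap hxn)) hznb

/-- Common part of the one-sided step and of the root step. -/
theorem step_aux {o y : T} {D : ℝ} (hD : 0 < D) (hy : D / 3 < S.rho o y) :
    ∃ z ∈ S.arc o y, z ≠ o ∧ z ≠ y ∧ D / 8 ≤ S.rho o z ∧ S.rho o z ≤ D / 5 ∧
      D / 8 ≤ S.rho z y ∧ ∀ q, IsBranchPoint q → height q ≤ D → S.lam * height q ≤ S.rho z q := by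
  have hc := S.hc
  have hc1 := S.hc1
  have hk := S.kap_pos
  have hk2 := S.kap_le
  obtain ⟨z₀, hz₀, hz₀v⟩ := S.exists_rho_eq (o := o) (n := y) (v := D / 6) (by positivity)
    (by linarith)
  have hb : S.c * D * (S.kap / 64) ≤ D / 128 := by
    have : S.c * S.kap ≤ 1 / 2 := by nlinarith
    nlinarith
  obtain ⟨z, hz, hz1, hz2⟩ := S.good_point (o := o) (n := y) (z₀ := z₀) (c := S.c)
    (H := D) (ρ := S.kap / 64)
    (P := {q | IsBranchPoint q ∧ height q ≤ D}) (h := height)
    hc hD (by positivity) (by linarith)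
    (fun p hp q hq hpq => S.hsep p q hp.1 hq.1 hpq) (fun p hp => S.height_pos hp.1)
    (fun p hp => hp.2) hz₀ (by rw [hz₀v]; linarith)
  have ht1 := S.rho_triangle o z₀ z
  have ht2 := S.rho_triangle o z z₀
  rw [S.rho_comm z z₀] at ht2
  have ht3 := S.rho_triangle o z y
  have hzo : z ≠ o := by
    rintro rfl
    rw [S.rho_self] at ht2
    linarith
  have hzy : z ≠ y := by
    rintro rfl
    linarith
  exact ⟨z, hz, hzo, hzy, by linarith, by linarith, by linarith,
    fun q hb hq => hz2 q ⟨hb, hq⟩⟩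

omit [CompactSpace T] in
/-- There is a far point in a branch. -/
theorem exists_far {o y : T} (hy : y ≠ o) [CompactSpace T] :
    ∃ y₁ ∈ S.Br o y, diam (S.Br o y) / 3 < S.rho o y₁ := by
  by_contra hcon
  push Not at hcon
  have h1 := S.diam_Br_le hcon
  have h2 := S.diam_Br_pos hy
  linarith

theorem step1 {o y y₁ : T} (h : S.Val1 o y) (hy₁ : y₁ ∈ S.Br o y)
    (hfar : diam (S.Br o y) / 3 < S.rho o y₁) :
    ∃ z ∈ S.arc o y₁, z ≠ o ∧ z ≠ y₁ ∧ ¬ IsBranchPoint z ∧
      diam (S.Br o y) / 8 ≤ S.rho o z ∧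
      diam (S.Br o y) / 8 ≤ diam (S.Br z y₁) ∧
      S.Val2 o z (S.rho o z) ∧ S.Val1 z y₁ := by
  have hθ := S.hθ
  have hθ1 := S.hθ1
  have hθ0 := S.θ_pos
  have hl := S.lam_pos
  have hl' := S.lam'_pos
  have hll := S.lam'_le
  have hDpos := S.diam_Br_pos h.ne
  obtain ⟨z, hz, hzo, hzy, hz1, hz2, hz3, hz4⟩ := S.step_aux hDpos hfar
  have hy₁o : y₁ ≠ o := by
    rintro rfl
    rw [S.rho_self] at hfar
    linarith
  have hBr : S.Br o y₁ = S.Br o y := S.Br_eq hy₁ h.ne hy₁o
  have hzBr : z ∈ S.Br o y := S.arc_sub_Br (S.base_mem_Br o y) hy₁ hz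
  have harcBr : ∀ {q}, q ∈ S.arc o z → q ∈ S.Br o y :=
    fun hq => S.arc_sub_Br (S.base_mem_Br o y) hzBr hq
  have hznb : ¬ IsBranchPoint z := by
    intro hb
    have h1 := hz4 z hb (S.height_le_Br hzBr hzo)
    rw [S.rho_self] at h1
    have := S.height_pos hb
    have : 0 < S.lam * height z := by positivity
    linarith
  have hzy2 : diam (S.Br o y) / 8 ≤ diam (S.Br z y₁) :=
    hz3.trans (S.rho_le_diam_Br (S.base_mem_Br z y₁) (S.mem_Br_self (fun e => hzy e.symm)))
  have hroz := S.rho_pos (x := o) (y := z) (fun e => hzo e.symm)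
  have hX2sub : S.X2 o z ⊆ S.Br o y := by
    rw [← hBr]; exact S.X2_sub_Br hz hzo
  have hd1 := diam_mono' hX2sub
  refine ⟨z, hz, hzo, hzy, hznb, hz1, hzy2, ?_, ?_⟩
  · refine ⟨fun e => hzo e.symm, hroz, by nlinarith, ?_, ?_, ?_, ?_, ?_, ?_, ?_⟩
    · rw [le_div_iff₀ hθ0]; nlinarith
    · intro q hq h1 h2 hb
      exact h.good q (harcBr hq) h1 hb
    · intro q hq h1 h2 hb
      have h3 := hz4 q hb (S.height_le_Br (harcBr hq) h1)
      have h4 := S.height_pos hb
      nlinarith
    · intro q hq h1 h2 hb _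
      exact hz4 q hb (S.height_le_Br (harcBr hq) h1)
    · intro q hq h1 h2 hb _
      exact le_rfl
    · have h1 := diam_mono' (S.Out_sub_Out hzBr hzo)
      have h2 := h.out
      linarith
    · have h1 : S.Br z y₁ ⊆ S.Out z o := by
        rintro x (rfl | hx)
        · exact S.left _ _
        · rcases S.tri' x hz with h | h
          · exact S.swap h
          · exact absurd (S.swap h) hx
      have h2 := diam_mono' h1
      linarith
  · refine ⟨fun e => hzy e.symm, ?_, ?_⟩
    · intro q hq hqz hb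
      have h1 : q ∈ S.Br o y := by rw [← hBr]; exact S.Br_sub_Br hz hzo hq
      have h2 : q ≠ o := by
        rintro rfl
        rcases hq with h | h
        · exact hqz h
        · exact h (S.swap hz)
      exact hz4 q hb (S.height_le_Br h1 h2)
    · have h1 : S.Br z y₁ ⊆ S.Br o y := by rw [← hBr]; exact S.Br_sub_Br hz hzo
      have h2 := diam_mono' h1
      have h3 : S.Out o y ⊆ S.Out z y₁ := by
        intro x hx
        have h4 := S.Out_sub_Out hy₁ hy₁o hx
        exact S.sub_right h4 hz
      have h5 := diam_mono' h3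
      have h6 := h.out
      linarith

theorem step0 {x₀ y₀ : T} (hfar : diam (univ : Set T) / 3 < S.rho x₀ y₀) :
    ∃ z ∈ S.arc x₀ y₀, z ≠ x₀ ∧ z ≠ y₀ ∧ ¬ IsBranchPoint z ∧
      diam (univ : Set T) / 8 ≤ diam (S.Br z x₀) ∧
      diam (univ : Set T) / 8 ≤ diam (S.Br z y₀) ∧ S.Val1 z x₀ ∧ S.Val1 z y₀ := by
  have hl := S.lam_pos
  have hD0 : 0 < diam (univ : Set T) := by
    have h1 := S.rho_le_diam_univ x₀ y₀
    have h2 : 0 ≤ diam (univ : Set T) := diam_nonneg
    rcases h2.eq_or_lt with h3 | h3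
    · rw [← h3] at hfar h1
      linarith
    · exact h3
  obtain ⟨z, hz, hzo, hzy, hz1, hz2, hz3, hz4⟩ := S.step_aux hD0 hfar
  have hznb : ¬ IsBranchPoint z := by
    intro hb
    have h1 := hz4 z hb (ArcSys.height_le_univ z)
    rw [S.rho_self] at h1
    have := S.height_pos hb
    have : 0 < S.lam * height z := by positivity
    linarith
  have hx : diam (univ : Set T) / 8 ≤ diam (S.Br z x₀) :=
    hz1.trans (by
      rw [S.rho_comm]
      exact S.rho_le_diam_Br (S.base_mem_Br z x₀) (S.mem_Br_self (fun e => hzo e.symm)))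
  have hy : diam (univ : Set T) / 8 ≤ diam (S.Br z y₀) :=
    hz3.trans (S.rho_le_diam_Br (S.base_mem_Br z y₀) (S.mem_Br_self (fun e => hzy e.symm)))
  have hout : ∀ {a b : T}, z ∈ S.arc a b → S.Br z a ⊆ S.Out z b := by
    intro a b hab
    rintro x (rfl | hx)
    · exact S.left _ _
    · rcases S.tri' x hab with h | h
      · exact absurd h hx
      · exact h
  refine ⟨z, hz, hzo, hzy, hznb, hx, hy, ⟨fun e => hzo e.symm, ?_, ?_⟩,
    ⟨fun e => hzy e.symm, ?_, ?_⟩⟩
  · intro q _ _ hb
    exact hz4 q hb (ArcSys.height_le_univ q)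
  · have h1 := diam_mono' (hout (S.swap hz))
    have h2 := diam_mono' (subset_univ (S.Br z x₀))
    linarith
  · intro q _ _ hb
    exact hz4 q hb (ArcSys.height_le_univ q)
  · have h1 := diam_mono' (hout hz)
    have h2 := diam_mono' (subset_univ (S.Br z y₀))
    linarith

end Ctx

end Pool.Agent.QT
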