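import Pool.Agent.Helper11.QT.TInf

/-!
# The `ℓ¹` distance on `J_n` is the path metric

Any two points of `J_n` are joined inside `J_n` by an isometric copy of an interval; hence the
distance induced from `ℓ¹` is the path metric of `J_n`, as required in the definition of `T_∞`.
-/

set_option autoImplicit false

open Set Metric Filter Topology

namespace Pool.Agent.QT

/-- The part of `J_(|w| + n)` that lies over the segment `w`. -/
def JJ : List ℕ → ℕ → Set EllOne
  | w, 0 => segm w
  | w, (n + 1) => ⋃ k : ℕ, JJ (k :: w) n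

/-- `Γ` contains a geodesic segment of `ℓ¹` from `x` to `y`. -/
def GeoIn (Γ : Set EllOne) (x y : EllOne) : Prop :=
  ∃ γ : ℝ → EllOne, γ 0 = x ∧ γ (dist x y) = y ∧ (∀ s, 0 ≤ s → s ≤ dist x y → γ s ∈ Γ) ∧
    ∀ s t, 0 ≤ s → s ≤ dist x y → 0 ≤ t → t ≤ dist x y → dist (γ s) (γ t) = |s - t|

theorem GeoIn.mono {Γ Γ' : Set EllOne} {x y : EllOne} (h : GeoIn Γ x y) (hs : Γ ⊆ Γ') :
    GeoIn Γ' x y := by
  obtain ⟨γ, h1, h2, h3, h4⟩ := h
  exact ⟨γ, h1, h2, fun s a b => hs (h3 s a b), h4⟩

theorem GeoIn.symm {Γ : Set EllOne} {x y : EllOne} (h : GeoIn Γ x y) : GeoIn Γ y x := by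
  obtain ⟨γ, h1, h2, h3, h4⟩ := h
  rw [GeoIn, dist_comm y x]
  refine ⟨fun s => γ (dist x y - s), by simp [h2], by simp [h1],
    fun s a b => h3 _ (by linarith) (by linarith), fun s t a b c d => ?_⟩
  rw [h4 _ _ (by linarith) (by linarith) (by linarith) (by linarith), abs_sub_comm]
  congr 1
  ring

theorem segm_subset_box (w : List ℕ) : segm w ⊆ box w := by
  rintro x ⟨t, ht0, ht1, rfl⟩
  refine ⟨fun i hi _ => ?_, ?_, ?_⟩
  · rw [add_smul_apply_ne _ _ hi]
  · rw [add_smul_apply_self]; linarith
  · rw [add_smul_apply_self]; linarith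

theorem JJ_subset_box (n : ℕ) : ∀ w : List ℕ, JJ w n ⊆ box w := by
  induction n with
  | zero => exact segm_subset_box
  | succ n ih =>
    intro w
    exact iUnion_subset fun k => (ih _).trans (box_cons_subset k w)

theorem start_mem_JJ (n : ℕ) : ∀ w : List ℕ, start w ∈ JJ w n := by
  induction n with
  | zero => exact fun w => ⟨0, le_rfl, (len_pos w).le, by simp⟩
  | succ n ih =>
    intro w
    refine mem_iUnion.2 ⟨0, ?_⟩
    have := ih (0 :: w)
    rwa [start_zero] at this

theorem stop_mem_JJ (n : ℕ) : ∀ w : List ℕ, stop w ∈ JJ w n := by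
  induction n with
  | zero => exact fun w => ⟨len w, (len_pos w).le, le_rfl, rfl⟩
  | succ n ih =>
    intro w
    refine mem_iUnion.2 ⟨1, ?_⟩
    have := ih (1 :: w)
    rwa [stop_one] at this

theorem ctr_mem_JJ_cons (n k : ℕ) (w : List ℕ) : ctr w ∈ JJ (k :: w) n := by
  rcases k with _ | _ | k
  · rw [← stop_zero]; exact stop_mem_JJ n _
  · rw [← start_one]; exact start_mem_JJ n _
  · rw [← start_side k]; exact start_mem_JJ n _

theorem geo_concat {Γ Γ' : Set EllOne} {x c y : EllOne}
    (hsep : ∀ u ∈ Γ, ∀ v ∈ Γ', dist u v = dist u c + dist c v)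
    (hx : x ∈ Γ) (hy : y ∈ Γ') (h1 : GeoIn Γ x c) (h2 : GeoIn Γ' c y) :
    GeoIn (Γ ∪ Γ') x y := by
  obtain ⟨γ, a1, a2, a3, a4⟩ := h1
  obtain ⟨δ, b1, b2, b3, b4⟩ := h2
  have hd : dist x y = dist x c + dist c y := hsep x hx y hy
  have hp1 : 0 ≤ dist x c := dist_nonneg
  have hp2 : 0 ≤ dist c y := dist_nonneg
  classical
  have key : ∀ s t, 0 ≤ s → s ≤ dist x c → dist x c < t → t ≤ dist x c + dist c y →
      dist (γ s) (δ (t - dist x c)) = t - s := by
    intro s t h1 h2 h3 h4
    rw [hsep _ (a3 s h1 h2) _ (b3 _ (by linarith) (by linarith))]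
    have e1 : dist (γ s) c = dist x c - s := by
      have := a4 s (dist x c) h1 h2 hp1 le_rfl
      rw [a2] at this
      rw [this, abs_of_nonpos (by linarith)]
      ring
    have e2 : dist c (δ (t - dist x c)) = t - dist x c := by
      have := b4 0 (t - dist x c) le_rfl hp2 (by linarith) (by linarith)
      rw [b1] at this
      rw [this, abs_of_nonpos (by linarith)]
      ring
    rw [e1, e2]
    ring
  refine ⟨fun s => if s ≤ dist x c then γ s else δ (s - dist x c), ?_, ?_, ?_, ?_⟩
  · simp only [if_pos hp1, a1]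
  · rw [hd]
    by_cases h : dist x c + dist c y ≤ dist x c
    · have h0 : dist c y = 0 := by linarith
      have hcy : c = y := dist_eq_zero.1 h0
      show (if dist x c + dist c y ≤ dist x c then γ (dist x c + dist c y)
        else δ (dist x c + dist c y - dist x c)) = y
      rw [if_pos h, h0, add_zero, a2]
      exact hcy
    · simp only [if_neg h, add_sub_cancel_left, b2]
  · intro s hs1 hs2
    rw [hd] at hs2
    by_cases h : s ≤ dist x c
    · simp only [if_pos h]
      exact Or.inl (a3 s hs1 h)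
    · simp only [if_neg h]
      exact Or.inr (b3 _ (by linarith) (by linarith))
  · intro s t hs1 hs2 ht1 ht2
    rw [hd] at hs2 ht2
    by_cases h : s ≤ dist x c <;> by_cases h' : t ≤ dist x c
    · simp only [if_pos h, if_pos h']
      exact a4 s t hs1 h ht1 h'
    · simp only [if_pos h, if_neg h']
      rw [key s t hs1 h (by linarith) ht2, abs_of_neg (by linarith)]
      ring
    · simp only [if_neg h, if_pos h']
      rw [dist_comm, key t s ht1 h' (by linarith) hs2, abs_of_pos (by linarith)]
    · simp only [if_neg h, if_neg h']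
      rw [b4 _ _ (by linarith) (by linarith) (by linarith) (by linarith)]
      congr 1
      ring

theorem segm_geo {w : List ℕ} {x y : EllOne} (hx : x ∈ segm w) (hy : y ∈ segm w) :
    GeoIn (segm w) x y := by
  have main : ∀ {a b : ℝ}, 0 ≤ a → a ≤ b → b ≤ len w →
      GeoIn (segm w) (start w + a • unitVec (dir w)) (start w + b • unitVec (dir w)) := by
    intro a b ha hab hb
    have hd : dist (start w + a • unitVec (dir w)) (start w + b • unitVec (dir w)) = b - a := by
      rw [dist_add_smul, abs_of_nonpos (by linarith)]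
      ring
    refine ⟨fun s => start w + (a + s) • unitVec (dir w), by simp, ?_, ?_, ?_⟩
    · rw [hd]
      simp
    · intro s hs1 hs2
      rw [hd] at hs2
      exact ⟨a + s, by linarith, by linarith, rfl⟩
    · intro s t _ _ _ _
      rw [dist_add_smul]
      congr 1
      ring
  obtain ⟨a, ha0, ha1, rfl⟩ := hx
  obtain ⟨b, hb0, hb1, rfl⟩ := hy
  rcases le_total a b with h | h
  · exact main ha0 h hb1
  · exact (main hb0 h ha1).symm

theorem JJ_geo (n : ℕ) : ∀ (w : List ℕ) (x y : EllOne), x ∈ JJ w n → y ∈ JJ w n →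
    GeoIn (JJ w n) x y := by
  induction n with
  | zero => exact fun w x y hx hy => segm_geo hx hy
  | succ n ih =>
    intro w x y hx hy
    obtain ⟨k, hk⟩ := mem_iUnion.1 hx
    obtain ⟨l, hl⟩ := mem_iUnion.1 hy
    have hsub : ∀ k, JJ (k :: w) n ⊆ JJ w (n + 1) := fun k => subset_iUnion (fun k => JJ (k :: w) n) k
    by_cases hkl : k = l
    · subst hkl
      exact (ih _ x y hk hl).mono (hsub k)
    · have hc1 := ctr_mem_JJ_cons n k w
      have hc2 := ctr_mem_JJ_cons n l w
      have h := geo_concat (c := ctr w)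
        (fun u hu v hv => box_dist hkl (JJ_subset_box n _ hu) (JJ_subset_box n _ hv))
        hk hl (ih _ _ _ hk hc1) (ih _ _ _ hc2 hl)
      exact h.mono (union_subset (hsub k) (hsub l))

theorem mem_JJ_iff (n : ℕ) : ∀ (w : List ℕ) (x : EllOne),
    x ∈ JJ w n ↔ ∃ u : List ℕ, u.length = n ∧ x ∈ segm (u ++ w) := by
  induction n with
  | zero =>
    intro w x
    constructor
    · exact fun h => ⟨[], rfl, h⟩
    · rintro ⟨u, hu, hx⟩
      rw [List.length_eq_zero_iff] at hu
      subst hu
      exact hx
  | succ n ih =>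
    intro w x
    constructor
    · intro h
      obtain ⟨k, hk⟩ := mem_iUnion.1 h
      obtain ⟨u, hu, hx⟩ := (ih _ _).1 hk
      refine ⟨u ++ [k], by simp [hu], ?_⟩
      rwa [List.append_assoc]
    · rintro ⟨u, hu, hx⟩
      have hne : u ≠ [] := by
        rintro rfl
        simp at hu
      have he := List.dropLast_append_getLast hne
      refine mem_iUnion.2 ⟨u.getLast hne, (ih _ _).2 ⟨u.dropLast, by simp [hu], ?_⟩⟩
      have : u.dropLast ++ (u.getLast hne :: w) = u ++ w := by
        conv_rhs => rw [← he]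
        rw [List.append_assoc]
        rfl
      rwa [this]

theorem J_eq_JJ (n : ℕ) : J n = JJ [] n := by
  ext x
  rw [mem_JJ_iff]
  simp [J]

/-- **Check of the model**: any two points of `J_n` are joined by a geodesic of `ℓ¹` lying in
`J_n`, so the `ℓ¹` distance on `J_n` is its path metric. -/
theorem J_geodesic (n : ℕ) {x y : EllOne} (hx : x ∈ J n) (hy : y ∈ J n) : GeoIn (J n) x y := by
  rw [J_eq_JJ] at hx hy ⊢
  exact JJ_geo n [] x y hx hy

/-- **Check of the model**: different children of a segment meet exactly in its midpoint. -/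
theorem JJ_inter (n : ℕ) {k l : ℕ} (w : List ℕ) (hkl : k ≠ l) :
    JJ (k :: w) n ∩ JJ (l :: w) n = {ctr w} := by
  apply Subset.antisymm
  · rintro x ⟨h1, h2⟩
    have h := box_dist hkl (JJ_subset_box n _ h1) (JJ_subset_box n _ h2)
    rw [dist_self] at h
    have h3 : 0 ≤ dist x (ctr w) := dist_nonneg
    have h4 : 0 ≤ dist (ctr w) x := dist_nonneg
    exact dist_eq_zero.1 (by linarith)
  · rintro x rfl
    exact ⟨ctr_mem_JJ_cons n k w, ctr_mem_JJ_cons n l w⟩

/-- **Check of the model**: a segment is the union of its two halves. -/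
theorem segm_eq_union (w : List ℕ) : segm w = segm (0 :: w) ∪ segm (1 :: w) := by
  have hl := len_pos w
  ext x
  constructor
  · rintro ⟨t, ht0, ht1, rfl⟩
    rcases le_total t (len w / 2) with h | h
    · exact Or.inl ⟨t, ht0, h, rfl⟩
    · refine Or.inr ⟨t - len w / 2, by linarith, ?_, ?_⟩
      · have : len (1 :: w) = len w / 2 := rfl
        rw [this]; linarith
      · have e : start (1 :: w) = start w + (len w / 2) • unitVec (dir w) := rfl
        have e2 : dir (1 :: w) = dir w := rfl
        rw [e, e2, add_assoc, ← add_smul]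
        congr 2
        ring
  · rintro (⟨t, ht0, ht1, rfl⟩ | ⟨t, ht0, ht1, rfl⟩)
    · have : len (0 :: w) = len w / 2 := rfl
      rw [this] at ht1
      exact ⟨t, ht0, by linarith, rfl⟩
    · have : len (1 :: w) = len w / 2 := rfl
      rw [this] at ht1
      refine ⟨len w / 2 + t, by linarith, by linarith, ?_⟩
      have e : start (1 :: w) = start w + (len w / 2) • unitVec (dir w) := rfl
      have e2 : dir (1 :: w) = dir w := rfl
      rw [e, e2, add_assoc, ← add_smul]

end Pool.Agent.QT
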