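import Pool.Agent.Helper11.QT.Arc

/-!
# Tree calculus
-/

set_option autoImplicit false

open Set Metric Filter Topology

namespace Pool.Agent.QT

namespace ArcSys

variable {T : Type*} [MetricSpace T] (S : ArcSys T)

theorem right (x y : T) : y ∈ S.arc x y := by
  rw [S.symm]; exact S.left y x

theorem comm {x y z : T} : z ∈ S.arc x y ↔ z ∈ S.arc y x := by
  rw [S.symm]

theorem swap {x y z : T} (h : z ∈ S.arc x y) : z ∈ S.arc y x := by
  rwa [S.symm]

theorem nswap {x y z : T} (h : z ∉ S.arc x y) : z ∉ S.arc y x := by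
  rwa [S.symm]

theorem eq_of_mem_self {x z : T} (h : z ∈ S.arc x x) : z = x := by
  rw [S.self] at h; exact h

theorem sub_left {x y z : T} (h : z ∈ S.arc x y) : S.arc x z ⊆ S.arc x y := by
  rw [← S.union h]; exact subset_union_left

theorem sub_right {x y z : T} (h : z ∈ S.arc x y) : S.arc z y ⊆ S.arc x y := by
  rw [← S.union h]; exact subset_union_right

theorem split {x y z w : T} (h : z ∈ S.arc x y) (hw : w ∈ S.arc x y) :
    w ∈ S.arc x z ∨ w ∈ S.arc z y := by
  rw [← S.union h] at hw; exact hw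

theorem eq_of_mem {x y z w : T} (h : z ∈ S.arc x y) (h1 : w ∈ S.arc x z) (h2 : w ∈ S.arc z y) :
    w = z := by
  have : w ∈ S.arc x z ∩ S.arc z y := ⟨h1, h2⟩
  rw [S.inter h] at this
  exact this

theorem antisymm {x y z : T} (h : z ∈ S.arc x y) (h' : y ∈ S.arc x z) : y = z :=
  S.eq_of_mem h h' (S.right z y)

theorem tri' {x z w : T} (y : T) (h : w ∈ S.arc x z) : w ∈ S.arc x y ∨ w ∈ S.arc y z :=
  S.tri x y z h

/-- If `w` is before `z` before `y` then `z` is between `w` and `y`. -/
theorem mid {x y z w : T} (h : z ∈ S.arc x y) (hw : w ∈ S.arc x z) : z ∈ S.arc w y := by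
  rcases S.split (S.sub_left h hw) h with h1 | h1
  · have := S.antisymm h1 hw
    subst this
    exact S.left _ _
  · exact h1

theorem concat {x o z n : T} (h : o ∈ S.arc x z) (h' : z ∈ S.arc o n) (hne : o ≠ z) :
    o ∈ S.arc x n := by
  rcases S.tri' n h with h1 | h1
  · exact h1
  · exfalso
    exact hne (S.antisymm h1 (S.swap h')).symm

/-- The metric `diam [x, y]`. -/
noncomputable def rho (x y : T) : ℝ := diam (S.arc x y)

theorem bdd (x y : T) : Bornology.IsBounded (S.arc x y) := (S.compact x y).isBounded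

theorem rho_nonneg (x y : T) : 0 ≤ S.rho x y := diam_nonneg

theorem rho_self (x : T) : S.rho x x = 0 := by
  rw [rho, S.self, diam_singleton]

theorem rho_comm (x y : T) : S.rho x y = S.rho y x := by
  rw [rho, rho, S.symm]

theorem dist_le_rho (x y : T) : dist x y ≤ S.rho x y :=
  dist_le_diam_of_mem (S.bdd x y) (S.left x y) (S.right x y)

theorem rho_le (x y : T) : S.rho x y ≤ S.K * dist x y := S.turn x y

theorem rho_pos {x y : T} (h : x ≠ y) : 0 < S.rho x y :=
  lt_of_lt_of_le (dist_pos.2 h) (S.dist_le_rho x y)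

theorem eq_of_rho {x y : T} (h : S.rho x y ≤ 0) : x = y := by
  by_contra hne
  exact absurd (S.rho_pos hne) (not_lt.2 h)

theorem rho_mono_left {x y z : T} (h : z ∈ S.arc x y) : S.rho x z ≤ S.rho x y :=
  diam_mono (S.sub_left h) (S.bdd x y)

theorem rho_mono_right {x y z : T} (h : z ∈ S.arc x y) : S.rho z y ≤ S.rho x y :=
  diam_mono (S.sub_right h) (S.bdd x y)

theorem rho_triangle (x y z : T) : S.rho x z ≤ S.rho x y + S.rho y z := by
  refine (diam_mono (S.tri x y z) ((S.bdd x y).union (S.bdd y z))).trans ?_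
  exact diam_union' ⟨y, S.right x y, S.left y z⟩

theorem continuous_rho (o : T) : Continuous (fun z => S.rho o z) := by
  have hK := S.hK
  have h : LipschitzWith (Real.toNNReal S.K) (fun z => S.rho o z) := by
    refine LipschitzWith.of_dist_le_mul fun x y => ?_
    rw [Real.coe_toNNReal _ (by linarith), Real.dist_eq, abs_le]
    have h1 := S.rho_triangle o x y
    have h2 := S.rho_triangle o y x
    have h3 := S.rho_le x y
    have h4 := S.rho_le y x
    rw [dist_comm y x] at h4
    constructor <;> linarith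
  exact h.continuous

theorem ivt {x y : T} {φ : T → ℝ} (hφ : Continuous φ) {v : ℝ} (h1 : φ x ≤ v) (h2 : v ≤ φ y) :
    ∃ z ∈ S.arc x y, φ z = v := by
  have := (S.conn x y).intermediate_value (S.left x y) (S.right x y) hφ.continuousOn
  exact this ⟨h1, h2⟩

theorem exists_rho_eq {o n : T} {v : ℝ} (h0 : 0 ≤ v) (h1 : v ≤ S.rho o n) :
    ∃ z ∈ S.arc o n, S.rho o z = v :=
  S.ivt (S.continuous_rho o) (by rw [S.rho_self]; exact h0) h1

/-! ### Branches -/

/-- The branch of `q` containing `x`. -/
def Br (q x : T) : Set T := {y | y = q ∨ q ∉ S.arc x y}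

theorem mem_Br_self {q x : T} (h : x ≠ q) : x ∈ S.Br q x := by
  right
  intro h1
  exact h (S.eq_of_mem_self h1).symm

theorem base_mem_Br (q x : T) : q ∈ S.Br q x := Or.inl rfl

theorem Br_sub {q x x' : T} (h : x' ∈ S.Br q x) (hx' : x' ≠ q) : S.Br q x' ⊆ S.Br q x := by
  rintro y (rfl | hy)
  · exact S.base_mem_Br _ _
  · right
    intro h1
    rcases h with h | h
    · exact hx' h
    · rcases S.tri' x' h1 with h2 | h2
      · exact h h2
      · exact hy h2

theorem Br_eq {q x x' : T} (h : x' ∈ S.Br q x) (hx : x ≠ q) (hx' : x' ≠ q) :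
    S.Br q x' = S.Br q x := by
  apply Subset.antisymm (S.Br_sub h hx')
  apply S.Br_sub _ hx
  rcases h with h | h
  · exact absurd h hx'
  · exact Or.inr (S.nswap h)

theorem Br_ne {q x x' : T} (h : q ∈ S.arc x x') (hx : x ≠ q) : S.Br q x ≠ S.Br q x' := by
  intro he
  have h1 := S.mem_Br_self hx
  rw [he] at h1
  rcases h1 with h1 | h1
  · exact hx h1
  · exact h1 (S.swap h)

theorem mem_arc_of_Br_ne {q x x' : T} (h : S.Br q x ≠ S.Br q x') (hx : x ≠ q) (hx' : x' ≠ q) :
    q ∈ S.arc x x' := by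
  by_contra h1
  exact h (S.Br_eq (Or.inr (S.nswap h1)) hx' hx)

theorem arc_sub_Br {q x y y' : T} (hy : y ∈ S.Br q x) (hy' : y' ∈ S.Br q x) :
    S.arc y y' ⊆ S.Br q x := by
  intro w hw
  by_cases hwq : w = q
  · exact Or.inl hwq
  right
  intro hq
  rcases hy with rfl | hy
  · rcases hy' with rfl | hy'
    · exact hwq (S.eq_of_mem_self hw)
    · rcases S.tri' y' hq with h | h
      · exact hy' h
      · exact hwq (S.antisymm h (S.swap hw))
  · have h1 : q ∈ S.arc y w := by
      rcases S.tri' y hq with h | h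
      · exact absurd h hy
      · exact h
    rcases hy' with rfl | hy'
    · exact hwq (S.antisymm h1 hw)
    · have h2 : q ∈ S.arc w y' := by
        rcases S.tri' y' hq with h | h
        · exact absurd h hy'
        · exact S.swap h
      exact hwq (S.eq_of_mem hw h1 h2).symm

/-- Points near `y` are on the same side of `q`. -/
theorem not_mem_arc_of_dist {q y y' : T} (h : S.K * dist y y' < dist y q) : q ∉ S.arc y y' := by
  intro hq
  have h1 := dist_le_diam_of_mem (S.bdd y y') (S.left y y') hq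
  have h2 := S.turn y y'
  linarith

theorem isOpen_side {q x : T} : IsOpen {y | y ≠ q ∧ q ∉ S.arc x y} := by
  have hK := S.hK
  rw [Metric.isOpen_iff]
  rintro y ⟨hy1, hy2⟩
  have hd : 0 < dist y q := dist_pos.2 hy1
  refine ⟨dist y q / S.K, by positivity, fun y' hy' => ?_⟩
  have h1 : S.K * dist y y' < dist y q := by
    rw [mem_ball, dist_comm, lt_div_iff₀ (by linarith)] at hy'
    linarith
  have h2 := S.not_mem_arc_of_dist h1
  refine ⟨fun h => h2 (h ▸ S.right y y'), fun h => ?_⟩
  rcases S.tri' y h with h3 | h3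
  · exact hy2 h3
  · exact h2 h3

theorem isOpen_other {q x : T} : IsOpen {y | y ≠ q ∧ q ∈ S.arc x y} := by
  have hK := S.hK
  rw [Metric.isOpen_iff]
  rintro y ⟨hy1, hy2⟩
  have hd : 0 < dist y q := dist_pos.2 hy1
  refine ⟨dist y q / S.K, by positivity, fun y' hy' => ?_⟩
  have h1 : S.K * dist y y' < dist y q := by
    rw [mem_ball, dist_comm, lt_div_iff₀ (by linarith)] at hy'
    linarith
  have h2 := S.not_mem_arc_of_dist h1
  refine ⟨fun h => h2 (h ▸ S.right y y'), ?_⟩
  by_contra h
  rcases S.tri' y' hy2 with h3 | h3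
  · exact h h3
  · exact h2 (S.swap h3)

theorem component_eq {q x : T} (hx : x ≠ q) :
    connectedComponentIn {q}ᶜ x = {y | q ∉ S.arc x y} := by
  have hxq : x ∈ ({q}ᶜ : Set T) := hx
  apply Subset.antisymm
  · have hsub : connectedComponentIn {q}ᶜ x ⊆
        {y | y ≠ q ∧ q ∉ S.arc x y} ∪ {y | y ≠ q ∧ q ∈ S.arc x y} := by
      intro y hy
      have hyq : y ≠ q := connectedComponentIn_subset _ _ hy
      by_cases h : q ∈ S.arc x y
      · exact Or.inr ⟨hyq, h⟩
      · exact Or.inl ⟨hyq, h⟩
    have h1 := isPreconnected_connectedComponentIn.subset_left_of_subset_union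
      (S.isOpen_side (q := q) (x := x)) (S.isOpen_other (q := q) (x := x))
      (by
        rw [disjoint_left]
        rintro y ⟨_, h⟩ ⟨_, h'⟩
        exact h h') hsub
      ⟨x, mem_connectedComponentIn hxq, hx, fun h => hx (S.eq_of_mem_self h).symm⟩
    exact fun y hy => (h1 hy).2
  · apply IsPreconnected.subset_connectedComponentIn
    · refine isPreconnected_of_forall x fun y hy => ?_
      refine ⟨S.arc x y, fun w hw h => hy (S.sub_left hw h), S.left x y, S.right x y, S.conn x y⟩
    · exact fun h => hx (S.eq_of_mem_self h).symm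
    · intro y hy h
      have : y = q := h
      subst this
      exact hy (S.right x y)

theorem closure_component {q x : T} (hx : x ≠ q) :
    closure (connectedComponentIn {q}ᶜ x) = S.Br q x := by
  rw [S.component_eq hx]
  apply Subset.antisymm
  · intro y hy
    by_contra h
    have h1 : y ≠ q ∧ q ∈ S.arc x y := by
      constructor
      · exact fun h2 => h (Or.inl h2)
      · by_contra h2
        exact h (Or.inr h2)
    rw [_root_.mem_closure_iff] at hy
    obtain ⟨w, hw1, hw2⟩ := hy _ (S.isOpen_other (q := q) (x := x)) h1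
    exact hw2 hw1.2
  · rintro y (rfl | hy)
    · rw [Metric.mem_closure_iff]
      intro ε hε
      have hpos := S.rho_pos hx
      have h1 : min (S.rho x y) ε / 2 ≤ S.rho y x := by
        rw [S.rho_comm y x]
        have := min_le_left (S.rho x y) ε
        have h2 : 0 < min (S.rho x y) ε := lt_min hpos hε
        linarith
      have h2 : 0 < min (S.rho x y) ε := lt_min hpos hε
      obtain ⟨z, hz, hz2⟩ := S.exists_rho_eq (o := y) (n := x) (by positivity) h1
      refine ⟨z, ?_, ?_⟩
      · intro h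
        have h3 := S.antisymm (S.swap hz) h
        rw [← h3, S.rho_self] at hz2
        linarith
      · have h3 := S.dist_le_rho y z
        have h4 := min_le_right (S.rho x y) ε
        linarith
    · exact subset_closure hy

theorem isBranch_iff {q : T} {B : Set T} : IsBranch q B ↔ ∃ x, x ≠ q ∧ B = S.Br q x := by
  constructor
  · rintro ⟨x, hx, rfl⟩
    exact ⟨x, hx, S.closure_component hx⟩
  · rintro ⟨x, hx, rfl⟩
    exact ⟨x, hx, (S.closure_component hx).symm⟩

theorem isBranch_Br {q x : T} (hx : x ≠ q) : IsBranch q (S.Br q x) :=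
  S.isBranch_iff.2 ⟨x, hx, rfl⟩

/-! ### The cell between two points -/

/-- The cell of `T` between `o` and `n`. -/
def X2 (o n : T) : Set T := {x | x = o ∨ x = n ∨ (o ∉ S.arc x n ∧ n ∉ S.arc x o)}

theorem X2_comm (o n : T) : S.X2 o n = S.X2 n o := by
  ext x
  simp only [X2, mem_ofPred_eq]
  tauto

theorem left_mem_X2 (o n : T) : o ∈ S.X2 o n := Or.inl rfl

theorem right_mem_X2 (o n : T) : n ∈ S.X2 o n := Or.inr (Or.inl rfl)

theorem arc_sub_X2 {o n z : T} (hz : z ∈ S.arc o n) : z ∈ S.X2 o n := by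
  by_cases h1 : z = o
  · exact Or.inl h1
  by_cases h2 : z = n
  · exact Or.inr (Or.inl h2)
  refine Or.inr (Or.inr ⟨fun h => ?_, fun h => ?_⟩)
  · exact h1 (S.antisymm (S.swap h) (S.swap hz))
  · exact h2 (S.antisymm (S.swap h) hz)

theorem mem_X2_left {o n z x : T} (hz : z ∈ S.arc o n) (hzo : z ≠ o) (hx : x ∈ S.X2 o n)
    (h : z ∉ S.arc x o) : x ∈ S.X2 o z := by
  rcases hx with rfl | rfl | ⟨h1, h2⟩
  · exact S.left_mem_X2 _ _
  · exact absurd (S.swap hz) h
  · right; right
    refine ⟨fun h3 => h1 (S.concat h3 hz (fun e => hzo e.symm)), h⟩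

theorem X2_sub_left {o n z : T} (hz : z ∈ S.arc o n) (hzo : z ≠ o) :
    S.X2 o z ⊆ S.X2 o n := by
  rintro x (rfl | rfl | ⟨h1, h2⟩)
  · exact S.left_mem_X2 _ _
  · exact S.arc_sub_X2 hz
  · right; right
    constructor
    · intro h
      rcases S.tri' z h with h3 | h3
      · exact h1 h3
      · exact hzo (S.antisymm (S.swap h3) (S.swap hz))
    · intro h
      exact h2 (S.swap (S.sub_left (S.swap h) hz))

theorem X2_sub_right {o n z : T} (hz : z ∈ S.arc o n) (hzn : z ≠ n) :
    S.X2 z n ⊆ S.X2 o n := by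
  rw [S.X2_comm z n, S.X2_comm o n]
  exact S.X2_sub_left (S.swap hz) hzn

theorem mem_X2_right {o n z x : T} (hz : z ∈ S.arc o n) (hzn : z ≠ n) (hx : x ∈ S.X2 o n)
    (h : z ∉ S.arc x n) : x ∈ S.X2 z n := by
  rw [S.X2_comm]
  rw [S.X2_comm] at hx
  exact S.mem_X2_left (S.swap hz) hzn hx h

theorem X2_not_mem {o z x : T} (hx : x ∈ S.X2 o z) (hxz : x ≠ z) (hoz : z ≠ o) :
    z ∉ S.arc x o := by
  rcases hx with rfl | rfl | ⟨h1, h2⟩
  · intro h
    exact hoz (S.eq_of_mem_self h)
  · exact absurd rfl hxz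
  · exact h2

theorem X2_not_mem' {z n x : T} (hx : x ∈ S.X2 z n) (hxz : x ≠ z) (hnz : z ≠ n) :
    z ∉ S.arc x n := by
  rw [S.X2_comm] at hx
  exact S.X2_not_mem hx hxz hnz

theorem sep_left_right {o n z x x' : T} (hz : z ∈ S.arc o n) (hzo : z ≠ o) (hzn : z ≠ n)
    (hx : x ∈ S.X2 o z) (hx' : x' ∈ S.X2 z n) : z ∈ S.arc x x' := by
  by_cases h1 : x = z
  · rw [h1]; exact S.left _ _
  by_cases h2 : x' = z
  · rw [h2]; exact S.right _ _
  have h3 := S.X2_not_mem hx h1 hzo
  have h4 := S.X2_not_mem' hx' h2 hzn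
  rcases S.tri' x hz with h | h
  · exact absurd (S.swap h) h3
  · rcases S.tri' x' h with h5 | h5
    · exact h5
    · exact absurd h5 h4

theorem sep_left_side {o z x x' : T} (hzo : z ≠ o)
    (hx : x ∈ S.X2 o z) (hx' : z ∈ S.arc x' o) : z ∈ S.arc x x' := by
  by_cases h1 : x = z
  · rw [h1]; exact S.left _ _
  have h3 := S.X2_not_mem hx h1 hzo
  rcases S.tri' x hx' with h | h
  · exact S.swap h
  · exact absurd h h3

theorem sep_right_side {z n x x' : T} (hzn : z ≠ n)
    (hx : x ∈ S.X2 z n) (hx' : z ∈ S.arc x' n) : z ∈ S.arc x x' := by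
  rw [S.X2_comm] at hx
  exact S.sep_left_side hzn hx hx'

/-- A side branch is contained in the cell. -/
theorem side_sub {o n z x : T} (hz : z ∈ S.arc o n) (hzo : z ≠ o) (hzn : z ≠ n)
    (hxo : z ∈ S.arc x o) (hxn : z ∈ S.arc x n) (hx : x ≠ z) : S.Br z x ⊆ S.X2 o n := by
  rintro y (rfl | hy)
  · exact S.arc_sub_X2 hz
  · have h1 : z ∈ S.arc y o := by
      rcases S.tri' y hxo with h | h
      · exact absurd h hy
      · exact h
    have h2 : z ∈ S.arc y n := by
      rcases S.tri' y hxn with h | h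
      · exact absurd h hy
      · exact h
    right; right
    constructor
    · intro h
      rcases S.split h2 h with h3 | h3
      · exact hzo (S.antisymm h1 h3).symm
      · exact hzo (S.antisymm (S.swap h3) (S.swap hz))
    · intro h
      rcases S.split h1 h with h3 | h3
      · exact hzn (S.antisymm h2 h3).symm
      · exact hzn (S.antisymm (S.swap h3) hz)

end ArcSys

end Pool.Agent.QT
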